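import Pool.Agent.Lib.AM.SpecE
import Pool.Agent.Lib.AM.G.Tel

set_option linter.all false

/-!
# AM, SPEC E (part 2): choice of the parameters, sums over the levels, the family of the blocks

Paper proof: note 5251, (8), (9), (10). Every docstring contains the complete proof. Tools: `G/Tel.lean` (`tel`: telescoping
sums over a finite set of levels, `cnt`: number of the active levels), `G/Num.lean` (numbers).
-/

namespace Pool.Agent.AM.G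

open Finset Pool.Agent.MP_a4c1f4_lc Pool.Agent.AM

/-- Size of the parameters: everything is bounded by `C0` times the right power of `L`. -/
structure Prm.Bd (P : Prm) (K' C0 : ℝ) (s2 : ℕ) : Prop where
  beta : P.beta = Real.sqrt P.L
  betan : P.beta ≤ P.n
  n_le : (P.n : ℝ) ≤ C0 * Real.sqrt P.L
  K2 : 2 * K' ≤ P.K
  K_le : P.K ≤ C0
  big : 2 * K' * P.Lam ^ 2 ≤ 4 ^ P.n
  sml : 1 ≤ 4 ^ s2 * P.dl
  js_le : (P.js : ℝ) ≤ C0 * (1 + Real.log P.L)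
  s2_le : (s2 : ℝ) ≤ C0 * (1 + Real.log P.L)
  a_le : P.a ≤ C0 * (1 + Real.log P.L)
  kap_le : P.kap ≤ C0 * (1 + Real.log P.L)

/-- (Par) Choice of the parameters. helper91 writes this (`G/Par.lean`). -/
def ParProp : Prop :=
  ∀ K' : ℝ, 1 ≤ K' → ∃ C0 : ℝ, 1 ≤ C0 ∧ ∀ m : ℕ, 0 < m → ∃ (P : Prm) (s2 : ℕ), P.OK m ∧ P.Bd K' C0 s2

/-- (Gsum) Sum of the growths at the site `y` over a finite set `S` of active levels. Uses: `tel`, `cnt` of `G/Tel.lean`. Proof.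
Let `f k = log (nb D (4^k / 4^s2) y)` (`k : ℤ`); `1 ≤ nb D ρ y ≤ m` for `ρ ≥ 0` (`y` itself is in the ball, `PM.self`), `nb` is monotone in `ρ`, so
`f` is monotone with values in `[0, log m]`, `log m ≤ L`. For `q = js + 1 + s2`: `4^(k+q) / 4^s2 = 4 * (4^js * 4^k)`, and `4^k / 4^s2 ≤ dl * 4^k`
(`1 ≤ 4^s2 dl`), so `Gk P D (4^k) y = log (nb (4 (4^js 4^k)) y) - log (nb (dl 4^k) y) + a ≤ f (k + q) - f k + a` (`Real.log_div`). By `tel` with `M = L`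
the sum of `f (k+q) - f k` over `S` is at most `q L`, and by `cnt` with `u = 8 m`, `v = 2 (Lam + 1)` (`u v ≥ 1`) the cardinality of `S` is at most
`n + 1 + log (8 m * (2 (Lam + 1)))`. (`a ≥ 0`.) -/
def GsumProp : Prop :=
  ∀ (X : Type) [Fintype X] [DecidableEq X] [Nonempty X] (D : X → X → ℝ) (P : Prm) (s2 : ℕ),
    PM D → P.OK (Fintype.card X) → 1 ≤ 4 ^ s2 * P.dl → ∀ (d : ℝ) (S : Finset ℤ),
    (∀ k ∈ S, (4 : ℝ) ^ k ≤ 8 * (Fintype.card X : ℝ) * d ∧ d ≤ 2 * (P.Lam + 1) * 4 ^ (k + P.n)) → ∀ y,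
    ∑ k ∈ S, Gk P D (4 ^ k) y ≤ (P.js + 1 + s2) * P.L +
      P.a * (P.n + 1 + Real.log (8 * (Fintype.card X : ℝ) * (2 * (P.Lam + 1))))

/-- (Lev) One field number `i` of all the blocks. Uses: NoiseProp (first part: `0 < mm P c i`), PmProp, GsumProp. Proof. Put `d = D x o`. The block with bottom level `c` has the field `i` at the
level `k = c + i` (`rrc c i = 4^k`), with `mm P c i / rrc c i ≤ b` where `b = K beta` for `i = 0` and `b = 1` for `i ≥ 1` (`mm` is `min 1 (..) * rrc`). By PmProp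
the term is zero if `d ≤ 4^k / (8 m)`, and also if `d > 2 (Lam + 1) 4^(c+n)` (the indicator); otherwise it is at most `kap b d (Gk (4^k) x + Gk (4^k) o)`, and `4^k ≤ 8 m d`,
`d ≤ 2 (Lam+1) 4^(c+n) ≤ 2 (Lam+1) 4^(k+n)`. So apply GsumProp to the set `S' = {c + i : c in S active}` (`Finset.sum_image` or `Finset.map`, `c ↦ c + i` is injective) at `x` and at `o`
and add. (`kap b d ≥ 0`; if no level is active the left side is `0` and the right side is `≥ 0`: take `S' = ∅` in GsumProp.) -/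
def LevProp : Prop :=
  ∀ (X : Type) [Fintype X] [DecidableEq X] [Nonempty X] (D : X → X → ℝ) (P : Prm) (s2 : ℕ),
    PM D → P.OK (Fintype.card X) → 1 ≤ 4 ^ s2 * P.dl → ∀ (x o : X) (S : Finset ℤ) (i : ℕ),
    ∑ c ∈ S, ind (D x o ≤ 2 * (P.Lam + 1) * rrc c P.n) * dpl P D (rrc c i) (mm P c i) x o ≤
      P.kap * (if i = 0 then P.K * P.beta else 1) * D x o * (2 * ((P.js + 1 + s2) * P.L +
      P.a * (P.n + 1 + Real.log (8 * (Fintype.card X : ℝ) * (2 * (P.Lam + 1))))))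

/-- (Wsum) Sum of the metrics over all the blocks. Uses: LevProp. Proof. `W = ∑_(i ≤ n) dp i`; exchange the sums and use LevProp for every `i ≤ n`: the sum is at most
`kap (K beta + n) d (2 G)`, `G = (js + 1 + s2) L + a (n + 1 + log (8 m 2 (Lam + 1)))`, `d = D x o ≥ 0`. Let `Q = 1 + log L ≥ 1`, `L ≥ 3`. `K beta + n ≤ (C0 + 1) n` (`beta ≤ n`, `K ≤ C0`),
`kap ≤ C0 Q`; `js + 1 + s2 ≤ 3 C0 Q` (`1 ≤ C0 Q`); `n ≤ C0 sqrt L ≤ C0 L`; `log (16 m (Lam + 1)) = log 16 + log m + log (8 L + 1) ≤ 3 + L + 8 L ≤ 10 L` (`log y ≤ y - 1`, `log m = L - 3`); so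
`n + 1 + log .. ≤ 12 C0 L` and `G ≤ 3 C0 Q L + C0 Q 12 C0 L ≤ 15 C0^2 Q L`. Total: `C0 Q (C0 + 1) n d 30 C0^2 Q L ≤ 60 C0^4 n L Q^2 d`. -/
def WsumProp : Prop :=
  ∀ (X : Type) [Fintype X] [DecidableEq X] [Nonempty X] (D : X → X → ℝ) (P : Prm) (K' C0 : ℝ) (s2 N : ℕ),
    PM D → P.OK (Fintype.card X) → 1 ≤ K' → 1 ≤ C0 → P.Bd K' C0 s2 → ∀ (x o : X) (S : Finset ℤ),
    ∑ c ∈ S, ind (D x o ≤ 2 * (P.Lam + 1) * rrc c P.n) * (blk P D N c).W x o ≤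
      60 * C0 ^ 4 * P.n * P.L * (1 + Real.log P.L) ^ 2 * D x o

/-- (Bsum) The factor of the cost of a block. Uses: nothing. Proof. `rrc c (i+1) / mm i`: for `i = 0` it is `4 / (K beta) ≤ 4`; for `1 ≤ i < n`, with `b_i = min 1 (beta/(8 Lam) 2^(n-i))`,
it is `4 / b_i ≤ 4 + 4 (8 Lam / beta) (1/2)^(n-i)` (`1 / min 1 y ≤ 1 + 1 / y` for `y > 0`), the sum over `i` is at most `4 n + 32 Lam / beta` (`∑_(j ≥ 1) (1/2)^j ≤ 1`). `rrc c n / mm n = 1 / b_n ≤ 1 +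
8 Lam / beta` (`n ≥ 1`). `(2 + log m) rrc c n / R = (2 + log m) / beta ≤ L / beta`. With `beta = sqrt L`, `Lam = 8 L`: `Lam / beta = 8 sqrt L`, `L / beta = sqrt L`, `1 ≤ sqrt L`, `n ≤ C0 sqrt L`: the
total is at most `4 + 4 C0 sqrt L + 256 sqrt L + 1 + 64 sqrt L + sqrt L ≤ (4 C0 + 326) sqrt L ≤ 400 C0 sqrt L`. -/
def BsumProp : Prop :=
  ∀ (P : Prm) (m : ℕ) (K' C0 : ℝ) (s2 : ℕ) (c : ℤ), P.OK m → 1 ≤ K' → 1 ≤ C0 → P.Bd K' C0 s2 →
    (∑ i ∈ range P.n, rrc c (i + 1) / mm P c i) + rrc c P.n / mm P c P.n +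
      (2 + Real.log m) * rrc c P.n / (P.beta * rrc c P.n) ≤ 400 * C0 * Real.sqrt P.L

/-- (Cprod) Arrivals are paid. Uses: nothing. Proof. `R' = beta 4^(c-n+n) = beta 4^c`; `mm P c 0 = K beta 4^c`: `R' / mm 0 = 1 / K ≤ 1 / (2 K')`. `R' / R = 4^(-n)` and `(2 + log m)(Lam + 1) ≤ L (8 L + 1) ≤
64 L^2 = Lam^2` (`2 + log m = L - 1`), so the second term is at most `Lam^2 / 4^n ≤ 1 / (2 K')`. -/
def CprodProp : Prop :=
  ∀ (P : Prm) (m : ℕ) (K' C0 : ℝ) (s2 : ℕ) (c : ℤ), P.OK m → 1 ≤ K' → 1 ≤ C0 → P.Bd K' C0 s2 →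
    P.beta * rrc (c - P.n) P.n * (1 / mm P c 0 + (2 + Real.log m) * (P.Lam + 1) / (P.beta * rrc c P.n)) ≤
      1 / K'

/-- (Geom) The geometric part as it is used by the algorithm (interface of SPEC E). Uses: ParProp, BlkProp, NoiseProp (`0 < mm`), PmProp, WsumProp, BsumProp, CprodProp. Proof. Take the `Prm` of ParProp for `K'`, `m = card X`, `C1` its constant,
`C0 = 400 C1 ^ 4 ≥ 60 C1^4, 400 C1, C1`; `bk N c = blk P D N c`. (ok) is BlkProp, (cost) BsumProp, (pay) CprodProp, (sum) WsumProp (`0 ≤ D`, `0 ≤ log L`: the constants can be increased), the rest is by definition; (zero): if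
`D x o = 0` then `dpl = 0` by PmProp (`0 ≤ r / (8 m)`). -/
def GeomProp : Prop :=
  ∀ K' : ℝ, 1 ≤ K' → ∃ C0 : ℝ, 1 ≤ C0 ∧ ∀ (X : Type) [Fintype X] [DecidableEq X] [Nonempty X] (D : X → X → ℝ), PM D →
    ∃ (n : ℕ) (L Lam beta K : ℝ) (bk : ℕ → ℤ → Blk X),
      L = Real.log (Fintype.card X) + 3 ∧ Lam = 8 * L ∧ beta = Real.sqrt L ∧ 1 ≤ K ∧ 1 ≤ n ∧ (n : ℝ) ≤ C0 * Real.sqrt L ∧
      (∀ N c, (bk N c).h = n) ∧ (∀ N c, (bk N c).R = beta * 4 ^ (c + (n : ℤ))) ∧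
      (∀ N c i, (bk N c).rr i = 4 ^ (c + (i : ℤ))) ∧ (∀ N c i, (bk N c).sr i = 4 ^ (c + (i : ℤ)) * Lam) ∧
      (∀ N c, (bk N c).mu 0 = K * beta * 4 ^ c) ∧ (∀ N N' c, (bk N c).dp = (bk N' c).dp ∧ (bk N c).mu = (bk N' c).mu) ∧
      (∀ (N : ℕ) c (cl : X → List X), Lam ^ 2 ≤ N → (∀ x y, cl x = cl y → D x y ≤ (Lam + 1) * 4 ^ (c + (n : ℤ))) →
        (bk N c).OK Lam N D cl) ∧
      (∀ N c, (∑ i ∈ range n, (bk N c).rr (i + 1) / (bk N c).mu i) + (bk N c).rr n / (bk N c).mu n +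
        (2 + Real.log (Fintype.card X)) * (bk N c).rr n / (bk N c).R ≤ C0 * Real.sqrt L) ∧
      (∀ N c, (bk N (c - n)).R * (1 / (bk N c).mu 0 + (2 + Real.log (Fintype.card X)) * (Lam + 1) / (bk N c).R) ≤ 1 / K') ∧
      (∀ N (x o : X) (S : Finset ℤ), ∑ c ∈ S, ind (D x o ≤ 2 * (Lam + 1) * 4 ^ (c + (n : ℤ))) * (bk N c).W x o ≤
        C0 * n * L * (1 + Real.log L) ^ 2 * D x o) ∧
      (∀ N c i x o, D x o = 0 → (bk N c).dp i x o = 0)

end Pool.Agent.AM.G
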