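import Pool.Agent.Lib.AM.C.AllC
import Pool.Agent.Lib.AM.G.AllE
import Pool.Agent.Lib.AM.D.Rel
import Pool.Agent.Lib.AM.D.Rec
import Pool.Agent.Lib.AM.D.Pick
import Pool.Agent.Lib.AM.D.Cmp
import Pool.Agent.Lib.AM.D.Brg
import Pool.Agent.Lib.AM.D.Top

set_option linter.all false

/-!
# AM: all metrics, all capacities, ratio `O((log m)^(3/2) (log log m)^2)`. Assembly.
-/

namespace Pool.Agent.AM

/-- The theorem for the copies of the sites, every metric, every capacities. -/
theorem allP : AllProp :=
  topP (brgP G.all_geom)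
    (cmpP (recP allC_BlockCost allC_BlockPot allC_BlockInv allC_Law relP) pickP)

end Pool.Agent.AM
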