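import Pool.Agent.Lib.AM.Iface

set_option linter.all false

/-!
# AM, part A, general lemmas (weights, owners, optimum, expectations)

Write `θ = Lam / N`, `q = qN Lam N = 1 - θ`. Existing proofs in `Pool.Agent.MP_a4c1f4_lc`:
`abel : AbelProp`, `field : FieldProp`, `selP : SelProp`, `optBasic : OptBasicProp`,
`augment : AugmentProp`, `augOpt`, `usedP`, `mono`, `potP`, `stepP` (files Abel, Field, Sel, OptBasic,
Augment, AugOpt, Used, Mono, Step of `Pool/Agent/Lib/MP_a4c1f4_lc`). Every file proves one of the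
statements below, the statements it uses are hypotheses.
-/

namespace Pool.Agent.AM

open Finset Pool.Agent.MP_a4c1f4_lc

/-- The excess as a function of the value `j`; `v = ln |B(z, 2 nr)|`. (`B.ex Lam N i z j` is
`exj Lam N (B.vb i z) j` by definition.) -/
noncomputable def exj (Lam : ℝ) (N : ℕ) (v : ℝ) (j : ℕ) : ℝ :=
  max 0 (Lam * (j : ℝ) / (N : ℝ) - v - 2)

/-! ## Weights -/

/-- File A/Tw.lean. `N ≥ Lam^2 ≥ 576`, so `θ = Lam/N ≤ 1/Lam ≤ 1/24`;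
`q^N = (1 - Lam/N)^N ≤ exp (-Lam)` (`1 - t ≤ exp (-t)`), `exp (-24) ≤ 1/1000` (`exp 1 > 2.7`), so
`1 - q^N ≥ 0.999` and `tw j ≤ θ / 0.999`; the sum is a geometric sum. -/
def TwProp : Prop :=
  ∀ (Lam : ℝ) (N : ℕ), 24 ≤ Lam → Lam ^ 2 ≤ (N : ℝ) →
    0 < Lam / (N : ℝ) ∧ Lam / (N : ℝ) ≤ 1 / 24 ∧ 0 < qN Lam N ∧ qN Lam N ≤ 1 ∧
    qN Lam N ^ N ≤ Real.exp (-Lam) ∧ Real.exp (-Lam) ≤ 1 / 1000 ∧
    (∀ j, 0 ≤ tw Lam N j) ∧ (∀ j, tw Lam N j ≤ 1.01 * (Lam / (N : ℝ))) ∧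
    (∀ j j', j ≤ j' → tw Lam N j' ≤ tw Lam N j) ∧
    ∑ j ∈ range N, tw Lam N j = 1

/-- File A/TeA.lean, from `TwProp`. Let `s = v + 2`. (2) `q^j ≤ exp (-θ j)` and
`exp (-θ j) (θ j - s) ≤ exp (-s-1)` (`t ≤ exp (t - 1)` with `t = θ j - s`), so
`tw j * ex j ≤ 1.01 θ exp (-3) exp (-v)` and `1.01 exp (-3) ≤ 0.06`.
(1) Telescoping: let `b j = q^j (θ j - s + 1)`. Then
`b j - b (j+1) = q^j ((θ j - s + 1)(1 - q) - q θ) = θ q^j (θ j - s + 1 - q) = θ q^j (θ j - s + θ)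
 ≥ θ q^j (θ j - s)`. Let `j0` be the least `j` with `θ j ≥ s` (if there is none below `N` all
terms vanish); for `j ≥ j0` the sum of `θ q^j (θ j - s)` over `Ico j0 N` is at most `b j0 - b N`,
`b N ≥ 0`, and `b j0 ≤ q^j0 (1 + θ)` since `θ j0 - s ≤ θ` (minimality; for `j0 = 0` impossible as
`s > 0`). So the sum is at most `(1 + θ) q^j0 / (1 - q^N) ≤ (25/24) exp (-s) / 0.999`
(`q^j0 ≤ exp (-θ j0) ≤ exp (-s)`), and `(25/24)/0.999 * exp (-2) ≤ 0.1412 ≤ 0.15`. -/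
def TexAProp : Prop :=
  ∀ (Lam : ℝ) (N : ℕ) (v : ℝ), 24 ≤ Lam → Lam ^ 2 ≤ (N : ℝ) → 0 ≤ v →
    ∑ j ∈ range N, tw Lam N j * exj Lam N v j ≤ 0.15 * Real.exp (-v) ∧
    ∀ j, tw Lam N j * exj Lam N v j ≤ 0.06 * (Lam / (N : ℝ)) * Real.exp (-v)

/-- File A/TeB.lean, from `TwProp`. `tw j = tw i q^(j-i)` and `ex j ≤ a + θ (j - i)`, `a = ex i`,
for `j ≥ i`. Let `b k = q^k (a + θ k + 1) / θ`; then
`b (k-1) - b k = (q^(k-1)/θ) ((a + θ (k-1) + 1) - q (a + θ k + 1)) = q^(k-1) (a + θ k)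
 ≥ q^k (a + θ k)` for `k ≥ 1`. So `∑_{k=1}^n q^k (a + θ k) ≤ b 0 - b n ≤ (a + 1)/θ`. -/
def TexBProp : Prop :=
  ∀ (Lam : ℝ) (N : ℕ) (v : ℝ), 24 ≤ Lam → Lam ^ 2 ≤ (N : ℝ) → ∀ i,
    ∑ j ∈ Ico (i + 1) N, tw Lam N j * exj Lam N v j ≤
      tw Lam N i * (exj Lam N v i + 1) * ((N : ℝ) / Lam)

/-- File A/TeC.lean, from `TwProp`. (1) With `a = ⌊N/Lam⌋₊ < N` the sum is
`(1 - q^(a+1)) / (1 - q^N) ≥ 1 - q^(a+1) ≥ 1 - exp (-θ (a+1)) ≥ 1 - exp (-1) ≥ 5/8`.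
(2) `∑_{Ico j N} tw = (q^j - q^N)/(1 - q^N)` and `tw j = θ q^j/(1 - q^N)`, so
`tw j = θ (∑ + q^N/(1 - q^N))`, `q^N/(1 - q^N) ≤ 2 exp (-Lam)`. (3)-(6) clear. -/
def TexCProp : Prop :=
  ∀ (Lam : ℝ) (N : ℕ) (v : ℝ), 24 ≤ Lam → Lam ^ 2 ≤ (N : ℝ) → 0 ≤ v →
    5 / 8 ≤ ∑ j ∈ range N, tw Lam N j * ind (Lam * (j : ℝ) / (N : ℝ) ≤ 1) ∧
    (∀ j : ℕ, j ≤ N → tw Lam N j ≤
      Lam / (N : ℝ) * (∑ i ∈ Ico j N, tw Lam N i + 2 * Real.exp (-Lam))) ∧
    (∀ j : ℕ, 0 ≤ exj Lam N v j) ∧ (∀ j : ℕ, j ≤ N → exj Lam N v j ≤ Lam) ∧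
    (∀ j : ℕ, Lam * (j : ℝ) / (N : ℝ) ≤ 2 → exj Lam N v j = 0) ∧
    (∀ j j' : ℕ, j ≤ j' → exj Lam N v j ≤ exj Lam N v j' ∧
      exj Lam N v j' ≤ exj Lam N v j + Lam / (N : ℝ) * ((j' : ℝ) - j))

/-- File A/Tab.lean, from `AbelProp` (with `L = N`, `θ = a`, `q = qN Lam N`, `η = mu Lam / N`) and
`TwProp`: divide by `1 - q^N`; `(1 - q)/η = 1/mu`, `q^N/(1 - q^N) ≤ 2 exp (-Lam)`,
`1 / (1 - q^N) ≤ 2`. -/
def TabProp : Prop :=
  ∀ (Lam mu : ℝ) (N a : ℕ) (B : ℝ) (U M far : ℕ → ℝ), 24 ≤ Lam → Lam ^ 2 ≤ (N : ℝ) → 0 < mu →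
    0 ≤ B → a ≤ N →
    (∀ j, a ≤ j → j ≤ N → 0 ≤ U j ∧ 0 ≤ M j ∧ M j ≤ mu * Lam / (N : ℝ) * B) →
    (∀ j, 0 ≤ far j ∧ far j ≤ 1) →
    (∀ j, a ≤ j → j < N → mu * Lam / (N : ℝ) * far (j + 1) ≤ U (j + 1) + M (j + 1) - (U j + M j)) →
    ∑ j ∈ Ico a N, tw Lam N j * far j ≤
      1 / mu * (∑ j ∈ Ico a N, tw Lam N j * U j + 2 * Real.exp (-Lam) * U N) +
        2 * (Lam / (N : ℝ)) * (1 + B)

/-! ## Owners -/

/-- File A/FoA.lean, from `SelProp`. (`Own dp eta g x z` is `Sel dp eta 1 id g x z`: for all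
`x'`, `eta g x' - dp x x' < eta g z - dp x z`, or equality and `rk x' ≤ rk z`.)
(1) existence and uniqueness. (2) `SelProp` (3), iterated. (5): from `own (update g z j) x = z`:
`eta g z' - dp x z' ≤ eta j - dp x z` for `z' ≠ z`, so
`eta g z' - dp o z' ≤ eta j - dp x z + dp x o ≤ eta j - dp o z + 2 dp x o < eta j' - dp o z`. -/
def FoAProp : Prop :=
  ∀ (X : Type) [Fintype X] [DecidableEq X] [Nonempty X] (dp : X → X → ℝ) (eta : ℝ) (g : X → ℕ),
    PM dp → 0 < eta →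
    (∀ x z, Own dp eta g x z ↔ own dp eta g x = z) ∧
    (∀ x z (j j' : ℕ), j ≤ j' → own dp eta (Function.update g z j) x = z →
      own dp eta (Function.update g z j') x = z) ∧
    (∀ x o z (j j' : ℕ), own dp eta (Function.update g z j) x = z →
      2 * dp x o < eta * ((j' : ℝ) - j) → own dp eta (Function.update g z j') o = z)

/-- File A/FoB.lean, from `FieldProp`, `SelProp`, `FoAProp`. `f j` = value of the field at `x` when
`g z = j`. First three claims: `FieldProp` (3). Own at `j`: increment exactly `eta` (`SelProp` (3)).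
Not own at `j + 1`: the owner `z' ≠ z` at `j+1` has the same value at `j`, so
`f (j+1) = eta g z' - dp x z' ≤ f j`. Last line: `FieldProp` (1), (2), and each term of the supremum is
at most `eta n` (`dp ≥ 0`). -/
def FoBProp : Prop :=
  ∀ (X : Type) [Fintype X] [DecidableEq X] [Nonempty X] (dp : X → X → ℝ) (eta : ℝ) (g : X → ℕ),
    PM dp → 0 < eta →
    (∀ x z (j : ℕ),
      0 ≤ fd dp eta (Function.update g z (j + 1)) x - fd dp eta (Function.update g z j) x ∧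
      fd dp eta (Function.update g z (j + 1)) x - fd dp eta (Function.update g z j) x ≤ eta ∧
      fd dp eta (Function.update g z (j + 1)) x - fd dp eta (Function.update g z j) x ≤
        fd dp eta (Function.update g z (j + 2)) x - fd dp eta (Function.update g z (j + 1)) x ∧
      (own dp eta (Function.update g z j) x = z →
        fd dp eta (Function.update g z (j + 1)) x - fd dp eta (Function.update g z j) x = eta) ∧
      (own dp eta (Function.update g z (j + 1)) x ≠ z →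
        fd dp eta (Function.update g z (j + 1)) x - fd dp eta (Function.update g z j) x = 0)) ∧
    (∀ x y, |fd dp eta g x - fd dp eta g y| ≤ dp x y) ∧ (∀ x, 0 ≤ fd dp eta g x) ∧
    (∀ n : ℕ, (∀ z, g z ≤ n) → ∀ x, fd dp eta g x ≤ eta * n)

/-! ## Optimum -/

/-- File A/Up.lean, from `UsedProp`, `PotProp` (mirror of `StepProp`, compare `Step.lean`). Write
`v j = optv (c j)`, `F j = used (c j) l`, `y j = srv (c j) x l`, `M j = ∑ s ∈ F j, δ j s`.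
`PotProp` for `c j`, the list `x :: l`, the set `insert (y j) (F j)`, `φ = δ j`:
`v (j+1) (x::l) ≤ v j (x::l) + δ j x + ∑_l δ j - M j - δ j (y j)`. `PotProp` for `c (j+1)`, `l`, `F (j+1)`,
`φ = - δ j`: `v j l ≤ v (j+1) l - ∑_l δ j + ∑ s ∈ F (j+1), δ j s`, and
`∑ s ∈ F (j+1), δ j s ≤ M (j+1)`. Add: the first claim. The second inequality alone, with
`∑_{s ∈ F (j+1)} δ j s ≤ M (j+1)`, is the second claim (subtract `M j` on both sides). -/
def UpProp : Prop :=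
  ∀ (T : Type) [Fintype T] [DecidableEq T] [Nonempty T] (c : ℕ → T → T → ℝ) (δ : ℕ → T → ℝ)
    (x : T) (l : List T) (j : ℕ),
    (∀ r s, c (j + 1) r s = c j r s + δ j r - δ j s) → (∀ s, δ j s ≤ δ (j + 1) s) →
    (l.length + 1 ≤ Fintype.card T →
      optv (c (j + 1)) (x :: l) - optv (c (j + 1)) l - ∑ s ∈ used (c (j + 1)) l, δ (j + 1) s ≤
        optv (c j) (x :: l) - optv (c j) l - ∑ s ∈ used (c j) l, δ j s +
          δ j x - δ j (srv (c j) x l)) ∧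
    (l.length ≤ Fintype.card T →
      (l.map (δ j)).sum - ∑ s ∈ used (c j) l, δ j s ≤
        optv (c (j + 1)) l - optv (c j) l + ∑ s ∈ used (c (j + 1)) l, δ (j + 1) s -
          ∑ s ∈ used (c j) l, δ j s)

/-! ## Expectations -/

/-- File A/Eb.lean, from `TwProp`. All configurations `extG g` have values `< N` (`N ≥ 1`). The weight
of `g` is `≥ 0`, and `0` unless `Cov i` holds for every `i ≤ h` with `s i = true`. Total mass `1`: by
`Finset.prod_univ_sum` the mass is the product over `i` of `∑ g : X → Fin N, lws (s i) i g`, which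
is `∏_z ∑_j tw j = 1` for `s i = false` and `Z/Z = 1` for `s i = true` (`Z ≥ 1/2`).
(5): the factor of the field `i` of the weight for `s` is at most twice the one for `free s i`
(`ind ≤ 1`, `1/Z ≤ 2`; if `s i = false` they are equal), the other factors are equal. -/
def EbProp : Prop :=
  ∀ (X : Type) [Fintype X] [DecidableEq X] [Nonempty X] (B : Blk X) (Lam : ℝ) (N : ℕ)
    (D : X → X → ℝ) (cl : X → List X), B.OK Lam N D cl → ∀ s : ℕ → Bool,
    (∀ f f' : (ℕ → X → ℕ) → ℝ,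
      (∀ G, (∀ i z, G i z < N) → (∀ i, i ≤ B.h → s i = true → B.Cov i (G i)) → f G ≤ f' G) →
      B.E Lam N s f ≤ B.E Lam N s f') ∧
    (∀ a : ℝ, B.E Lam N s (fun _ => a) = a) ∧
    (∀ f f' : (ℕ → X → ℕ) → ℝ,
      B.E Lam N s (fun G => f G + f' G) = B.E Lam N s f + B.E Lam N s f') ∧
    (∀ (a : ℝ) (f : (ℕ → X → ℕ) → ℝ), B.E Lam N s (fun G => a * f G) = a * B.E Lam N s f) ∧
    (∀ f : (ℕ → X → ℕ) → ℝ, (∀ G, (∀ i z, G i z < N) → 0 ≤ f G) → ∀ i, i ≤ B.h →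
      B.E Lam N s f ≤ 2 * B.E Lam N (free s i) f)

/-- File A/Er.lean, from `TwProp`. Resampling one source of a field with the product law. First a general
lemma for a finite product of weights `w : ι → β → ℝ` with `∑ b, w p0 b = 1` (see `exgP`,
`resample_aux` in `Pool/Agent/Lib/MP_a4c1f4_lc/Dbl/Exg.lean`). Here the sum over
`g : Fin (h+1) → X → Fin N`: write the weight as (weight of the other fields) times
`∏_z tw (g i z)`; resample the coordinate `z` of `g i`: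
`upd (extG g) i z j = extG (update g i (update (g i) z j))`; the sum over `range N` is the sum over
`Fin N`. -/
def ErProp : Prop :=
  ∀ (X : Type) [Fintype X] [DecidableEq X] [Nonempty X] (B : Blk X) (Lam : ℝ) (N : ℕ),
    24 ≤ Lam → Lam ^ 2 ≤ (N : ℝ) → ∀ (s : ℕ → Bool) (i : ℕ), i ≤ B.h → s i = false → ∀ (z : X)
    (f : (ℕ → X → ℕ) → ℝ),
    B.E Lam N s f = B.E Lam N s (fun G => ∑ j ∈ range N, tw Lam N j * f (upd G i z j))

end Pool.Agent.AM
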