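import Pool.Agent.Lib.AM.Defs2
import Pool.Agent.Lib.AM.SpecA

set_option linter.all false

/-!
# AM, part C: one block of the algorithm ((3), (8), (9) of note 5251)

Existing proofs in `Pool.Agent.MP_a4c1f4_lc`: `optBasic : OptBasicProp`, `usedP : UsedProp`,
`mono : MonoProp` (files OptBasic, Used, Mono of `Pool/Agent/Lib/MP_a4c1f4_lc`; the algebra
`cst D β r s = D r s + β r - β s`), `topP : Dbl.TopProp`, `delP : TopProp → DelProp` (Dbl/Top, Dbl/Del).
Every file `C/<Name>.lean` proves one statement, the statements it uses are hypotheses.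
CONVENTION: the cluster of the request `z` is `cl (sg z)`; for a list `l` all of whose requests
stand in `C` one has `lC sg cl l C = l` (`List.filter_eq_self`).
-/

namespace Pool.Agent.AM

open Finset Pool.Agent.MP_a4c1f4_lc Pool.Agent.MP_a4c1f4_lc.Dbl

section
variable {X K : Type} [Fintype X] [DecidableEq X] [Nonempty X] [Fintype K] [DecidableEq K]
  [Nonempty K]
variable (B : Blk X) (sg : K → X) (Lam : ℝ) (N : ℕ) (cl : X → List X) (G : ℕ → X → ℕ)
  (q : ℕ → Equiv.Perm X)

/-- The server given to `z` by the perturbed optimum of its cluster. -/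
noncomputable def Blk.svC (z : K) (l : List K) : K ⊕ K :=
  sv (B.c sg Lam N cl G) z (lC sg cl l (cl (sg z)))

/-- The request is dropped. -/
def Blk.Dr (z : K) (l : List K) : Prop := ∃ d, B.svC sg Lam N cl G z l = Sum.inr d

/-- The request is hit: its new copy is at another site than the copy of the perturbed optimum. -/
def Blk.Hit (z : K) (l : List K) : Prop :=
  ∃ y, B.svC sg Lam N cl G z l = Sum.inl y ∧ sg (B.nv sg Lam N cl G q z l) ≠ sg y

open Classical in
/-- The tokens standing in the cluster `C`. -/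
noncomputable def tC (sg : K → X) (cl : X → List X) (tl : List (K × Option K)) (C : List X) :
    List (K × Option K) := tl.filter (fun t => cl (sg t.1) = C)

/-- Reference cost of a list of tokens. -/
noncomputable def rcs (sg : K → X) (W : X → X → ℝ) (R : ℝ) (tl : List (K × Option K)) : ℝ :=
  (tl.map (rc sg W R)).sum

end

/-! ## Costs and the perturbed optimum of one cluster (deterministic) -/

/-- File C/Co.lean, from `FoBProp`. `eta i = mu i * Lam / N > 0` (`N ≥ Lam^2 > 0`). `FoBProp`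
(applied with `g = G i`): each field is `1`-Lipschitz for `dp i`, `≥ 0`, and
`≤ eta i * N = mu i * Lam`; sum over `i ≤ h`; `B.OK.noise` gives `pot ≤ R/2`. The costs: cases in the
definitions of `B.c`, `cst`, `B.dist`, `B.potT`. In the same cluster
`c = 2 W + pot x - pot v`, between `W` and `3 W`; in different clusters `4 R + pot x - pot v`;
to a dummy `R + pot x`; from a dummy `4 R - pot v` or `4 R`. -/
def CoProp : Prop :=
  ∀ (X K : Type) [Fintype X] [DecidableEq X] [Nonempty X] [Fintype K] [DecidableEq K]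
    [Nonempty K] (B : Blk X) (sg : K → X) (Lam : ℝ) (N : ℕ)
    (D : X → X → ℝ) (cl : X → List X) (G : ℕ → X → ℕ),
    B.OK Lam N D cl → (∀ i z, G i z ≤ N) →
    (∀ x y, 0 ≤ B.W x y) ∧ (∀ x, 0 ≤ B.pot Lam N G x ∧ B.pot Lam N G x ≤ B.R / 2) ∧
    (∀ x v : K, cl (sg x) = cl (sg v) →
      B.W (sg x) (sg v) ≤ B.c sg Lam N cl G (Sum.inl x) (Sum.inl v) ∧
      B.c sg Lam N cl G (Sum.inl x) (Sum.inl v) ≤ 3 * B.W (sg x) (sg v)) ∧
    (∀ x v : K, cl (sg x) ≠ cl (sg v) →
      3 * B.R ≤ B.c sg Lam N cl G (Sum.inl x) (Sum.inl v)) ∧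
    (∀ x d : K, B.R ≤ B.c sg Lam N cl G (Sum.inl x) (Sum.inr d) ∧
      B.c sg Lam N cl G (Sum.inl x) (Sum.inr d) ≤ 3 / 2 * B.R) ∧
    (∀ r s, 0 ≤ B.c sg Lam N cl G r s)

/-- File C/Ur.lean, from `CoProp`, `OptBasicProp`, `UsedProp`. `l` has all requests in the cluster `C`.
Let `c = B.c ..`, `F = used c (l.map inl)`; `card (K ⊕ K) = 2 card K`. By `UsedProp` there is `τ` with
`Adm (l.map inl) τ`, `τ.toFinset = F`, `acost c (l.map inl) τ = optv c (l.map inl)`.
(1) Suppose `inl v ∈ F` with `cl (sg v) ≠ C`. The list `τ` has `≤ card K` entries without repetition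
and one of them is `inl v`, so some dummy `inr d` is not in `τ` (otherwise `insert (inl v)` (all the
dummies) is a subset of `τ.toFinset` with `card K + 1` elements). Let `f = Equiv.swap (inl v) (inr d)`,
`τ' = τ.map f`, still without repetition, same length. For every pair `(inl x, t)` of
`zip (l.map inl) τ` one has `c (inl x) (f t) ≤ c (inl x) t`, strictly (`3/2 R < 3 R`) if `t = inl v`,
which occurs; so `acost c _ τ' < optv c _`, against `OptBasicProp` (induction on the two lists).
(2), (3) `usedR.card` = number of the entries `inl _` of `τ` (no repetition), the other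
`l.length - usedR.card` entries are dummies, each pair with a dummy costs at least `R`, the others
at least `0` (induction on the two lists: `acost ≥ R * (number of the entries inr _)`).
(4) `used c ((z :: l).map inl) = insert (srv ..) F` by definition, `srv ∉ F` by `UsedProp`; if
`sv = inl y` then `y ∉ usedR`, `usedR (z :: l) = insert y (usedR l)`, and `cl (sg y) = C` by (1) for
`z :: l`. (5) if `sv = inr d` then `usedR (z :: l) = usedR l`. -/
def UrProp : Prop :=
  ∀ (X K : Type) [Fintype X] [DecidableEq X] [Nonempty X] [Fintype K] [DecidableEq K]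
    [Nonempty K] (B : Blk X) (sg : K → X) (Lam : ℝ) (N : ℕ)
    (D : X → X → ℝ) (cl : X → List X) (G : ℕ → X → ℕ) (C : List X),
    B.OK Lam N D cl → (∀ i z, G i z ≤ N) →
    (∀ l : List K, (∀ x ∈ l, cl (sg x) = C) → l.length ≤ Fintype.card K →
      (∀ v ∈ usedR (B.c sg Lam N cl G) l, cl (sg v) = C) ∧
      (usedR (B.c sg Lam N cl G) l).card ≤ l.length ∧
      B.R * ((l.length : ℝ) - (usedR (B.c sg Lam N cl G) l).card) ≤
        optv (B.c sg Lam N cl G) (l.map Sum.inl)) ∧
    (∀ (z : K) (l : List K), (∀ x ∈ z :: l, cl (sg x) = C) → l.length + 1 ≤ Fintype.card K →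
      (∀ y, sv (B.c sg Lam N cl G) z l = Sum.inl y → cl (sg y) = C ∧
        y ∉ usedR (B.c sg Lam N cl G) l ∧
        usedR (B.c sg Lam N cl G) (z :: l) = insert y (usedR (B.c sg Lam N cl G) l)) ∧
      (∀ d, sv (B.c sg Lam N cl G) z l = Sum.inr d →
        usedR (B.c sg Lam N cl G) (z :: l) = usedR (B.c sg Lam N cl G) l))

/-- File C/Ff.lean, from `TopProp`, `DelProp` (with `n = 1`). Write `E i = FF sg q A F i`. Induction on
`i` for (1): `A \ E i` is nonempty when `F.card + i < A.card`, and `tp _ _ 1` is a subset of it with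
one element (`TopProp` (1)). (2): `E' i = FF sg q A (insert y F) i`. `i = 0`: `w = y`. Step: let
`E' i = insert w (E i)`, `w ∈ A`, `w ∉ E i`, `A \ E' i = (A \ E i).erase w`. By `DelProp` for the set
`A \ E i`, `n = 1 < (A \ E i).card` (as `F.card + 1 + (i + 1) ≤ A.card`), and the element `w`: if
`w ∉ tp (A \ E i) 1` then `tp` of the erased set is the same and `E' (i+1) = insert w (E (i+1))`,
`w ∉ E (i+1)`; if `w ∈ tp` then `tp (A \ E i) 1 = {w}`, `E (i+1) = insert w (E i)` and
`E' (i+1) = insert w (E i) ∪ {w'}` with `w' = nx ..`, `w' ∈ A \ E i`, `w' ≠ w`. -/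
def FfProp : Prop :=
  ∀ (X K : Type) [Fintype X] [DecidableEq X] [Nonempty X] [Fintype K] [DecidableEq K]
    [Nonempty K] (sg : K → X) (q : ℕ → Equiv.Perm X) (A F : Finset K), F ⊆ A →
    (∀ i, F.card + i ≤ A.card →
      F ⊆ FF sg q A F i ∧ FF sg q A F i ⊆ A ∧ (FF sg q A F i).card = F.card + i) ∧
    (∀ y i, y ∈ A → y ∉ F → F.card + 1 + i ≤ A.card →
      ∃ w ∈ A, w ∉ FF sg q A F i ∧ FF sg q A (insert y F) i = insert w (FF sg q A F i)) ∧
    (∀ i, F.card + i + 1 ≤ A.card →
      ∃ w ∈ A, w ∉ FF sg q A F i ∧ FF sg q A F (i + 1) = insert w (FF sg q A F i))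

/-- File C/Nv.lean, from `UrProp`, `FfProp`. Let `C = cl (sg z)`, `L = lC sg cl l C`, so that
`lC sg cl (z :: l) C = z :: L`, and `L.length + 1 ≤ (aC sg cl C).card ≤ card K`. `US l C = usedR c L`,
a subset of `aC C` with at most `L.length` elements (`UrProp`), `dr l C = L.length - card`, so
`card US + dr = L.length` and by `FfProp` (1) `VS l C ⊆ aC C`, `card VS = L.length`. If
`sv c z L = inl y`: `US (z::l) C = insert y (US l C)`, `dr` is unchanged, `FfProp` (2) with `i = dr`.
If it is a dummy: `US` is unchanged, `dr` increases by one, `FfProp` (3). In both cases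
`VS (z::l) C = insert w (VS l C)`, `w ∈ aC C`, `w ∉ VS l C`, so the condition in the definition of
`nv` holds and `nv = w` (`Exists.choose_spec`). For `C' ≠ cl (sg z)`:
`lC sg cl (z :: l) C' = lC sg cl l C'`. -/
def NvProp : Prop :=
  ∀ (X K : Type) [Fintype X] [DecidableEq X] [Nonempty X] [Fintype K] [DecidableEq K]
    [Nonempty K] (B : Blk X) (sg : K → X) (Lam : ℝ) (N : ℕ)
    (D : X → X → ℝ) (cl : X → List X) (G : ℕ → X → ℕ) (q : ℕ → Equiv.Perm X),
    B.OK Lam N D cl → (∀ i z, G i z ≤ N) →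
    (∀ (l : List K) (C : List X), (lC sg cl l C).length ≤ (aC sg cl C).card →
      B.VS sg Lam N cl G q l C ⊆ aC sg cl C ∧
      (B.VS sg Lam N cl G q l C).card = (lC sg cl l C).length) ∧
    (∀ (z : K) (l : List K),
      (lC sg cl (z :: l) (cl (sg z))).length ≤ (aC sg cl (cl (sg z))).card →
      cl (sg (B.nv sg Lam N cl G q z l)) = cl (sg z) ∧
      B.nv sg Lam N cl G q z l ∉ B.VS sg Lam N cl G q l (cl (sg z)) ∧
      B.VS sg Lam N cl G q (z :: l) (cl (sg z)) =
        insert (B.nv sg Lam N cl G q z l) (B.VS sg Lam N cl G q l (cl (sg z)))) ∧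
    (∀ (z : K) (l : List K) (C : List X), C ≠ cl (sg z) →
      B.VS sg Lam N cl G q (z :: l) C = B.VS sg Lam N cl G q l C)

/-- File C/Nl.lean, from `NvProp`. Induction on `l` (the hypothesis is inherited by the tail, because
`lC` of the tail is a sublist): (1) `nvl l` has no repetition and an element `v` is in `nvl l` iff
`v ∈ VS l (cl (sg v))` (the new element is in the cluster of `z`, outside `VS l (cl (sg z))`; the
`VS` of the other clusters do not change; `VS [] C = ∅`, as `usedR c [] = ∅`, `dr = 0`).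
(2) For every label `C'` of the new labelling, the number of the requests with new position in `C'`
is at most the number of the copies in `C'`: `ncl (sg (np z l)) = ncl (sg (nv z l))` in both cases of
the definition of `np`, so `(lC sg ncl (npl l) C').length = (lC sg ncl (nvl l) C').length`
(induction on `l`), and `nvl l` has no repetition, so this is at most `(aC sg ncl C').card`
(`List.toFinset_card_of_nodup`). -/
def NlProp : Prop :=
  ∀ (X K : Type) [Fintype X] [DecidableEq X] [Nonempty X] [Fintype K] [DecidableEq K]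
    [Nonempty K] (B : Blk X) (sg : K → X) (Lam : ℝ) (N : ℕ)
    (D : X → X → ℝ) (cl : X → List X) (G : ℕ → X → ℕ) (q : ℕ → Equiv.Perm X),
    B.OK Lam N D cl → (∀ i z, G i z ≤ N) → ∀ l : List K,
    (∀ C, (lC sg cl l C).length ≤ (aC sg cl C).card) →
    (B.nvl sg Lam N cl G q l).Nodup ∧
    (∀ C', (lC sg (B.ncl Lam N cl G) (B.npl sg Lam N cl G q l) C').length ≤
      (aC sg (B.ncl Lam N cl G) C').card)

/-- File C/Th.lean, from `FoAProp`. `G` in the support, so `G i z ≤ N`. With `s = ow 0 x` one has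
`Own (dp 0) (eta 0) (G 0) x s` (`FoAProp`, as `eta 0 > 0`). (1) `nth = 1 + exc 0 ≥ 1` (a maximum with
`0`); `≤ 1 + Lam` because `Lam * j / N ≤ Lam` for `j ≤ N` and `vb ≥ 0`. (2) `ncl x = ncl y` gives
`ow 0 x = ow 0 y` and `cl x = cl y` (heads and tails). Then the excesses are equal, and
`D x s`, `D y s ≤ rr 0 / 2 * (1 + ex 0 s (G 0 s))` by `B.OK.rad`, so `D x y ≤ rr 0 * nth x`
(`PM D`); similarly `D x y ≤ 2 sr 0` by `B.OK.sure`. The same for every field `i ≤ h` (last two
claims). -/
def ThProp : Prop :=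
  ∀ (X : Type) [Fintype X] [DecidableEq X] [Nonempty X] (B : Blk X) (Lam : ℝ) (N : ℕ)
    (D : X → X → ℝ) (cl : X → List X) (G : ℕ → X → ℕ),
    B.OK Lam N D cl →
    (B.Supp N G → Th D (B.ncl Lam N cl G) (B.nth Lam N G) Lam (B.rr 0)) ∧
    (B.Supp N G → ∀ i ≤ B.h, ∀ x y, B.ow Lam N G i x = B.ow Lam N G i y →
      D x y ≤ B.rr i * (1 + B.exc Lam N G i x)) ∧
    ((∀ i z, G i z ≤ N) → ∀ i ≤ B.h, ∀ x y, B.ow Lam N G i x = B.ow Lam N G i y →
      D x y ≤ 2 * B.sr i) ∧
    ((∀ i z, G i z ≤ N) → ∀ i ≤ B.h, ∀ x, 0 ≤ B.exc Lam N G i x ∧ B.exc Lam N G i x ≤ Lam)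

/-- File C/Iv.lean, from `NlProp`, `ThProp`, `NvProp`: the proof of `BlockInvProp`.
`good`: a good new token has `np = t.1` and `ncl (sg t.1) = ncl (sg o)`. `nd`: the list of the
partners of the new tokens is a sublist of the old one (induction on `tl`). `fits`: `NlProp` (2) and
`map fst (ntl tl) = npl (map fst tl)` (induction on `tl`). `len`: `ntl` has the same length. `Th`:
`ThProp` (1). The last claim: if `np = z` (not relocated) then
`ncl (sg (nv z l)) = ncl (sg z)`, so the owners in field `0` agree and `ThProp` (3) gives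
`D (sg z) (sg (nv z l)) ≤ 2 sr 0`, while `D (sg z) (sg (np z l)) = D x x = 0`; if `np = nv` the two
distances are equal (and `sr 0 ≥ 0`, as `D x (owner) ≤ sr 0`). -/
def IvProp : Prop := BlockInvProp

/-! ## The reference matching and the zero case -/

/-- File C/Rf.lean, from `CoProp`, `OptBasicProp`. Induction on `tl` (all in the cluster `C`): there is
an assignment `τ` of `(tl.map fst).map inl` without repetition, of the same length, whose entries
`inl _` are the partners of the tokens (`inl o ∈ τ → o ∈ tl.filterMap snd`), with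
`acost c _ τ ≤ rcs tl`. Step: for a good token `(x, some o)` take `inl o` (`o` is not a partner of
the tail, by `Nodup`), cost `≤ 3 W` by `CoProp` (same cluster); for a bad token take a dummy `inr d`
which is not in `τ` (there is one: `τ.length < card K`), cost `≤ 3/2 R ≤ 2 R`. Then
`OptBasicProp` (1). The optimum is `≥ 0` (there is an optimal assignment, `OptBasicProp` (2), and all
the costs are `≥ 0`; or `MonoProp`). -/
def RfProp : Prop :=
  ∀ (X K : Type) [Fintype X] [DecidableEq X] [Nonempty X] [Fintype K] [DecidableEq K]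
    [Nonempty K] (B : Blk X) (sg : K → X) (Lam : ℝ) (N : ℕ)
    (D : X → X → ℝ) (cl : X → List X) (G : ℕ → X → ℕ) (tl : List (K × Option K)),
    B.OK Lam N D cl → (∀ i z, G i z ≤ N) →
    (∀ t ∈ tl, ∀ o, t.2 = some o → cl (sg t.1) = cl (sg o)) →
    (tl.filterMap Prod.snd).Nodup → tl.length ≤ Fintype.card K →
    0 ≤ optv (B.c sg Lam N cl G) ((tl.map Prod.fst).map Sum.inl) ∧
    optv (B.c sg Lam N cl G) ((tl.map Prod.fst).map Sum.inl) ≤ rcs sg B.W B.R tl

/-- File C/Ow0.lean, from `FoAProp`. If `dp i x y = 0` then `dp i x z = dp i y z` for all `z`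
(triangle inequality and symmetry), so `Own (dp i) eta g x z ↔ Own (dp i) eta g y z` for all `z`
(unfold `Own`, `Sel`), and the owners agree (`FoAProp` (1)). -/
def Ow0Prop : Prop :=
  ∀ (X : Type) [Fintype X] [DecidableEq X] [Nonempty X] (B : Blk X) (Lam : ℝ) (N : ℕ)
    (D : X → X → ℝ) (cl : X → List X) (G : ℕ → X → ℕ),
    B.OK Lam N D cl → ∀ i ≤ B.h, ∀ x y, B.dp i x y = 0 →
    B.ow Lam N G i x = B.ow Lam N G i y

/-- File C/Ze.lean, from `CoProp`, `UsedProp`, `OptBasicProp`, `Ow0Prop`: the zero case. Let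
`c = B.c ..`, `F = used c (l.map inl)`, `u = sv c z l`; `UsedProp`: `F` is optimal for `l.map inl`
with an assignment `τ`, and `insert u F` is optimal for `inl z :: l.map inl` with `σ`, `u ∉ F`. The
costs are `≥ 0` and `optv (z :: l) = 0`; also `optv l = 0` (drop the head of `σ`: `OptBasicProp` (1)
gives `optv l ≤ acost = 0`; and `optv l ≥ 0`). So every pair `(inl x, t)` in `(l, τ)` and in
`(z :: l, σ)` has cost `0` (a sum of nonnegative terms). By `CoProp` a pair of cost `0` is
`(inl x, inl v)` with `cl (sg x) = cl (sg v)` (`3 R > 0`) and `W (sg x) (sg v) ≤ 0`, so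
`dp i (sg x) (sg v) = 0` for all `i ≤ h` (all are `≥ 0`) and `owT i (inl x) = owT i t`
(`Ow0Prop`). So, as multisets, `map (owT i) (l.map inl) = map (owT i) τ` and
`map (owT i) (inl z :: l.map inl) = map (owT i) σ`; `σ` as a multiset is `u ::ₘ τ` (both have no
repetition and `σ.toFinset = insert u τ.toFinset`), hence
`owT i (inl z) ::ₘ M = owT i u ::ₘ M`, i.e. `owT i u = owT i (inl z) = some (ow i (sg z))`. -/
def ZeProp : Prop :=
  ∀ (X K : Type) [Fintype X] [DecidableEq X] [Nonempty X] [Fintype K] [DecidableEq K]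
    [Nonempty K] (B : Blk X) (sg : K → X) (Lam : ℝ) (N : ℕ)
    (D : X → X → ℝ) (cl : X → List X) (G : ℕ → X → ℕ) (z : K) (l : List K),
    B.OK Lam N D cl → (∀ i z, G i z ≤ N) → l.length + 1 ≤ Fintype.card K →
    optv (B.c sg Lam N cl G) ((z :: l).map Sum.inl) ≤ 0 →
    optv (B.c sg Lam N cl G) (l.map Sum.inl) ≤ 0 ∧
    ∀ i ≤ B.h, ¬ B.Crs sg Lam N cl G i z l

/-- File C/Bd.lean, from `RfProp`. Tokens of one cluster `C`, `P = rcs`. If all terms `rc` vanish then
`P = 0`. Otherwise some term is positive: `2 R ≥ R er` (`Fine.one`), or `3 W ≥ R er` (`Fine.W`), and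
the other terms are `≥ 0`, so `P ≥ R er` and all the conditions of `Bd` hold by `RfProp`. -/
def BdProp : Prop :=
  ∀ (X K : Type) [Fintype X] [DecidableEq X] [Nonempty X] [Fintype K] [DecidableEq K]
    [Nonempty K] (B : Blk X) (sg : K → X) (Lam : ℝ) (N : ℕ)
    (D : X → X → ℝ) (cl : X → List X) (C : List X) (tl : List (K × Option K)),
    B.OK Lam N D cl → Fine B K Lam N →
    (∀ t ∈ tl, cl (sg t.1) = C) →
    (∀ t ∈ tl, ∀ o, t.2 = some o → cl (sg t.1) = cl (sg o)) →
    (tl.filterMap Prod.snd).Nodup → tl.length ≤ Fintype.card K →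
    0 ≤ rcs sg B.W B.R tl ∧
    (rcs sg B.W B.R tl = 0 ∨ Bd B sg Lam N cl C (tl.map Prod.fst) (rcs sg B.W B.R tl))

/-- File C/Xz.lean, from `BdProp`, `RfProp`, `ZeProp`, `CrossProp`, `CrossProp0`, `ArrProp`,
`EbProp`, `UrProp`. The
inequalities of Iface for the tokens of one cluster, `P = rcs`, `l = tl.map fst`. If `Bd` holds they
are (I1), (I2), (I3). If `P = 0`: for every `G` with values `< N`, `optv c (l.map inl) = 0` by
`RfProp`; by `ZeProp` and induction on `l` no request of `l` crosses any field `i ≤ h`; so all the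
sums `psum` vanish (`arr`: if `sv = inl v` then not `Crs 0` says `ow 0 (sg v) = ow 0 (sg z)`; if
`sv = inr d` the term is `0`), and `E 0 = 0`. The last claim: `UrProp` and `RfProp`
(`usedR.card ≤ length`, `R * (length - card) ≤ optv ≤ P`); for a list `l` in `C`, `lC l C = l`, so
`dr l C = l.length - (usedR c l).card`. -/
def XzProp : Prop :=
  ∀ (X K : Type) [Fintype X] [DecidableEq X] [Nonempty X] [Fintype K] [DecidableEq K]
    [Nonempty K] (B : Blk X) (sg : K → X) (Lam : ℝ) (N : ℕ)
    (D : X → X → ℝ) (cl : X → List X) (C : List X) (tl : List (K × Option K)),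
    B.OK Lam N D cl → Fine B K Lam N →
    (∀ t ∈ tl, cl (sg t.1) = C) →
    (∀ t ∈ tl, ∀ o, t.2 = some o → cl (sg t.1) = cl (sg o)) →
    (tl.filterMap Prod.snd).Nodup → tl.length ≤ Fintype.card K →
    (∀ i k, i ≤ B.h → k ≤ B.h → i ≠ k → B.E Lam N sT (fun G => psum (fun x l =>
      ind (B.Crs sg Lam N cl G i x l) * (1 + B.exc Lam N G k (sg x))) (tl.map Prod.fst)) ≤
        200 / B.mu i * rcs sg B.W B.R tl) ∧
    (∀ i, i ≤ B.h → B.E Lam N sT (fun G => psum (fun x l =>
      ind (B.Crs sg Lam N cl G i x l)) (tl.map Prod.fst)) ≤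
        200 / B.mu i * rcs sg B.W B.R tl) ∧
    (B.E Lam N sT (fun G => psum (fun x l => B.arr sg Lam N cl G x l) (tl.map Prod.fst)) ≤
        200 / B.mu 0 * rcs sg B.W B.R tl) ∧
    (∀ G : ℕ → X → ℕ, (∀ i z, G i z ≤ N) →
      B.R * (B.dr sg Lam N cl G (tl.map Prod.fst) C : ℝ) ≤ rcs sg B.W B.R tl)

/-! ## Hits (see SpecH.lean) and drops -/

/-- Proved in SpecH / H. Expected number of the hits of one cluster. -/
def HitProp : Prop :=
  ∀ (X K : Type) [Fintype X] [DecidableEq X] [Nonempty X] [Fintype K] [DecidableEq K]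
    [Nonempty K] (B : Blk X) (sg : K → X) (Lam : ℝ) (N : ℕ)
    (D : X → X → ℝ) (cl : X → List X) (G : ℕ → X → ℕ) (l : List K) (C : List X),
    B.OK Lam N D cl → (∀ i z, G i z ≤ N) → l.length ≤ Fintype.card K →
    (∀ x ∈ l, cl (sg x) = C) → l.length ≤ (aC sg cl C).card →
    (1 / ((Fintype.card X).factorial : ℝ) ^ Fintype.card K) *
      ∑ q : Fin (Fintype.card K) → Equiv.Perm X,
        psum (fun z l => ind (B.Hit sg Lam N cl G (extP q) z l)) l ≤
      (1 + Real.log (Fintype.card X)) * B.dr sg Lam N cl G l C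

/-- File C/Dn.lean, from `UrProp`. The number of the drops is `dr`: induction on `l`. For a list in
one cluster, `lC sg cl l C = l` and `svC z l = sv c z l`. If `sv = inl y` then
`usedR (z :: l) = insert y (usedR l)`, `y ∉ usedR l`, and `dr` does not change; if it is a dummy then
`usedR` is unchanged and `dr` increases by one (`card ≤ length`). -/
def DnProp : Prop :=
  ∀ (X K : Type) [Fintype X] [DecidableEq X] [Nonempty X] [Fintype K] [DecidableEq K]
    [Nonempty K] (B : Blk X) (sg : K → X) (Lam : ℝ) (N : ℕ)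
    (D : X → X → ℝ) (cl : X → List X) (G : ℕ → X → ℕ) (l : List K) (C : List X),
    B.OK Lam N D cl → (∀ i z, G i z ≤ N) → l.length ≤ Fintype.card K →
    (∀ x ∈ l, cl (sg x) = C) →
    psum (fun z l => ind (B.Dr sg Lam N cl G z l)) l = B.dr sg Lam N cl G l C

/-! ## Sums over the clusters -/

/-- File C/Sp.lean. Splitting over the clusters (`univ.image cl` is the finite set of the labels).
(1) Induction on `L`: for `z :: L` with `C = cl (sg z)`, `lC (z :: L) C = z :: lC L C` and
`lC (z :: L) C' = lC L C'` for the other labels, so exactly one term of the right side changes, by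
`f z (lC L C)`. (2) the same for sums over tokens. (3) `map fst` and `filter` commute.
(4) if all requests of `l` are in `C` then `lC l C = l`, and `lC (lC l C) C = lC l C`. -/
def SpProp : Prop :=
  ∀ (X K : Type) [Fintype X] [DecidableEq X] [Nonempty X] [Fintype K] [DecidableEq K]
    [Nonempty K] (sg : K → X) (cl : X → List X),
    (∀ (f : K → List K → ℝ) (L : List K),
      psum (fun z l => f z (lC sg cl l (cl (sg z)))) L =
        ∑ C ∈ univ.image cl, psum f (lC sg cl L C)) ∧
    (∀ (f : K × Option K → ℝ) (tl : List (K × Option K)),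
      (tl.map f).sum = ∑ C ∈ univ.image cl, ((tC sg cl tl C).map f).sum) ∧
    (∀ (tl : List (K × Option K)) (C : List X),
      (tC sg cl tl C).map Prod.fst = lC sg cl (tl.map Prod.fst) C) ∧
    (∀ (l : List K) (C : List X), lC sg cl (lC sg cl l C) C = lC sg cl l C)

/-- File C/Sv.lean, from `SpProp`. `svC`, `Dr`, `Hit` of the request `z` after `l` depend only on
`lC l (cl (sg z))`: unfold `svC`, `nv`, `VS`, `US`, `dr`; they contain `l` only through
`lC sg cl l (cl (sg z))` and `lC sg cl (z :: l) (cl (sg z)) = z :: lC sg cl l (cl (sg z))`, and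
`lC (lC l C) C = lC l C`. Also `arr z (lC l C)`, `Crs i z (lC l C)` are written with
`svC z l`. -/
def SvProp : Prop :=
  ∀ (X K : Type) [Fintype X] [DecidableEq X] [Nonempty X] [Fintype K] [DecidableEq K]
    [Nonempty K] (B : Blk X) (sg : K → X) (Lam : ℝ) (N : ℕ)
    (cl : X → List X) (G : ℕ → X → ℕ) (q : ℕ → Equiv.Perm X) (z : K) (l : List K),
    B.svC sg Lam N cl G z (lC sg cl l (cl (sg z))) = B.svC sg Lam N cl G z l ∧
    B.nv sg Lam N cl G q z (lC sg cl l (cl (sg z))) = B.nv sg Lam N cl G q z l ∧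
    (B.Dr sg Lam N cl G z (lC sg cl l (cl (sg z))) ↔ B.Dr sg Lam N cl G z l) ∧
    (B.Hit sg Lam N cl G q z (lC sg cl l (cl (sg z))) ↔ B.Hit sg Lam N cl G q z l)

/-! ## Cost of a block -/

/-- File C/Di.lean, from `NvProp`, `ThProp`, `SvProp`. Write `C = cl (sg z)`, `u = svC z l
= sv c z (lC l C)`, `v = nv z l`, `cl (sg v) = C` (`NvProp`). All terms on the right are `≥ 0`. If
`np z l = z` the left side is `0`. Otherwise `np z l = v` and `ow 0 (sg v) ≠ ow 0 (sg z)` (the tails
of the labels agree). If `u = inr d` (drop) or `u = inl y`, `sg v ≠ sg y` (hit): `D ≤ th * rr h` by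
`Th.diam`. Otherwise `u = inl y`, `sg v = sg y`, so `Crs 0 z (lC l C)` holds. Let `k` be the largest
index `≤ h` with `Crs k z (lC l C)` (`Nat.findGreatest`). If `k = h`: `Th.diam`. If `k < h`: not
`Crs (k+1)`, i.e. `ow (k+1) (sg y) = ow (k+1) (sg z)`, and `ThProp` (2) gives
`D (sg z) (sg y) ≤ rr (k+1) (1 + exc (k+1) (sg z))`, one of the terms of the sum. -/
def DiProp : Prop :=
  ∀ (X K : Type) [Fintype X] [DecidableEq X] [Nonempty X] [Fintype K] [DecidableEq K]
    [Nonempty K] (B : Blk X) (sg : K → X) (Lam : ℝ) (N : ℕ)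
    (D : X → X → ℝ) (cl : X → List X) (th : X → ℝ) (G : ℕ → X → ℕ) (q : ℕ → Equiv.Perm X)
    (z : K) (l : List K),
    B.OK Lam N D cl → B.Supp N G → Th D cl th Lam (B.rr B.h) →
    (lC sg cl (z :: l) (cl (sg z))).length ≤ (aC sg cl (cl (sg z))).card →
    D (sg z) (sg (B.np sg Lam N cl G q z l)) ≤
      (∑ i ∈ range B.h, B.rr (i + 1) *
        (ind (B.Crs sg Lam N cl G i z (lC sg cl l (cl (sg z)))) *
          (1 + B.exc Lam N G (i + 1) (sg z)))) +
      th (sg z) * B.rr B.h * (ind (B.Crs sg Lam N cl G B.h z (lC sg cl l (cl (sg z)))) +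
        ind (B.Dr sg Lam N cl G z l) + ind (B.Hit sg Lam N cl G q z l))

/-- File C/Ee.lean, from `EbProp`. Rules for `EE` (the average over `q` has mass `1`:
`card (Fin k → Perm X) = (card X)! ^ k`). (1) monotone on the support (a configuration `extG g`
has values `< N`, `E_s` for `s = sT` charges only covered configurations; `EbProp` (1) applied to the
averages). (2), (3) linear. (4) functions not depending on `q`. -/
def EeProp : Prop :=
  ∀ (X K : Type) [Fintype X] [DecidableEq X] [Nonempty X] [Fintype K] [DecidableEq K]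
    [Nonempty K] (B : Blk X) (Lam : ℝ) (N : ℕ)
    (D : X → X → ℝ) (cl : X → List X), B.OK Lam N D cl →
    (∀ f f' : (ℕ → X → ℕ) → (ℕ → Equiv.Perm X) → ℝ,
      (∀ G q, B.Supp N G → f G q ≤ f' G q) → B.EE K Lam N f ≤ B.EE K Lam N f') ∧
    (∀ f f' : (ℕ → X → ℕ) → (ℕ → Equiv.Perm X) → ℝ,
      B.EE K Lam N (fun G q => f G q + f' G q) = B.EE K Lam N f + B.EE K Lam N f') ∧
    (∀ (a : ℝ) (f : (ℕ → X → ℕ) → (ℕ → Equiv.Perm X) → ℝ),
      B.EE K Lam N (fun G q => a * f G q) = a * B.EE K Lam N f) ∧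
    (∀ f : (ℕ → X → ℕ) → ℝ, B.EE K Lam N (fun G _ => f G) = B.E Lam N sT f) ∧
    (∀ (ι : Type) (s : Finset ι) (f : ι → (ℕ → X → ℕ) → (ℕ → Equiv.Perm X) → ℝ),
      B.EE K Lam N (fun G q => ∑ i ∈ s, f i G q) = ∑ i ∈ s, B.EE K Lam N (f i))

/-- File C/Hd.lean, from `XzProp`, `HitProp`, `DnProp`, `EeProp`, `EbProp`. Drops and hits of one
cluster: for fixed `G` with values `< N`, the average over `q` of `∑ (ind Dr + ind Hit)` is at most
`dr + (1 + ln |X|) dr = (2 + ln |X|) dr ≤ (2 + ln |X|) P / R`. -/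
def HdProp : Prop :=
  ∀ (X K : Type) [Fintype X] [DecidableEq X] [Nonempty X] [Fintype K] [DecidableEq K]
    [Nonempty K] (B : Blk X) (sg : K → X) (Lam : ℝ) (N : ℕ)
    (D : X → X → ℝ) (cl : X → List X) (C : List X) (tl : List (K × Option K)),
    B.OK Lam N D cl → Fine B K Lam N →
    (∀ t ∈ tl, cl (sg t.1) = C) →
    (∀ t ∈ tl, ∀ o, t.2 = some o → cl (sg t.1) = cl (sg o)) →
    (tl.filterMap Prod.snd).Nodup → tl.length ≤ Fintype.card K →
    tl.length ≤ (aC sg cl C).card →
    B.EE K Lam N (fun G q => psum (fun z l => ind (B.Dr sg Lam N cl G z l) +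
      ind (B.Hit sg Lam N cl G q z l)) (tl.map Prod.fst)) ≤
      (2 + Real.log (Fintype.card X)) / B.R * rcs sg B.W B.R tl

/-- File C/Cc.lean, from `XzProp`, `HdProp`, `EeProp`. Cost bound of one cluster: here `a = th` of the
cluster, `1 ≤ a`. Sum of `XzProp` (1) with `(i, i + 1)` for `i < h`, times `rr (i+1) > 0`; `XzProp` (2)
with `i = h` and `HdProp`, times `a * rr h`. `200 a ≤ 2000 a`, `a ≥ 1`, `P ≥ 0`, so the total is at
most `2000 * Mb * a * P`. -/
def CcProp : Prop :=
  ∀ (X K : Type) [Fintype X] [DecidableEq X] [Nonempty X] [Fintype K] [DecidableEq K]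
    [Nonempty K] (B : Blk X) (sg : K → X) (Lam : ℝ) (N : ℕ)
    (D : X → X → ℝ) (cl : X → List X) (C : List X) (tl : List (K × Option K)) (a : ℝ),
    B.OK Lam N D cl → Fine B K Lam N → 1 ≤ a →
    (∀ t ∈ tl, cl (sg t.1) = C) →
    (∀ t ∈ tl, ∀ o, t.2 = some o → cl (sg t.1) = cl (sg o)) →
    (tl.filterMap Prod.snd).Nodup → tl.length ≤ Fintype.card K →
    tl.length ≤ (aC sg cl C).card →
    B.EE K Lam N (fun G q => psum (fun z l =>
      (∑ i ∈ range B.h, B.rr (i + 1) * (ind (B.Crs sg Lam N cl G i z l) *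
          (1 + B.exc Lam N G (i + 1) (sg z)))) +
      a * B.rr B.h * (ind (B.Crs sg Lam N cl G B.h z l) +
        ind (B.Dr sg Lam N cl G z l) + ind (B.Hit sg Lam N cl G q z l))) (tl.map Prod.fst)) ≤
      2000 * B.Mb * (a * rcs sg B.W B.R tl)

/-- File C/Bc.lean, from `DiProp`, `CcProp`, `SpProp`, `SvProp`, `EeProp`: the proof of
`BlockCostProp`. By `DiProp` for every step (the condition `fits` is inherited by the tails of the
list), `bcost` is pathwise at most `psum (f z (lC l (cl (sg z))))`, where in `f` the factor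
`th (sg z)` is kept (`SvProp`: `Dr`, `Hit` depend on `lC l (cl (sg z))` only). By `SpProp` (1)
it is the sum over the labels `C` of `psum f (lC L C)`; for a label `C = cl x` all `th (sg z)` with
`cl (sg z) = C` are equal to `th x` (`Th.eq`); `CcProp` for the tokens `tC tl C` with `a = th x`
(a sublist of `tl`, so the invariants hold; `SpProp` (3)), and
`∑ C, th x * rcs (tC tl C) = PiT` by `SpProp` (2). -/
def BcProp : Prop := BlockCostProp

/-! ## The potential of the next block -/

/-- File C/Pu.lean, from `NvProp`, `ThProp`, `SvProp`. One token `t` with earlier positions `l`,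
`z = t.1`, `C = cl (sg z)`, `v = nv z l`; `Supp`. New token `(np, partner)`, `th' = nth`.
(a) relocated (`np = v`, `ow 0 (sg v) ≠ ow 0 (sg z)`): the new token is bad, value
`2 R' th' (sg v)`. If `Dr` or `Hit`: `≤ 2 R' (Lam + 1)`. Otherwise `svC = inl y`, `sg v = sg y` and
`arr z (lC l C) = 1 + exc 0 (sg v) = th' (sg v)`. (b) not relocated, `t.2 = none`: value
`2 R' th' (sg z)`. (c) not relocated, `t.2 = some o`, `ncl (sg z) ≠ ncl (sg o)`: as
`cl (sg z) = cl (sg o)`, `ow 0 (sg z) ≠ ow 0 (sg o)`, value `2 R' th' (sg z)`. (d) not relocated,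
`ncl (sg z) = ncl (sg o)`: value `3 W' th' (sg z)`, and `D (sg z) (sg o) ≤ (Lam + 1) rr 0` by
`ThProp` (2), (4). All terms on the right are `≥ 0` (`th' ≥ 1`, `arr ≥ 0`). -/
def PuProp : Prop :=
  ∀ (X K : Type) [Fintype X] [DecidableEq X] [Nonempty X] [Fintype K] [DecidableEq K]
    [Nonempty K] (B : Blk X) (sg : K → X) (Lam : ℝ) (N : ℕ)
    (D : X → X → ℝ) (cl : X → List X) (G : ℕ → X → ℕ) (q : ℕ → Equiv.Perm X)
    (W' : X → X → ℝ) (R' : ℝ) (t : K × Option K) (l : List K),
    B.OK Lam N D cl → B.Supp N G → (∀ x y, 0 ≤ W' x y) → 0 ≤ R' →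
    (∀ o, t.2 = some o → cl (sg t.1) = cl (sg o)) →
    (lC sg cl (t.1 :: l) (cl (sg t.1))).length ≤ (aC sg cl (cl (sg t.1))).card →
    B.nth Lam N G (sg (B.nt sg Lam N cl G q t l).1) *
        rc sg W' R' (B.nt sg Lam N cl G q t l) ≤
      2 * R' * (B.arr sg Lam N cl G t.1 (lC sg cl l (cl (sg t.1))) +
        (Lam + 1) * (ind (B.Dr sg Lam N cl G t.1 l) + ind (B.Hit sg Lam N cl G q t.1 l))) +
      (match t.2 with
        | none => 2 * R' * B.nth Lam N G (sg t.1)
        | some o => 2 * R' * (ind (B.ow Lam N G 0 (sg t.1) ≠ B.ow Lam N G 0 (sg o)) *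
              B.nth Lam N G (sg t.1)) +
            3 * (ind (D (sg t.1) (sg o) ≤ (Lam + 1) * B.rr 0) * W' (sg t.1) (sg o)) *
              B.nth Lam N G (sg t.1))

/-- File C/Ps.lean, from `PuProp`. Induction on `tl`: the sum of `PuProp` over the tokens
(`(ntl tl).map (th' * rc)`, the earlier positions are `tl.map fst`; the condition `fits` is inherited
by the tails). -/
def PsProp : Prop :=
  ∀ (X K : Type) [Fintype X] [DecidableEq X] [Nonempty X] [Fintype K] [DecidableEq K]
    [Nonempty K] (B : Blk X) (sg : K → X) (Lam : ℝ) (N : ℕ)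
    (D : X → X → ℝ) (cl : X → List X) (G : ℕ → X → ℕ) (q : ℕ → Equiv.Perm X)
    (W' : X → X → ℝ) (R' : ℝ) (tl : List (K × Option K)),
    B.OK Lam N D cl → B.Supp N G → (∀ x y, 0 ≤ W' x y) → 0 ≤ R' → Inv sg cl tl →
    PiT sg W' R' (B.nth Lam N G) (B.ntl sg Lam N cl G q tl) ≤
      2 * R' * psum (fun z l => B.arr sg Lam N cl G z (lC sg cl l (cl (sg z))) +
        (Lam + 1) * (ind (B.Dr sg Lam N cl G z l) + ind (B.Hit sg Lam N cl G q z l)))
          (tl.map Prod.fst) +
      (tl.map (fun t => match t.2 with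
        | none => 2 * R' * B.nth Lam N G (sg t.1)
        | some o => 2 * R' * (ind (B.ow Lam N G 0 (sg t.1) ≠ B.ow Lam N G 0 (sg o)) *
              B.nth Lam N G (sg t.1)) +
            3 * (ind (D (sg t.1) (sg o) ≤ (Lam + 1) * B.rr 0) * W' (sg t.1) (sg o)) *
              B.nth Lam N G (sg t.1))).sum

/-- File C/Pa.lean, from `XzProp`, `HdProp`, `SpProp`, `SvProp`, `EeProp`. First part of the
right side of `PsProp`: split over the clusters (`SpProp` (1); `SvProp`), `XzProp` (3) and `HdProp`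
for the tokens `tC tl C`; the sum of `rcs (tC tl C)` over the labels is `rcs tl` (`SpProp` (2)). -/
def PaProp : Prop :=
  ∀ (X K : Type) [Fintype X] [DecidableEq X] [Nonempty X] [Fintype K] [DecidableEq K]
    [Nonempty K] (B : Blk X) (sg : K → X) (Lam : ℝ) (N : ℕ)
    (D : X → X → ℝ) (cl : X → List X) (tl : List (K × Option K)),
    B.OK Lam N D cl → Fine B K Lam N → Inv sg cl tl →
    B.EE K Lam N (fun G q => psum (fun z l =>
      B.arr sg Lam N cl G z (lC sg cl l (cl (sg z))) +
        (Lam + 1) * (ind (B.Dr sg Lam N cl G z l) + ind (B.Hit sg Lam N cl G q z l)))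
          (tl.map Prod.fst)) ≤
      (200 / B.mu 0 + (Lam + 1) * (2 + Real.log (Fintype.card X)) / B.R) *
        rcs sg B.W B.R tl

/-- File C/Pt.lean, from `CutProp`, `SizeProp`, `Ow0Prop`, `EbProp`, `CoProp`. One token of the second
part of the right side of `PsProp` (`nth = 1 + exc 0`). `t.2 = none`: `SizeProp`, `≤ 6 R'`, and
`rc = 2 R`, so `6 R' = 3 (R'/R) rc`. `t.2 = some o`: if `dp 0 = 0` the first term is `0`
(`Ow0Prop`); otherwise `Lam/N ≤ dp 0 / mu 0` (`Fine.dp`) and `CutProp` gives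
`2 R' * 400 / mu 0 * dp 0 ≤ 800 R' / mu 0 * W ≤ 300 R' / mu 0 * rc` (`dp 0 ≤ W`, `rc = 3 W`). The
second term: `SizeProp`. -/
def PtProp : Prop :=
  ∀ (X K : Type) [Fintype X] [DecidableEq X] [Nonempty X] [Fintype K] [DecidableEq K]
    [Nonempty K] (B : Blk X) (sg : K → X) (Lam : ℝ) (N : ℕ)
    (D : X → X → ℝ) (cl : X → List X) (W' : X → X → ℝ) (R' : ℝ) (t : K × Option K),
    B.OK Lam N D cl → Fine B K Lam N → (∀ x y, 0 ≤ W' x y) → 0 ≤ R' →
    B.E Lam N sT (fun G => match t.2 with
        | none => 2 * R' * B.nth Lam N G (sg t.1)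
        | some o => 2 * R' * (ind (B.ow Lam N G 0 (sg t.1) ≠ B.ow Lam N G 0 (sg o)) *
              B.nth Lam N G (sg t.1)) +
            3 * (ind (D (sg t.1) (sg o) ≤ (Lam + 1) * B.rr 0) * W' (sg t.1) (sg o)) *
              B.nth Lam N G (sg t.1)) ≤
      (300 * (R' / B.mu 0) + 3 * (R' / B.R)) * rc sg B.W B.R t +
      9 * (match t.2 with
          | none => 0
          | some o => ind (D (sg t.1) (sg o) ≤ (Lam + 1) * B.rr 0) * W' (sg t.1) (sg o))

/-- File C/Bp.lean, from `PsProp`, `PaProp`, `PtProp`, `EeProp`, `EbProp`: the proof of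
`BlockPotProp`. `EE PiT' ≤ 2 R' (200/mu 0 + (Lam+1)(2 + ln|X|)/R) rcs + (300 R'/mu 0 + 3 R'/R) rcs + 9 ∑`
(`PtProp` summed over the list: `E` of a list sum is the sum of the `E`, induction on `tl`).
`R'/mu 0 ≤ 1/20000`, `R' (2 + ln|X|)(Lam+1)/R ≤ 1/20000`, `R'/R ≤ 1/20000` (`Lam + 1 ≥ 1`,
`ln|X| ≥ 0`), total factor `≤ (400 + 2 + 300 + 3)/20000 ≤ 1/4`; and `rcs ≤ PiT` since `th ≥ 1` and
`rc ≥ 0` (`CoProp` or directly `PM (dp i)`: `W ≥ 0`). -/
def BpProp : Prop := BlockPotProp

/-- File C/Law.lean: the proof of `LawProp` (from `EbProp` for the mass, or directly). `Ω` = the pairs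
of `g : Fin (h+1) → X → Fin N` with `∀ i : Fin (h+1), B.Cov i (fun z => (g i z : ℕ))` (a subtype, a
`Fintype` by `Classical`) and `q : Fin (card K) → Perm X`, weight = product of
`lws true` times `1 / ((card X)!)^(card K)`; `Gf = extG g`, `qf = extP q`. The configurations
without coverage have weight `0` (`lws b = true` contains the indicator), so the sum over the
subtype is the full sum. `Supp`: `extG g i z < N` (`N > 0` for `i > h`). `w ≥ 0`: `tw ≥ 0`
(`TwProp`), `Z ≥ 1/2`. Mass `1`: `EbProp` (2) with `a = 1`, `s = sT`. -/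
def LwProp : Prop := LawProp

end Pool.Agent.AM
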