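import Pool.Agent.Lib.AM.Defs2

set_option linter.all false

/-!
# AM, part H: the hits (copies given to the dropped requests that are taken later)

A dropped request number `i` (a token) has its own random order `q i` of the SITES and sits at the
first free copy of `A` outside `FF A F i`. When a real copy `y` is added to `F`, the set `FF A F i`
grows by one copy `ww i`: `ww 0 = y`, and `ww (i+1) = ww i` unless `ww i` is the place of the token
`i`; then `ww (i+1)` is the next free copy in the order of the token `i`. The site changes only if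
`ww i` was the last free copy of its site and this site is the first one in the order `q i` among
the sites with a free copy. `FF A F i` does not depend on `q i`, so this has probability at most
`1 / (number of the free sites)`, and the number of the free sites then decreases by one.
`extP`, `FF`, `YP`, `usedR`, `lC`, `aC`, `Blk.US`, `Blk.dr`, `Blk.VS`, `Blk.nv`: `Defs2.lean`.
Existing proofs: `Dbl.topP : TopProp` (`Dbl/Top.lean`), `Dbl.delP : TopProp → DelProp` (`Dbl/Del.lean`),
`permP : PermProp` (`MP_a4c1f4_lc/Perm.lean`).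
-/

namespace Pool.Agent.AM

open Finset Pool.Agent.MP_a4c1f4_lc Pool.Agent.MP_a4c1f4_lc.Dbl

section
variable {X K : Type} [Fintype X] [DecidableEq X] [Nonempty X] [Fintype K] [DecidableEq K]
  [Nonempty K]

/-- The copy by which `FF sg q A F i` grows when `y` is added to `F`. -/
noncomputable def ww (sg : K → X) (q : ℕ → Equiv.Perm X) (A F : Finset K) (y : K) : ℕ → K
  | 0 => y
  | i + 1 => nx (YP sg (q i)) (A \ FF sg q A F i) 1 (ww sg q A F y i)

/-- `1 + 1/2 + ... + 1/n`, `n` = number of the sites having a copy in `B`. -/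
noncomputable def Hn (sg : K → X) (B : Finset K) : ℝ :=
  ∑ k ∈ range (B.image sg).card, 1 / ((k : ℝ) + 1)

/-- The potential of the tokens `0, ..., d - 1`. -/
noncomputable def Ph (sg : K → X) (q : ℕ → Equiv.Perm X) (A F : Finset K) (d : ℕ) : ℝ :=
  ∑ i ∈ range d, (1 + Real.log (Fintype.card X) - Hn sg (A \ FF sg q A F i))

end

/-- (H1) File H/Ww.lean, from `TopProp`, `DelProp`. One step of the tokens. Proof. `FF A F (i+1) = FF A F i ∪ tp Y A' 1`
with `Y = YP sg (q i)`, `A' = A \ FF A F i`, `tp Y A' 1 ⊆ A'` (a filter), `card (tp Y A' 1) = min 1 (card A')` (`TopProp`).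
Induction on `i` for all five claims together. `i = 0`: `FF A F 0 = F`, `ww 0 = y`. Step: by induction `card A' = card A -
card F - i ≥ 2` (the hypothesis is `F.card + 1 + (i + 1) ≤ A.card`), so `card (tp Y A' 1) = 1`, disjoint from `FF A F i`:
card and subset. Write `w = ww i ∈ A'`, `w' = ww (i+1) = nx Y A' 1 w`. `A \ FF A (insert y F) i = A'.erase w` (induction).
`DelProp` (with `n = 1 < card A'`, `w ∈ A'`): if `w ∉ tp Y A' 1` then `w' = w`, `tp Y (A'.erase w) 1 = tp Y A' 1`, so
`FF (insert y F) (i+1) = insert w (FF F i) ∪ tp Y A' 1 = insert w' (FF F (i+1))`, `w' ∉ FF F (i+1)`. If `w ∈ tp Y A' 1` then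
`tp Y A' 1 = {w}` (card 1) and `tp Y (A'.erase w) 1 = insert w' ({w}.erase w) = {w'}`, `w' ∈ A'`, `w' ∉ tp Y A' 1`, so
`FF (insert y F) (i+1) = insert w (FF F i) ∪ {w'} = insert w' (FF F i ∪ {w}) = insert w' (FF F (i+1))`. -/
def WwProp : Prop :=
  ∀ (X K : Type) [Fintype X] [DecidableEq X] [Nonempty X] [Fintype K] [DecidableEq K]
    [Nonempty K] (sg : K → X) (q : ℕ → Equiv.Perm X) (A F : Finset K) (y : K) (i : ℕ),
    F ⊆ A → y ∈ A → y ∉ F → F.card + 1 + i ≤ A.card →
    FF sg q A F i ⊆ A ∧ (FF sg q A F i).card = F.card + i ∧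
    ww sg q A F y i ∈ A ∧ ww sg q A F y i ∉ FF sg q A F i ∧
    FF sg q A (insert y F) i = insert (ww sg q A F y i) (FF sg q A F i)

/-- (H2) File H/Sc.lean, from `TopProp`, `DelProp`. Change of the site. Proof. Write `Y = YP sg p`. If `nx Y B 1 w ≠ w` (true as
the sites differ) then `w ∈ tp Y B 1` by `DelProp` (`1 < card B`), so `rnk Y B w < 1`: no `v ∈ B` comes before `w` (`Bt Y v w`),
in particular not `Y w < Y v`, i.e. `- rk (p (sg v)) ≤ - rk (p (sg w))`: first claim. Let `w' = nx Y B 1 w`. By `DelProp`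
`tp Y (B.erase w) 1 = insert w' ((tp Y B 1).erase w)`, so `w' ∈ tp Y (B.erase w) 1`: no `v ∈ B.erase w` comes before `w'`.
Suppose `v ∈ B`, `v ≠ w`, `sg v = sg w`. Then `Y v = Y w ≥ Y w'` (first claim, `w' ∈ B`), and `Y w' ≠ Y w` because `sg w' ≠ sg w`,
`p` is injective and `rk X` is injective (`rk X = Fin.val ∘ Fintype.equivFin X`). So `Y w' < Y v`: `v` comes before `w'`,
contradiction. -/
def SchProp : Prop :=
  ∀ (X K : Type) [Fintype X] [DecidableEq X] [Nonempty X] [Fintype K] [DecidableEq K]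
    [Nonempty K] (sg : K → X) (p : Equiv.Perm X) (B : Finset K) (w : K),
    w ∈ B → 1 < B.card → sg (nx (YP sg p) B 1 w) ≠ sg w →
    (∀ s ∈ B.image sg, rk X (p (sg w)) ≤ rk X (p s)) ∧ (∀ v ∈ B, v ≠ w → sg v ≠ sg w)

/-- (H3) File H/Hn.lean, from `PermProp`, `SchProp`. The expected number of changes of the site of one token in one step, for a
random order `p`. Proof. If some `v ∈ B`, `v ≠ w` has `sg v = sg w`, then by `SchProp` all indicators on the left are `0`, and
the right side is `≥ 0`: `(B.erase w).image sg ⊆ B.image sg`, the sum `Hn` is monotone in the cardinality. Otherwise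
`(B.erase w).image sg = (B.image sg).erase (sg w)`, its cardinality is `n - 1`, `n = (B.image sg).card ≥ 1`, so
`Hn B - Hn (B.erase w) = 1 / n` (`Finset.sum_range_succ`), and by `SchProp` and `PermProp` (`A := B.image sg`, `z := sg w`) the left
side is at most `∑ p, ind (∀ s ∈ B.image sg, rk (p (sg w)) ≤ rk (p s)) ≤ (card X)! / n`. Second claim: `Hn B ≤ ∑_{k < card X}
1/(k+1) ≤ 1 + log (card X)` (`harmonic_le_one_add_log` of Mathlib, `harmonic n = ∑ i ∈ range n, (↑(i+1))⁻¹` in `ℚ`), `0 ≤ Hn`. -/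
def HnProp : Prop :=
  ∀ (X K : Type) [Fintype X] [DecidableEq X] [Nonempty X] [Fintype K] [DecidableEq K]
    [Nonempty K] (sg : K → X) (B : Finset K) (w : K),
    (w ∈ B → 1 < B.card →
      ∑ p : Equiv.Perm X, ind (sg (nx (YP sg p) B 1 w) ≠ sg w) ≤
        ((Fintype.card X).factorial : ℝ) * (Hn sg B - Hn sg (B.erase w))) ∧
    0 ≤ Hn sg B ∧ Hn sg B ≤ 1 + Real.log (Fintype.card X)

/-- (H4) File H/Dep.lean. Uses nothing. `FF sg q A F i` and `ww sg q A F y i` depend only on `q j`, `j < i`; induction on `i`.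
Averaging over one coordinate: for a finite nonempty type `P`, `∑_{q : Fin k → P} f q = (1 / card P) ∑_q ∑_{p} f (update q i p)`
(exchange the sums: for fixed `q`, `p` the map `(q, p) ↦ (update q i p, q i)` is a bijection of `(Fin k → P) × P`; or
`Fintype.sum_equiv` with `Equiv.piFinSuccAbove` / `Equiv.funSplitAt`). -/
def DepProp : Prop :=
  (∀ (X K : Type) [Fintype X] [DecidableEq X] [Nonempty X] [Fintype K] [DecidableEq K]
    [Nonempty K] (sg : K → X) (q q' : ℕ → Equiv.Perm X) (A F : Finset K) (y : K) (i : ℕ),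
    (∀ j < i, q j = q' j) →
    FF sg q A F i = FF sg q' A F i ∧ ww sg q A F y i = ww sg q' A F y i) ∧
  (∀ (P : Type) [Fintype P] [Nonempty P] (k : ℕ) (i : Fin k) (f : (Fin k → P) → ℝ),
    (Fintype.card P : ℝ) * ∑ q : Fin k → P, f q =
      ∑ q : Fin k → P, ∑ p : P, f (Function.update q i p))

/-- (H5) File H/Tk.lean, from `WwProp`, `HnProp`, `DepProp`. One token, one real step, all orders. Proof. Let
`B q = A \ FF sg (extP q) A F i`, `w q = ww sg (extP q) A F y i ∈ B q`, `card (B q) = card A - card F - i ≥ 2` (`WwProp`, the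
hypothesis is `F.card + 1 + (i + 1) ≤ A.card`). `extP q i = q i` for `i < k = card K`, and `i < card K` because
`i + 1 ≤ A.card ≤ card K`. By `WwProp` `A \ FF sg (extP q) A (insert y F) i = (B q).erase (w q)`, and
`ww (i+1) = nx (YP sg (q i)) (B q) 1 (w q)`. `B (update q i p) = B q`, `w (update q i p) = w q` (`DepProp`; `extP (update q i p) j =
extP q j` for `j < i`). By `DepProp` (2) with `P = Equiv.Perm X` (`Fintype.card_perm`): `(card X)! * ∑_q ind (..) =
∑_q ∑_p ind (sg (nx (YP sg p) (B q) 1 (w q)) ≠ sg (w q)) ≤ (card X)! ∑_q (Hn (B q) - Hn ((B q).erase (w q)))` (`HnProp`). Divide. -/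
def TkProp : Prop :=
  ∀ (X K : Type) [Fintype X] [DecidableEq X] [Nonempty X] [Fintype K] [DecidableEq K]
    [Nonempty K] (sg : K → X) (A F : Finset K) (y : K) (i : ℕ),
    F ⊆ A → y ∈ A → y ∉ F → F.card + 1 + (i + 1) ≤ A.card →
    ∑ q : Fin (Fintype.card K) → Equiv.Perm X,
        ind (sg (ww sg (extP q) A F y (i + 1)) ≠ sg (ww sg (extP q) A F y i)) ≤
      ∑ q : Fin (Fintype.card K) → Equiv.Perm X,
        (Hn sg (A \ FF sg (extP q) A F i) - Hn sg (A \ FF sg (extP q) A (insert y F) i))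

/-- (H6) File H/Ps.lean, from `TkProp`, `HnProp`. One step of the potential. Proof. First claim: if `sg (ww d) ≠ sg y = sg (ww 0)` then
`sg (ww (i+1)) ≠ sg (ww i)` for some `i < d`, so `ind (..) ≤ ∑_{i<d} ind (sg (ww (i+1)) ≠ sg (ww i))`; sum over `q`, exchange the
sums, `TkProp` for every `i < d` (`F.card + 1 + (i+1) ≤ F.card + 1 + d`), and `Ph (insert y F) d - Ph F d = ∑_{i<d} (Hn (A \ FF F i) -
Hn (A \ FF (insert y F) i))`. Second claim: `Ph F (d+1) - Ph F d = 1 + log - Hn ≥ 0`. Third: `Hn ≥ 0`; fourth: `Hn ≤ 1 + log`. -/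
def PshProp : Prop :=
  ∀ (X K : Type) [Fintype X] [DecidableEq X] [Nonempty X] [Fintype K] [DecidableEq K]
    [Nonempty K] (sg : K → X) (A F : Finset K) (y : K) (d : ℕ),
    (F ⊆ A → y ∈ A → y ∉ F → F.card + 1 + d ≤ A.card →
      ∑ q : Fin (Fintype.card K) → Equiv.Perm X, ind (sg (ww sg (extP q) A F y d) ≠ sg y) ≤
        ∑ q : Fin (Fintype.card K) → Equiv.Perm X,
          (Ph sg (extP q) A (insert y F) d - Ph sg (extP q) A F d)) ∧
    (∀ q : ℕ → Equiv.Perm X, Ph sg q A F d ≤ Ph sg q A F (d + 1) ∧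
      Ph sg q A F d ≤ (1 + Real.log (Fintype.card X)) * d ∧ 0 ≤ Ph sg q A F d)

end Pool.Agent.AM
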