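import Pool.Agent.Lib.MP_a4c1f4_lc.Spec

set_option linter.all false

/-!
# AM: all metrics, ratio `O((log m)^(3/2) (log log m)^2)`. Definitions.

Paper proof: note 5251 (helper99). `X` is the finite set of the sites, `K` the finite set of the
copies (servers), `sg : K → X` the site of a copy, `T = K ⊕ K` the set of the servers of a block:
`inl v` is the copy `v`, `inr v` is a dummy. Blocks, fields, owners, clusters live on the sites
`X`; requests, lists and costs on the copies. A request is a copy too (only its site matters).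
Lists are written with the most recent request first.
-/

namespace Pool.Agent.AM

open Finset Pool.Agent.MP_a4c1f4_lc

/-! ### Truncated geometric weights -/

/-- Ratio of the geometric weights; `Lam` is the length of the range in units of the mean, `N` the
number of the grid points. -/
noncomputable def qN (Lam : ℝ) (N : ℕ) : ℝ := 1 - Lam / (N : ℝ)

/-- Weight of the value `j < N`. -/
noncomputable def tw (Lam : ℝ) (N j : ℕ) : ℝ :=
  (1 - qN Lam N) * qN Lam N ^ j / (1 - qN Lam N ^ N)

/-! ### Sums over the requests -/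

/-- Sum over the requests of a list: the request `x` coming after the list `l` contributes
`f x l`. -/
def psum {S : Type} (f : S → List S → ℝ) : List S → ℝ
  | [] => 0
  | x :: l => psum f l + f x l

/-! ### Fields -/

/-- The value at `x` of the field with pseudometric `dp`, grid step `eta`, values `g`. -/
noncomputable def fd {X : Type} [Fintype X] [Nonempty X] (dp : X → X → ℝ) (eta : ℝ)
    (g : X → ℕ) (x : X) : ℝ := fld dp eta 1 id g x

/-- `z` owns `x`: the field at `x` comes from `z` (ties broken by the numbering of `X`). -/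
def Own {X : Type} [Fintype X] (dp : X → X → ℝ) (eta : ℝ) (g : X → ℕ) (x z : X) : Prop :=
  Sel dp eta 1 id g x z

open Classical in
/-- The owner. -/
noncomputable def own {X : Type} [Fintype X] [Nonempty X] (dp : X → X → ℝ) (eta : ℝ)
    (g : X → ℕ) (x : X) : X :=
  if h : ∃ z, Own dp eta g x z then h.choose else Classical.arbitrary X

/-! ### A block -/

/-- The data of a block. Field `0` is the bottom field, the fields `1, …, h` are the ordinary
levels (`h` is the top level). `dp i` pseudometric, `mu i` mean of field `i`; `sr i` sure radius of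
its cells; `nr i` radius of the neighbourhoods; `rr i` radius scale; `vb i z = ln |B(z, 2 nr i)|`;
`fl i` the level used to control the far displacements of field `i`; `Cov i g` the coverage event;
`R` the price of a dummy. -/
structure Blk (X : Type) where
  h : ℕ
  dp : ℕ → X → X → ℝ
  mu : ℕ → ℝ
  sr : ℕ → ℝ
  nr : ℕ → ℝ
  rr : ℕ → ℝ
  vb : ℕ → X → ℝ
  fl : ℕ → ℕ
  Cov : ℕ → (X → ℕ) → Prop
  R : ℝ

section
variable {X K : Type} [Fintype X] [DecidableEq X] [Nonempty X] (B : Blk X) (sg : K → X)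
  (Lam : ℝ) (N : ℕ)

/-- Grid step of field `i`. -/
noncomputable def Blk.eta (B : Blk X) (Lam : ℝ) (N : ℕ) (i : ℕ) : ℝ := B.mu i * Lam / (N : ℝ)

/-- Sum of the pseudometrics of the block. -/
noncomputable def Blk.W (B : Blk X) (x y : X) : ℝ := ∑ i ∈ range (B.h + 1), B.dp i x y

/-- The noise at the site `x` for the configuration `G` (`G i z`: value of the source `z` of
field `i`, between `0` and `N`). -/
noncomputable def Blk.pot (B : Blk X) (Lam : ℝ) (N : ℕ) (G : ℕ → X → ℕ) (x : X) : ℝ :=
  ∑ i ∈ range (B.h + 1), fd (B.dp i) (B.eta Lam N i) (G i) x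

/-- The noise on the servers (dummies: `0`). -/
noncomputable def Blk.potT (B : Blk X) (sg : K → X) (Lam : ℝ) (N : ℕ) (G : ℕ → X → ℕ) :
    K ⊕ K → ℝ
  | Sum.inl x => B.pot Lam N G (sg x)
  | Sum.inr _ => 0

open Classical in
/-- The distances of the block: `cl` is the label of the cluster. -/
noncomputable def Blk.dist (B : Blk X) (sg : K → X) (cl : X → List X) : K ⊕ K → K ⊕ K → ℝ
  | Sum.inl x, Sum.inl v => if cl (sg x) = cl (sg v) then 2 * B.W (sg x) (sg v) else 4 * B.R
  | Sum.inl _, Sum.inr _ => B.R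
  | Sum.inr _, _ => 4 * B.R

/-- The perturbed costs of the block. -/
noncomputable def Blk.c (B : Blk X) (sg : K → X) (Lam : ℝ) (N : ℕ) (cl : X → List X)
    (G : ℕ → X → ℕ) : K ⊕ K → K ⊕ K → ℝ := cst (B.dist sg cl) (B.potT sg Lam N G)

/-- The owner of the site `x` in field `i`. -/
noncomputable def Blk.ow (B : Blk X) (Lam : ℝ) (N : ℕ) (G : ℕ → X → ℕ) (i : ℕ) (x : X) : X :=
  own (B.dp i) (B.eta Lam N i) (G i) x

/-- The owner of a server (`none` for a dummy). -/
noncomputable def Blk.owT (B : Blk X) (sg : K → X) (Lam : ℝ) (N : ℕ) (G : ℕ → X → ℕ) (i : ℕ) :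
    K ⊕ K → Option X
  | Sum.inl x => some (B.ow Lam N G i (sg x))
  | Sum.inr _ => none

/-- Excess of the source `z` with value `j` in field `i` (`b' = 2`). -/
noncomputable def Blk.ex (B : Blk X) (Lam : ℝ) (N : ℕ) (i : ℕ) (z : X) (j : ℕ) : ℝ :=
  max 0 (Lam * (j : ℝ) / (N : ℝ) - B.vb i z - 2)

/-- Excess at `x`: the excess of the owner of `x`. -/
noncomputable def Blk.exc (B : Blk X) (Lam : ℝ) (N : ℕ) (G : ℕ → X → ℕ) (i : ℕ) (x : X) : ℝ :=
  B.ex Lam N i (B.ow Lam N G i x) (G i (B.ow Lam N G i x))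

/-- Change the value of the source `z` of field `i` to `j`. -/
def upd {X : Type} [DecidableEq X] (G : ℕ → X → ℕ) (i : ℕ) (z : X) (j : ℕ) : ℕ → X → ℕ :=
  Function.update G i (Function.update (G i) z j)

/-- Price of the request `x` after the list `l` (requests are copies) for the costs `c`. -/
noncomputable def pr {K : Type} (c : K ⊕ K → K ⊕ K → ℝ) (x : K) (l : List K) : ℝ :=
  optv c (Sum.inl x :: l.map Sum.inl) - optv c (l.map Sum.inl)

/-- The new server of the request `x` after the list `l`. -/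
noncomputable def sv {K : Type} [Fintype K] [DecidableEq K] [Nonempty K]
    (c : K ⊕ K → K ⊕ K → ℝ) (x : K) (l : List K) : K ⊕ K := srv c (Sum.inl x) (l.map Sum.inl)

/-! ### Expectations -/

/-- Extend a finite configuration. -/
def extG {X : Type} {h N : ℕ} (g : Fin (h + 1) → X → Fin N) : ℕ → X → ℕ :=
  fun i z => if hi : i < h + 1 then (g ⟨i, hi⟩ z : ℕ) else 0

/-- Product weight of one field. -/
noncomputable def lw (Lam : ℝ) {X : Type} [Fintype X] {N : ℕ} (g : X → Fin N) : ℝ :=
  ∏ z, tw Lam N (g z : ℕ)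

/-- Probability of the coverage event. -/
noncomputable def Blk.Z (B : Blk X) (Lam : ℝ) (N : ℕ) (i : ℕ) : ℝ :=
  ∑ g : X → Fin N, lw Lam g * ind (B.Cov i (fun z => (g z : ℕ)))

/-- Weight of one field: product law (`b = false`) or conditioned on coverage (`b = true`). -/
noncomputable def Blk.lws (B : Blk X) (Lam : ℝ) (N : ℕ) (b : Bool) (i : ℕ) (g : X → Fin N) : ℝ :=
  if b then lw Lam g * ind (B.Cov i (fun z => (g z : ℕ))) / B.Z Lam N i else lw Lam g

/-- Expectation over the fields of the block; `s i` tells which law field `i` has. -/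
noncomputable def Blk.E (B : Blk X) (Lam : ℝ) (N : ℕ) (s : ℕ → Bool)
    (f : (ℕ → X → ℕ) → ℝ) : ℝ :=
  ∑ g : Fin (B.h + 1) → X → Fin N, (∏ i : Fin (B.h + 1), B.lws Lam N (s i) i (g i)) * f (extG g)

/-- All fields conditioned on coverage: the law used by the algorithm. -/
def sT : ℕ → Bool := fun _ => true

/-- The law `s` with field `i` changed to the product law. -/
def free (s : ℕ → Bool) (i : ℕ) : ℕ → Bool := Function.update s i false

/-! ### The hypotheses on a block -/

/-- Everything the probabilistic part needs. `D` is the metric, `cl` the clusters, `top` a bound for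
the diameters of the clusters is not needed here. -/
structure Blk.OK (B : Blk X) (Lam : ℝ) (N : ℕ) (D : X → X → ℝ) (cl : X → List X) : Prop where
  pmD : PM D
  hh : 1 ≤ B.h
  hLam : 24 ≤ Lam
  hLamm : (Fintype.card X : ℝ) * (Lam + 1) * Real.exp (- Lam) ≤ 1 / 100
  hN : Lam ^ 2 ≤ N
  pm : ∀ i ≤ B.h, PM (B.dp i)
  mu : ∀ i ≤ B.h, 0 < B.mu i
  Rpos : 0 < B.R
  noise : (∑ i ∈ range (B.h + 1), B.mu i) * Lam ≤ B.R / 2
  nr : ∀ i ≤ B.h, 0 < B.nr i
  vb : ∀ i ≤ B.h, ∀ z, 0 ≤ B.vb i z
  /-- sure radius -/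
  sure : ∀ i ≤ B.h, ∀ g : X → ℕ, (∀ z, g z ≤ N) → ∀ x z, Own (B.dp i) (B.eta Lam N i) g x z →
    D x z ≤ B.sr i
  srnr : ∀ i ≤ B.h, 8 * B.sr i ≤ B.nr i
  /-- the neighbourhoods are not crowded -/
  count : ∀ i ≤ B.h, ∀ x, ∑ z : X, ind (D x z ≤ B.nr i) * Real.exp (- B.vb i z) ≤ 1
  /-- far displacements: either there are none, or they cross at the level `fl i` -/
  far : ∀ i ≤ B.h, (∀ x v, cl x = cl v → D x v ≤ B.nr i / 2) ∨
    (1 ≤ B.fl i ∧ B.fl i ≤ B.h ∧ B.fl i ≠ i ∧ 4 * B.sr (B.fl i) ≤ B.nr i ∧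
      16 * Lam * B.mu i ≤ B.mu (B.fl i))
  /-- radius of the cells on the coverage event -/
  rad : ∀ i ≤ B.h, ∀ g : X → ℕ, (∀ z, g z ≤ N) → B.Cov i g → ∀ x z,
    Own (B.dp i) (B.eta Lam N i) g x z → D x z ≤ B.rr i / 2 * (1 + B.ex Lam N i z (g z))
  rr : ∀ i ≤ B.h, 0 < B.rr i
  Z : ∀ i ≤ B.h, 1 / 2 ≤ B.Z Lam N i

end

end Pool.Agent.AM
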