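import Pool.Agent.Lib.AM.Iface
import Pool.Agent.Lib.MP_a4c1f4_lc.Dbl.Spec

set_option linter.all false

/-!
# AM: the block algorithm. Definitions.

All lists have the most recent request first. `l : List K` is the list of the positions of the
requests when the block starts (a position is a copy, only its site matters); the block gives new
positions.
-/

namespace Pool.Agent.AM

open Finset Pool.Agent.MP_a4c1f4_lc Pool.Agent.MP_a4c1f4_lc.Dbl

section
variable {X K : Type} [Fintype X] [DecidableEq X] [Nonempty X] [Fintype K] [DecidableEq K]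
  [Nonempty K]

open Classical in
/-- The requests standing in the cluster `C`. -/
noncomputable def lC (sg : K → X) (cl : X → List X) (l : List K) (C : List X) : List K :=
  l.filter (fun x => cl (sg x) = C)

open Classical in
/-- The copies in the cluster `C`. -/
noncomputable def aC (sg : K → X) (cl : X → List X) (C : List X) : Finset K :=
  univ.filter (fun v => cl (sg v) = C)

open Classical in
/-- The copies used by the perturbed optimum for the list `l`. -/
noncomputable def usedR (c : K ⊕ K → K ⊕ K → ℝ) (l : List K) : Finset K :=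
  univ.filter (fun v => (Sum.inl v : K ⊕ K) ∈ used c (l.map Sum.inl))

/-- The order of the copies given by the order `p` of the sites: copies of the site with the least
number `rk X (p s)` come first in the sense of `Dbl.Bt`. -/
noncomputable def YP (sg : K → X) (p : Equiv.Perm X) (v : K) : ℝ := - (rk X (p (sg v)) : ℝ)

/-- `F` and `n` more copies of `A`: the copy number `i` is the first free copy of `A` in the order
given by the order `q i` of the sites. -/
noncomputable def FF (sg : K → X) (q : ℕ → Equiv.Perm X) (A F : Finset K) : ℕ → Finset K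
  | 0 => F
  | i + 1 => FF sg q A F i ∪ tp (YP sg (q i)) (A \ FF sg q A F i) 1

variable (B : Blk X) (sg : K → X) (Lam : ℝ) (N : ℕ) (cl : X → List X) (G : ℕ → X → ℕ)
  (q : ℕ → Equiv.Perm X)

/-- The copies used in the cluster `C` by the perturbed optimum of this cluster. -/
noncomputable def Blk.US (l : List K) (C : List X) : Finset K :=
  usedR (B.c sg Lam N cl G) (lC sg cl l C)

/-- Number of the dropped requests of the cluster `C`. -/
noncomputable def Blk.dr (l : List K) (C : List X) : ℕ :=
  (lC sg cl l C).length - (B.US sg Lam N cl G l C).card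

/-- All used copies of the cluster `C`: those of the perturbed optimum and, for the dropped
requests, the first free ones in the random orders. -/
noncomputable def Blk.VS (l : List K) (C : List X) : Finset K :=
  FF sg q (aC sg cl C) (B.US sg Lam N cl G l C) (B.dr sg Lam N cl G l C)

open Classical in
/-- The new copy of the request `z` after `l`. -/
noncomputable def Blk.nv (z : K) (l : List K) : K :=
  if h : ∃ v, v ∈ B.VS sg Lam N cl G q (z :: l) (cl (sg z)) ∧
      v ∉ B.VS sg Lam N cl G q l (cl (sg z))
  then h.choose else z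

/-- The labels after the block. -/
noncomputable def Blk.ncl (x : X) : List X := B.ow Lam N G 0 x :: cl x

open Classical in
/-- The new position of the request `z` after `l`. -/
noncomputable def Blk.np (z : K) (l : List K) : K :=
  if B.ncl Lam N cl G (sg (B.nv sg Lam N cl G q z l)) = B.ncl Lam N cl G (sg z) then z
  else B.nv sg Lam N cl G q z l

/-- The list of the new positions. -/
noncomputable def Blk.npl : List K → List K
  | [] => []
  | z :: l => B.np sg Lam N cl G q z l :: Blk.npl l

/-- The list of the new copies. -/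
noncomputable def Blk.nvl : List K → List K
  | [] => []
  | z :: l => B.nv sg Lam N cl G q z l :: Blk.nvl l

/-- Cost of the relocations of the block. -/
noncomputable def Blk.bcost (D : X → X → ℝ) (l : List K) : ℝ :=
  psum (fun z l => D (sg z) (sg (B.np sg Lam N cl G q z l))) l

/-! ### Tokens: position and partner (`none` if the request is bad) -/

open Classical in
/-- New token of the request `t` when the earlier ones have the positions `l`. -/
noncomputable def Blk.nt (t : K × Option K) (l : List K) : K × Option K :=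
  (B.np sg Lam N cl G q t.1 l,
    match t.2 with
    | none => none
    | some o =>
      if B.np sg Lam N cl G q t.1 l = t.1 ∧
          B.ncl Lam N cl G (sg t.1) = B.ncl Lam N cl G (sg o)
      then some o else none)

/-- The list of the new tokens. -/
noncomputable def Blk.ntl : List (K × Option K) → List (K × Option K)
  | [] => []
  | t :: tl => B.nt sg Lam N cl G q t (tl.map Prod.fst) :: Blk.ntl tl

/-- Reference cost of a token: `3 W` for a good one, `2 R` for a bad one. -/
noncomputable def rc (sg : K → X) (W : X → X → ℝ) (R : ℝ) (t : K × Option K) : ℝ :=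
  match t.2 with
  | none => 2 * R
  | some o => 3 * W (sg t.1) (sg o)

/-- The potential: `th` is the size of the cluster in units of its nominal radius. -/
noncomputable def PiT (sg : K → X) (W : X → X → ℝ) (R : ℝ) (th : X → ℝ)
    (tl : List (K × Option K)) : ℝ :=
  (tl.map (fun t => th (sg t.1) * rc sg W R t)).sum

/-- Invariants of the tokens. -/
structure Inv (sg : K → X) (cl : X → List X) (tl : List (K × Option K)) : Prop where
  good : ∀ t ∈ tl, ∀ o, t.2 = some o → cl (sg t.1) = cl (sg o)
  nd : (tl.filterMap Prod.snd).Nodup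
  fits : ∀ C, (lC sg cl (tl.map Prod.fst) C).length ≤ (aC sg cl C).card
  len : tl.length ≤ Fintype.card K

/-- The function `th` bounds the sizes of the clusters. -/
structure Th (D : X → X → ℝ) (cl : X → List X) (th : X → ℝ) (Lam r : ℝ) : Prop where
  one : ∀ x, 1 ≤ th x
  le : ∀ x, th x ≤ Lam + 1
  eq : ∀ x y, cl x = cl y → th x = th y
  diam : ∀ x y, cl x = cl y → D x y ≤ th x * r

/-- The grid is fine enough for the block. -/
structure Fine (B : Blk X) (K : Type) [Fintype K] (Lam : ℝ) (N : ℕ) : Prop where
  one : er X K Lam N ≤ 1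
  W : ∀ x o, B.W x o = 0 ∨ B.R * er X K Lam N ≤ B.W x o
  dp : ∀ x o, B.dp 0 x o = 0 ∨ Lam / N ≤ B.dp 0 x o / B.mu 0

/-- Size function of the clusters after the block. -/
noncomputable def Blk.nth (x : X) : ℝ := 1 + B.exc Lam N G 0 x

/-- Extend a finite family of permutations. -/
def extP {X : Type} {k : ℕ} (q : Fin k → Equiv.Perm X) : ℕ → Equiv.Perm X :=
  fun i => if h : i < k then q ⟨i, h⟩ else 1

/-- Expectation over the randomness of the block. -/
noncomputable def Blk.EE (B : Blk X) (K : Type) [Fintype K] (Lam : ℝ) (N : ℕ)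
    (f : (ℕ → X → ℕ) → (ℕ → Equiv.Perm X) → ℝ) : ℝ :=
  B.E Lam N sT (fun G => (1 / ((Fintype.card X).factorial : ℝ) ^ Fintype.card K) *
    ∑ q : Fin (Fintype.card K) → Equiv.Perm X, f G (extP q))

/-- The cost factor of a block. -/
noncomputable def Blk.Mb (B : Blk X) : ℝ :=
  (∑ i ∈ range B.h, B.rr (i + 1) / B.mu i) + B.rr B.h / B.mu B.h +
    (2 + Real.log (Fintype.card X)) * B.rr B.h / B.R

/-- A configuration in the support of the law. -/
def Blk.Supp (G : ℕ → X → ℕ) : Prop := (∀ i z, G i z < N) ∧ ∀ i ≤ B.h, B.Cov i (G i)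

end

/-- (C1) Cost of a block. -/
def BlockCostProp : Prop :=
  ∀ (X K : Type) [Fintype X] [DecidableEq X] [Nonempty X] [Fintype K] [DecidableEq K]
    [Nonempty K] (B : Blk X) (sg : K → X) (Lam : ℝ) (N : ℕ)
    (D : X → X → ℝ) (cl : X → List X) (th : X → ℝ) (tl : List (K × Option K)),
    B.OK Lam N D cl → Fine B K Lam N → Th D cl th Lam (B.rr B.h) → Inv sg cl tl →
    B.EE K Lam N (fun G q => B.bcost sg Lam N cl G q D (tl.map Prod.fst)) ≤
      2000 * B.Mb * PiT sg B.W B.R th tl

/-- (C2) The potential of the next block, with pseudometric sum `W'` and dummy price `R'`. -/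
def BlockPotProp : Prop :=
  ∀ (X K : Type) [Fintype X] [DecidableEq X] [Nonempty X] [Fintype K] [DecidableEq K]
    [Nonempty K] (B : Blk X) (sg : K → X) (Lam : ℝ) (N : ℕ)
    (D : X → X → ℝ) (cl : X → List X) (th : X → ℝ) (tl : List (K × Option K))
    (W' : X → X → ℝ) (R' : ℝ),
    B.OK Lam N D cl → Fine B K Lam N → Th D cl th Lam (B.rr B.h) → Inv sg cl tl →
    (∀ x y, 0 ≤ W' x y) → 0 ≤ R' →
    R' * (1 / B.mu 0 + (2 + Real.log (Fintype.card X)) * (Lam + 1) / B.R) ≤ 1 / 20000 →
    B.EE K Lam N (fun G q => PiT sg W' R' (B.nth Lam N G) (B.ntl sg Lam N cl G q tl)) ≤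
      1 / 4 * PiT sg B.W B.R th tl +
        9 * (tl.map (fun t => match t.2 with
          | none => 0
          | some o => ind (D (sg t.1) (sg o) ≤ (Lam + 1) * B.rr 0) *
              W' (sg t.1) (sg o))).sum

/-- (C3) Invariants of the next block. -/
def BlockInvProp : Prop :=
  ∀ (X K : Type) [Fintype X] [DecidableEq X] [Nonempty X] [Fintype K] [DecidableEq K]
    [Nonempty K] (B : Blk X) (sg : K → X) (Lam : ℝ) (N : ℕ)
    (D : X → X → ℝ) (cl : X → List X) (th : X → ℝ) (tl : List (K × Option K))
    (G : ℕ → X → ℕ) (q : ℕ → Equiv.Perm X),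
    B.OK Lam N D cl → Inv sg cl tl → B.Supp N G →
    Inv sg (B.ncl Lam N cl G) (B.ntl sg Lam N cl G q tl) ∧
    Th D (B.ncl Lam N cl G) (B.nth Lam N G) Lam (B.rr 0) ∧
    (B.ntl sg Lam N cl G q tl).map Prod.fst = B.npl sg Lam N cl G q (tl.map Prod.fst) ∧
    (B.nvl sg Lam N cl G q (tl.map Prod.fst)).Nodup ∧
    (∀ (z : K) (l : List K), (∃ m : List K, m ++ z :: l = tl.map Prod.fst) →
      D (sg z) (sg (B.nv sg Lam N cl G q z l)) ≤
        D (sg z) (sg (B.np sg Lam N cl G q z l)) + 2 * B.sr 0)

/-- (C4) The law: a weighted sum over finitely many configurations, all in the support. -/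
def LawProp : Prop :=
  ∀ (X K : Type) [Fintype X] [DecidableEq X] [Nonempty X] [Fintype K] [DecidableEq K]
    [Nonempty K] (B : Blk X) (Lam : ℝ) (N : ℕ)
    (D : X → X → ℝ) (cl : X → List X), B.OK Lam N D cl →
    ∃ (Ω : Type) (_ : Fintype Ω) (w : Ω → ℝ) (Gf : Ω → ℕ → X → ℕ)
      (qf : Ω → ℕ → Equiv.Perm X),
      (∀ ω, 0 ≤ w ω) ∧ ∑ ω, w ω = 1 ∧ (∀ ω, B.Supp N (Gf ω)) ∧
      ∀ f, B.EE K Lam N f = ∑ ω, w ω * f (Gf ω) (qf ω)

end Pool.Agent.AM
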