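import Pool.Agent.Lib.AM.Defs

set_option linter.all false

/-!
# AM: interface between the probabilistic part (one cluster) and the block algorithm
-/

namespace Pool.Agent.AM

open Finset Pool.Agent.MP_a4c1f4_lc

/-- Unit of the grid errors (for counts; multiplied by `B.R` for prices). -/
noncomputable def er (X K : Type) [Fintype X] [Fintype K] (Lam : ℝ) (N : ℕ) : ℝ :=
  10000 * Lam ^ 3 * ((Fintype.card X : ℝ) + 1) ^ 2 * ((Fintype.card K : ℝ) + 1) ^ 2 / (N : ℝ)

section
variable {X K : Type} [Fintype X] [DecidableEq X] [Nonempty X] [Fintype K] [DecidableEq K]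
  [Nonempty K]

/-- `P` bounds the optimum of the list `l` of requests standing in the cluster of label `C`, for
all configurations of the noise (values up to `N`). -/
structure Bd (B : Blk X) (sg : K → X) (Lam : ℝ) (N : ℕ) (cl : X → List X) (C : List X)
    (l : List K) (P : ℝ) : Prop where
  mem : ∀ x ∈ l, cl (sg x) = C
  len : l.length ≤ Fintype.card K
  bd : ∀ G : ℕ → X → ℕ, (∀ i z, G i z ≤ N) →
    optv (B.c sg Lam N cl G) (l.map Sum.inl) ≤ P
  er : B.R * er X K Lam N ≤ P

/-- The request `x` after `l` crosses the cells of field `i` (a dummy counts as crossing). -/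
def Blk.Crs (B : Blk X) (sg : K → X) (Lam : ℝ) (N : ℕ) (cl : X → List X) (G : ℕ → X → ℕ) (i : ℕ)
    (x : K) (l : List K) : Prop :=
  B.owT sg Lam N G i (sv (B.c sg Lam N cl G) x l) ≠ some (B.ow Lam N G i (sg x))

/-- Weight of the arrival of the request `x` after `l` at a real server in another cell of the
bottom field. -/
noncomputable def Blk.arr (B : Blk X) (sg : K → X) (Lam : ℝ) (N : ℕ) (cl : X → List X)
    (G : ℕ → X → ℕ) (x : K) (l : List K) : ℝ :=
  match sv (B.c sg Lam N cl G) x l with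
  | Sum.inl v => ind (B.ow Lam N G 0 (sg v) ≠ B.ow Lam N G 0 (sg x)) *
      (1 + B.exc Lam N G 0 (sg v))
  | Sum.inr _ => 0

end

/-- (I1) crossings of field `i`, weighted by `1 + exc_k` of another field `k`. -/
def CrossProp : Prop :=
  ∀ (X K : Type) [Fintype X] [DecidableEq X] [Nonempty X] [Fintype K] [DecidableEq K]
    [Nonempty K] (B : Blk X) (sg : K → X) (Lam : ℝ) (N : ℕ)
    (D : X → X → ℝ) (cl : X → List X) (C : List X) (l : List K) (P : ℝ),
    B.OK Lam N D cl → Bd B sg Lam N cl C l P → ∀ i k, i ≤ B.h → k ≤ B.h → i ≠ k →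
    B.E Lam N sT (fun G => psum (fun x l =>
      ind (B.Crs sg Lam N cl G i x l) * (1 + B.exc Lam N G k (sg x))) l) ≤ 200 / B.mu i * P

/-- (I2) crossings of field `i`. -/
def CrossProp0 : Prop :=
  ∀ (X K : Type) [Fintype X] [DecidableEq X] [Nonempty X] [Fintype K] [DecidableEq K]
    [Nonempty K] (B : Blk X) (sg : K → X) (Lam : ℝ) (N : ℕ)
    (D : X → X → ℝ) (cl : X → List X) (C : List X) (l : List K) (P : ℝ),
    B.OK Lam N D cl → Bd B sg Lam N cl C l P → ∀ i, i ≤ B.h →
    B.E Lam N sT (fun G => psum (fun x l => ind (B.Crs sg Lam N cl G i x l)) l) ≤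
      200 / B.mu i * P

/-- (I3) arrivals. -/
def ArrProp : Prop :=
  ∀ (X K : Type) [Fintype X] [DecidableEq X] [Nonempty X] [Fintype K] [DecidableEq K]
    [Nonempty K] (B : Blk X) (sg : K → X) (Lam : ℝ) (N : ℕ)
    (D : X → X → ℝ) (cl : X → List X) (C : List X) (l : List K) (P : ℝ),
    B.OK Lam N D cl → Bd B sg Lam N cl C l P →
    B.E Lam N sT (fun G => psum (fun x l => B.arr sg Lam N cl G x l) l) ≤ 200 / B.mu 0 * P

/-- (I4) a fixed pair of sites is cut by the cells of the bottom field. -/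
def CutProp : Prop :=
  ∀ (X : Type) [Fintype X] [DecidableEq X] [Nonempty X] (B : Blk X) (Lam : ℝ) (N : ℕ)
    (D : X → X → ℝ) (cl : X → List X), B.OK Lam N D cl → ∀ x o,
    B.E Lam N sT (fun G => ind (B.ow Lam N G 0 x ≠ B.ow Lam N G 0 o) *
      (1 + B.exc Lam N G 0 x)) ≤ 200 / B.mu 0 * B.dp 0 x o + 200 * (Lam / N)

/-- (I5) expected size of the cell of a fixed site. -/
def SizeProp : Prop :=
  ∀ (X : Type) [Fintype X] [DecidableEq X] [Nonempty X] (B : Blk X) (Lam : ℝ) (N : ℕ)
    (D : X → X → ℝ) (cl : X → List X), B.OK Lam N D cl → ∀ x,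
    B.E Lam N sT (fun G => 1 + B.exc Lam N G 0 x) ≤ 3

end Pool.Agent.AM
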