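import Pool.Agent.Lib.AM.SpecB

set_option linter.all false

/-!
# AM, part A, lemmas on a block (K form: requests and servers are copies, `sg : K → X`)

Throughout `m = card X`, `k = card K`, `θ = Lam / N`, `η = B.eta Lam N i = B.mu i * Lam / N`, and for a
fixed source `z` of a field `i`: `G_j = upd G i z j`, `c_j = B.c sg Lam N cl G_j`,
`δ_j = dl B sg Lam N G i z j`, and for a request `x` after the list `l'`: `U_j = pr c_j x l'` (price),
`y_j = sv c_j x l'` (new server). `x` is joined at `j` if `B.ow Lam N G_j i (sg x) = z` (monotone in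
`j`). The one-source inequalities are proved in abstract form in `SpecB.lean` (`CroB`, `ArB2`, `DLB`).
-/

namespace Pool.Agent.AM

open Finset Pool.Agent.MP_a4c1f4_lc

/-- Values up to `N`. -/
def Vl {X : Type} (N : ℕ) (G : ℕ → X → ℕ) : Prop := ∀ i z, G i z ≤ N

section
variable {X K : Type} [Fintype X] [DecidableEq X] [Nonempty X] [Fintype K] [DecidableEq K]
  [Nonempty K]

/-- Increment of the noise when the source `z` of field `i` goes from `j` to `j + 1`. -/
noncomputable def dl (B : Blk X) (sg : K → X) (Lam : ℝ) (N : ℕ) (G : ℕ → X → ℕ) (i : ℕ) (z : X)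
    (j : ℕ) (t : K ⊕ K) : ℝ :=
  B.potT sg Lam N (upd G i z (j + 1)) t - B.potT sg Lam N (upd G i z j) t

open Classical in
/-- An optimal assignment (list of servers). -/
noncomputable def mt {T : Type} (c : T → T → ℝ) (l : List T) : List T :=
  if h : ∃ τ, Adm l τ ∧ acost c l τ = optv c l then h.choose else []

/-- Near requests for the source `z` of field `i`. -/
def Blk.nea (B : Blk X) (sg : K → X) (D : X → X → ℝ) (i : ℕ) (z : X) (t : K ⊕ K) : Prop :=
  ∃ x, t = Sum.inl x ∧ D (sg x) z ≤ B.nr i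

/-- Prices and matching costs near the source `z` of field `i`. -/
noncomputable def Blk.Sz (B : Blk X) (sg : K → X) (Lam : ℝ) (N : ℕ) (D : X → X → ℝ)
    (cl : X → List X) (i : ℕ) (z : X) (G : ℕ → X → ℕ) (l : List K) : ℝ :=
  2 * psum (fun x l' => ind (D (sg x) z ≤ B.nr i) * pr (B.c sg Lam N cl G) x l') l +
    nearC (B.c sg Lam N cl G) (B.nea sg D i z) (l.map Sum.inl)
      (mt (B.c sg Lam N cl G) (l.map Sum.inl))

/-- Number of the far requests whose new server is owned by the source `z` of field `i`. -/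
noncomputable def Blk.Fz (B : Blk X) (sg : K → X) (Lam : ℝ) (N : ℕ) (D : X → X → ℝ)
    (cl : X → List X) (i : ℕ) (z : X) (G : ℕ → X → ℕ) (l : List K) : ℝ :=
  psum (fun x l' => ind (¬ D (sg x) z ≤ B.nr i ∧
    B.owT sg Lam N G i (sv (B.c sg Lam N cl G) x l') = some z)) l

/-- Far displacement for field `i`. -/
def Blk.FarE (B : Blk X) (sg : K → X) (Lam : ℝ) (N : ℕ) (D : X → X → ℝ) (cl : X → List X)
    (G : ℕ → X → ℕ) (i : ℕ) (x : K) (l : List K) : Prop :=
  ∃ v, sv (B.c sg Lam N cl G) x l = Sum.inl v ∧ B.nr i / 2 < D (sg x) (sg v)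

end

/-- File A/Bo.lean, from `FoAProp`, `FoBProp` (with `dp i`, `η > 0`, `g = G i`; in
`B.pot (upd G i z j)` only the summand of field `i` depends on `j`:
`(upd G i z j) i = Function.update (G i) z j`). Sure radius: `OK.sure`. -/
def BoProp : Prop :=
  ∀ (X K : Type) [Fintype X] [DecidableEq X] [Nonempty X] [Fintype K] [DecidableEq K]
    [Nonempty K] (B : Blk X) (sg : K → X) (Lam : ℝ) (N : ℕ)
    (D : X → X → ℝ) (cl : X → List X), B.OK Lam N D cl → ∀ i, i ≤ B.h →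
    ∀ (G : ℕ → X → ℕ) (z : X),
    0 < B.eta Lam N i ∧
    (∀ j r s, B.c sg Lam N cl (upd G i z (j + 1)) r s =
      B.c sg Lam N cl (upd G i z j) r s + dl B sg Lam N G i z j r - dl B sg Lam N G i z j s) ∧
    (∀ j t, 0 ≤ dl B sg Lam N G i z j t ∧ dl B sg Lam N G i z j t ≤ B.eta Lam N i ∧
      dl B sg Lam N G i z j t ≤ dl B sg Lam N G i z (j + 1) t) ∧
    (∀ j x, B.ow Lam N (upd G i z j) i (sg x) = z →
      dl B sg Lam N G i z j (Sum.inl x) = B.eta Lam N i) ∧
    (∀ j x, B.ow Lam N (upd G i z (j + 1)) i (sg x) ≠ z →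
      dl B sg Lam N G i z j (Sum.inl x) = 0) ∧
    (∀ j x, dl B sg Lam N G i z j (Sum.inr x) = 0) ∧
    (∀ j j' (x : X), j ≤ j' → B.ow Lam N (upd G i z j) i x = z →
      B.ow Lam N (upd G i z j') i x = z) ∧
    (Vl N G → ∀ j, j ≤ N → Vl N (upd G i z j)) ∧
    (Vl N G → ∀ x : X, D x (B.ow Lam N G i x) ≤ B.sr i ∧ D x (B.ow Lam N G i x) ≤ B.nr i) ∧
    0 ≤ B.sr i

/-- File A/Cn.lean, from `FoAProp`, `FoBProp`, `BoProp`. `G` has values up to `N`. Each field is
between `0` and `eta N = mu Lam`, so `0 ≤ pot ≤ R/2` (`OK.noise`), and `pot` is `1`-Lipschitz for `W`.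
So `c (inl x) (inl v) ≥ W x v` in one cluster, `≥ 3 R` in different clusters, `R ≤ c ≤ 3/2 R` for
dummies, `c (inr _) _ ≥ 0`. Last claim, `ψ = potT G_j' - potT G_j`: `ψ ≥ 0` (sum of increments
`≥ 0`); `ψ (inl x) = 0` if `x` is not owned by `z` at `j'` (all the increments are `0`);
`ψ (inl x) ≤ mu_i Lam ≤ R/2`; for `s = inl v` in the same cluster
`ψ x - ψ v = (F' x - F' v) - (F x - F v) ≤ 2 dp i x v ≤ 2 W x v ≤ 2 c_j`; in a different cluster or
for a dummy `ψ x - ψ s ≤ R/2 ≤ 2 c_j`. -/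
def CnProp : Prop :=
  ∀ (X K : Type) [Fintype X] [DecidableEq X] [Nonempty X] [Fintype K] [DecidableEq K]
    [Nonempty K] (B : Blk X) (sg : K → X) (Lam : ℝ) (N : ℕ)
    (D : X → X → ℝ) (cl : X → List X), B.OK Lam N D cl → ∀ G : ℕ → X → ℕ, Vl N G →
    (∀ x, 0 ≤ B.pot Lam N G x ∧ B.pot Lam N G x ≤ B.R / 2) ∧
    (∀ x v, |B.pot Lam N G x - B.pot Lam N G v| ≤ B.W x v) ∧
    (∀ r s, 0 ≤ B.c sg Lam N cl G r s) ∧
    (∀ x v, cl (sg x) = cl (sg v) →
      B.W (sg x) (sg v) ≤ B.c sg Lam N cl G (Sum.inl x) (Sum.inl v) ∧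
      B.c sg Lam N cl G (Sum.inl x) (Sum.inl v) ≤ 3 * B.W (sg x) (sg v)) ∧
    (∀ x v, B.R ≤ B.c sg Lam N cl G (Sum.inl x) (Sum.inr v) ∧
      B.c sg Lam N cl G (Sum.inl x) (Sum.inr v) ≤ 3 / 2 * B.R) ∧
    (∀ x v, cl (sg x) ≠ cl (sg v) → 3 * B.R ≤ B.c sg Lam N cl G (Sum.inl x) (Sum.inl v)) ∧
    (∀ i, i ≤ B.h → ∀ (z : X) (j j' : ℕ), j ≤ j' → j' ≤ N → ∀ (x : K) (s : K ⊕ K),
      0 ≤ B.potT sg Lam N (upd G i z j') s - B.potT sg Lam N (upd G i z j) s ∧
      (B.ow Lam N (upd G i z j') i (sg x) ≠ z →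
        B.potT sg Lam N (upd G i z j') (Sum.inl x) -
          B.potT sg Lam N (upd G i z j) (Sum.inl x) = 0) ∧
      (B.potT sg Lam N (upd G i z j') (Sum.inl x) - B.potT sg Lam N (upd G i z j) (Sum.inl x)) -
        (B.potT sg Lam N (upd G i z j') s - B.potT sg Lam N (upd G i z j) s) ≤
        2 * B.c sg Lam N cl (upd G i z j) (Sum.inl x) s)

/-- File A/Pn.lean, from `UsedProp`, `OptBasicProp`, `MonoProp` (with `T = K ⊕ K`, `card T = 2 k`,
so that lists of length `≤ k` satisfy the length conditions). `optv c [] = 0`. (2) telescoping.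
(3) `used c (x :: l) = insert (srv c x l) (used c l)` with `srv ∉ used` (`UsedProp`). -/
def PnProp : Prop :=
  ∀ (K : Type) [Fintype K] [DecidableEq K] [Nonempty K] (c : K ⊕ K → K ⊕ K → ℝ),
    (∀ r s, 0 ≤ c r s) →
    (∀ x l, l.length + 1 ≤ Fintype.card K → 0 ≤ pr c x l) ∧
    (∀ l, psum (fun x l' => pr c x l') l = optv c (l.map Sum.inl)) ∧
    (∀ (φ : K ⊕ K → ℝ) (l : List K), l.length ≤ Fintype.card K →
      ∑ s ∈ used c (l.map Sum.inl), φ s = psum (fun x l' => φ (sv c x l')) l)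

/-- File A/Sc.lean, from `UsedProp`, `OptBasicProp`, `CnProp`: the new server is a dummy or lies in the
cluster. By `UsedProp` there is an optimal assignment `τ` of `inl x :: l.map inl` with
`inl v ∈ τ` (as `τ.toFinset = insert (sv ..) (used ..)`). Suppose `cl (sg v) ≠ C`. `τ` has
`l.length + 1 ≤ k` entries, all different, one of them is `inl v`, so some dummy `inr d` is not in
`τ`. Replace the entry `inl v` by `inr d` (`τ.map`): again without duplicates, and the cost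
changes by `c r (inr d) - c r (inl v) ≤ 3/2 R - 3 R < 0` (`r = inl x'` with
`cl (sg x') = C ≠ cl (sg v)`): contradiction with `OptBasicProp` (1). -/
def ScAProp : Prop :=
  ∀ (X K : Type) [Fintype X] [DecidableEq X] [Nonempty X] [Fintype K] [DecidableEq K]
    [Nonempty K] (B : Blk X) (sg : K → X) (Lam : ℝ) (N : ℕ)
    (D : X → X → ℝ) (cl : X → List X), B.OK Lam N D cl → ∀ G : ℕ → X → ℕ, Vl N G →
    ∀ (C : List X) (x : K) (l : List K), cl (sg x) = C → (∀ y ∈ l, cl (sg y) = C) →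
    l.length + 1 ≤ Fintype.card K →
    ∀ v, sv (B.c sg Lam N cl G) x l = Sum.inl v → cl (sg v) = C

/-- File A/Fm.lean, from `BoProp`, `CnProp`. The family of costs of one source. `step`, `d0`, `d1`, `d2`,
`up`, `ce`, `co` from `BoProp`; `nn` from `CnProp` (3) for `upd G i z j` (`Vl`); `lip`: the sum telescopes to
`ψ r - ψ s` with `ψ = potT G_k - potT G_j`; for `r = inl x` `CnProp` (7), for `r = inr _` it is
`- ψ s ≤ 0 ≤ 2 c`. -/
def FmProp : Prop :=
  ∀ (X K : Type) [Fintype X] [DecidableEq X] [Nonempty X] [Fintype K] [DecidableEq K]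
    [Nonempty K] (B : Blk X) (sg : K → X) (Lam : ℝ) (N : ℕ)
    (D : X → X → ℝ) (cl : X → List X), B.OK Lam N D cl → ∀ i, i ≤ B.h →
    ∀ G : ℕ → X → ℕ, Vl N G → ∀ z : X,
    Fam1 (fun j => B.c sg Lam N cl (upd G i z j)) (fun j => dl B sg Lam N G i z j)
      (fun j t => ∃ x, t = Sum.inl x ∧ B.ow Lam N (upd G i z j) i (sg x) = z)
      (B.mu i * Lam / (N : ℝ)) N

/-- File A/Co.lean, from `CroB`, `FmProp`. One source, one request. `CroB` with `T = K ⊕ K`, request
`inl x`, list `l.map inl` (`prT .. = pr ..` and `srv .. = sv ..` by definition), `card T = 2 k`. If the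
request is joined and `Crs` at `j` then `cell j (inl x)` and not `cell j (y_j)` (otherwise
`owT y_j = some z = some (ow (sg x))`). -/
def CoAProp : Prop :=
  ∀ (X K : Type) [Fintype X] [DecidableEq X] [Nonempty X] [Fintype K] [DecidableEq K]
    [Nonempty K] (B : Blk X) (sg : K → X) (Lam : ℝ) (N : ℕ)
    (D : X → X → ℝ) (cl : X → List X), B.OK Lam N D cl → ∀ i, i ≤ B.h →
    ∀ G : ℕ → X → ℕ, Vl N G → ∀ (z : X) (x : K) (l : List K), l.length + 1 ≤ Fintype.card K →
    ∑ j ∈ range N, tw Lam N j * (ind (B.ow Lam N (upd G i z j) i (sg x) = z) *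
        ind (B.Crs sg Lam N cl (upd G i z j) i x l)) ≤
      1 / B.mu i * (∑ j ∈ range N, tw Lam N j * (ind (B.ow Lam N (upd G i z j) i (sg x) = z) *
        pr (B.c sg Lam N cl (upd G i z j)) x l) +
        2 * Real.exp (-Lam) * pr (B.c sg Lam N cl (upd G i z N)) x l) +
      4 * ((Fintype.card K : ℝ) + 1) * (Lam / (N : ℝ))

/-- File A/Cr.lean, from `TwProp`, `EbProp`, `ErProp`, `BoProp`, `CnProp`, `PnProp`, `CoAProp`. Crossing
inequality when field `i` has the product law. The integrand is the sum over `z` of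
`psum (ind (ow x = z) ind Crs w)`. For each `z` resample (`ErProp`; `w` does not change), pointwise (`G`
with values `< N`, `Vl N G`) `CoAProp` times `w G x ∈ [0, Lam + 1]`, summed over the requests
(all sublists have length `< l.length ≤ k`), and resample back. Sum over `z`. Virtual part:
`psum (w pr_N) ≤ (Lam+1) optv c_N l ≤ (Lam+1) P` (`Bd.bd`, `PnProp` (2)), `m` sources:
`2 m (Lam+1) exp (-Lam) P ≤ P/50` (`OK.hLamm`). Grid part: at most
`m * k * (Lam+1) * 4 (k+1) θ ≤ P/(100 mu i)` because `P ≥ R er` (`Bd.er`), `R ≥ 2 mu_i Lam` (`OK.noise`,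
all `mu > 0`), `er = 10000 Lam^3 (m+1)^2 (k+1)^2 / N`. -/
def CrProp : Prop :=
  ∀ (X K : Type) [Fintype X] [DecidableEq X] [Nonempty X] [Fintype K] [DecidableEq K]
    [Nonempty K] (B : Blk X) (sg : K → X) (Lam : ℝ) (N : ℕ)
    (D : X → X → ℝ) (cl : X → List X) (C : List X) (l : List K) (P : ℝ),
    B.OK Lam N D cl → Bd B sg Lam N cl C l P → ∀ i, i ≤ B.h → ∀ s : ℕ → Bool, s i = false →
    ∀ w : (ℕ → X → ℕ) → X → ℝ, (∀ G x, Vl N G → 0 ≤ w G x ∧ w G x ≤ Lam + 1) →
    (∀ G z j x, w (upd G i z j) x = w G x) →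
    B.E Lam N s (fun G => psum (fun x l' =>
        ind (B.Crs sg Lam N cl G i x l') * w G (sg x)) l) ≤
      1 / B.mu i * (B.E Lam N s (fun G => psum (fun x l' =>
        pr (B.c sg Lam N cl G) x l' * w G (sg x)) l) + P / 20)

/-- File A/Fa.lean, from `EbProp`, `BoProp`, `CnProp`, `PnProp`, `ScAProp`, `CrProp`. Far displacements.
By `OK.far` there are two cases. (a) `cl x = cl v → D x v ≤ nr i / 2`: by `ScAProp` the new server
`inl v` of a request of `l` satisfies `cl (sg v) = C = cl (sg x)`, so `FarE` never happens and the left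
side is `0 ≤ P/(..)` (`P ≥ R er ≥ 0`). (b) `f = fl i`: if `FarE` then `Crs f`: otherwise `x`, `v` have the
same owner in field `f`, `D x v ≤ 2 sr f ≤ nr i / 2` (`BoProp`, `OK`). So by `EbProp` (5) and `CrProp` for
`free s f`, `w = 1`: left side `≤ 2 (1/mu f) (P + P/20)` (`psum pr = optv ≤ P` by `PnProp` (2),
`Bd.bd`), and `mu f ≥ 16 Lam mu i`. -/
def FaProp : Prop :=
  ∀ (X K : Type) [Fintype X] [DecidableEq X] [Nonempty X] [Fintype K] [DecidableEq K]
    [Nonempty K] (B : Blk X) (sg : K → X) (Lam : ℝ) (N : ℕ)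
    (D : X → X → ℝ) (cl : X → List X) (C : List X) (l : List K) (P : ℝ),
    B.OK Lam N D cl → Bd B sg Lam N cl C l P → ∀ i, i ≤ B.h → ∀ s : ℕ → Bool,
    B.E Lam N s (fun G => psum (fun x l' => ind (B.FarE sg Lam N D cl G i x l')) l) ≤
      P / (4 * Lam * B.mu i)

/-- File A/Ss.lean, from `OptBasicProp`, `CnProp`, `PnProp`. By `OK.count`
`∑_z exp (-vb i z) ind (D x z ≤ nr i) ≤ 1` for every `x`. `pr ≥ 0`, `c ≥ 0`; exchange the sums:
the first part is `≤ 2 psum pr = 2 optv`, the second `≤ 2 acost c l (mt c l) = 2 optv`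
(`mt c l` is an optimal assignment by `OptBasicProp` (2), `l.length ≤ k ≤ card T`; it has the length
of `l`). -/
def SsProp : Prop :=
  ∀ (X K : Type) [Fintype X] [DecidableEq X] [Nonempty X] [Fintype K] [DecidableEq K]
    [Nonempty K] (B : Blk X) (sg : K → X) (Lam : ℝ) (N : ℕ)
    (D : X → X → ℝ) (cl : X → List X), B.OK Lam N D cl → ∀ i, i ≤ B.h →
    ∀ G : ℕ → X → ℕ, Vl N G → ∀ l : List K, l.length ≤ Fintype.card K →
    (∀ z, 0 ≤ B.Sz sg Lam N D cl i z G l) ∧
    ∑ z, Real.exp (- B.vb i z) * B.Sz sg Lam N D cl i z G l ≤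
      4 * optv (B.c sg Lam N cl G) (l.map Sum.inl)

/-- File A/Ds.lean, from `OptBasicProp`, `BoProp`, `FmProp`, `DLB`. Decorrelation for one source: `DLB` with
`T = K ⊕ K`, `v = vb i z` (`B.ex Lam N i z j` is `exj Lam N (vb i z) j` by definition), the list
`l.map inl`, `near = B.nea sg D i z`, `τ j = mt c_j (l.map inl)` (optimal by `OptBasicProp` (2)), and
`psum` over `l.map inl` rewritten as `psum` over `l` (induction on `l`). `near` holds for `inl x` joined at
`j ≤ N`: `BoProp` (9) for `upd G i z j`. `¬ near (inl x) ∧ cell j y` is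
`¬ D (sg x) z ≤ nr i ∧ owT y = some z`. Error: `η k (3 + 4 k) ≤ 4 (k+1)^2 η`. -/
def DsProp : Prop :=
  ∀ (X K : Type) [Fintype X] [DecidableEq X] [Nonempty X] [Fintype K] [DecidableEq K]
    [Nonempty K] (B : Blk X) (sg : K → X) (Lam : ℝ) (N : ℕ)
    (D : X → X → ℝ) (cl : X → List X), B.OK Lam N D cl → ∀ i, i ≤ B.h →
    ∀ G : ℕ → X → ℕ, Vl N G → ∀ (z : X) (l : List K), l.length ≤ Fintype.card K →
    ∑ j ∈ range N, tw Lam N j * (B.ex Lam N i z j *
        psum (fun x l' => ind (B.ow Lam N (upd G i z j) i (sg x) = z) *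
          pr (B.c sg Lam N cl (upd G i z j)) x l') l) ≤
      0.24 * Real.exp (- B.vb i z) *
        ∑ j ∈ range N, tw Lam N j * B.Sz sg Lam N D cl i z (upd G i z j) l +
      B.mu i * (Lam + 1) *
        ∑ j ∈ range N, tw Lam N j * B.Fz sg Lam N D cl i z (upd G i z j) l +
      4 * ((Fintype.card K : ℝ) + 1) ^ 2 * B.eta Lam N i

/-- File A/De.lean, from `TwProp`, `EbProp`, `ErProp`, `BoProp`, `CnProp`, `PnProp`, `SsProp`, `DsProp`. Field `i`
has the product law. `psum (pr exc_i) = ∑_z ex i z (G i z) psum (ind (ow x = z) pr)`. For every `z`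
resample the source `z` (`(upd G i z j) i z = j`), `DsProp` pointwise, resample back: the expectation is
at most `∑_z (0.24 exp (-vb z) E Sz + mu i (Lam+1) E Fz + 4 (k+1)^2 η)`. `SsProp` and `Bd.bd`: the first
part is `≤ 0.96 P`. Second part: for every `x`, `l'`:
`∑_z ind (¬ D x z ≤ nr i ∧ owT y = some z) ≤ ind (FarE)`: at most one `z`, and then `y = inl v`,
`D v z ≤ sr i ≤ nr i / 8` (`BoProp`, `OK.srnr`), so `D x v ≥ D x z - D v z > nr i / 2`. Error:
`4 m (k+1)^2 η ≤ P/100` (`η = mu i Lam / N ≤ R/(2N)`, `P ≥ R er`). -/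
def DeProp : Prop :=
  ∀ (X K : Type) [Fintype X] [DecidableEq X] [Nonempty X] [Fintype K] [DecidableEq K]
    [Nonempty K] (B : Blk X) (sg : K → X) (Lam : ℝ) (N : ℕ)
    (D : X → X → ℝ) (cl : X → List X) (C : List X) (l : List K) (P : ℝ),
    B.OK Lam N D cl → Bd B sg Lam N cl C l P → ∀ i, i ≤ B.h → ∀ s : ℕ → Bool, s i = false →
    B.E Lam N s (fun G => psum (fun x l' =>
        pr (B.c sg Lam N cl G) x l' * B.exc Lam N G i (sg x)) l) ≤
      0.97 * P + B.mu i * (Lam + 1) *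
        B.E Lam N s (fun G => psum (fun x l' => ind (B.FarE sg Lam N D cl G i x l')) l)

/-- File A/Ao.lean, from `ArB2`, `FmProp`. Arrivals, one source, one request: `ArB2` with `T = K ⊕ K`,
`v = vb i z`, request `inl x`, list `l.map inl`. The indicator on the left is
`ind (¬ cell j (inl x) ∧ cell j (y_j))`. Error: `0.1 exp (-v) θ (1 + 2 k) ≤ (k + 1) θ`. -/
def AoProp : Prop :=
  ∀ (X K : Type) [Fintype X] [DecidableEq X] [Nonempty X] [Fintype K] [DecidableEq K]
    [Nonempty K] (B : Blk X) (sg : K → X) (Lam : ℝ) (N : ℕ)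
    (D : X → X → ℝ) (cl : X → List X), B.OK Lam N D cl → ∀ i, i ≤ B.h →
    ∀ G : ℕ → X → ℕ, Vl N G → ∀ (z : X) (x : K) (l : List K), l.length + 1 ≤ Fintype.card K →
    ∑ j ∈ range N, tw Lam N j * (B.ex Lam N i z j *
        ind (B.owT sg Lam N (upd G i z j) i (sv (B.c sg Lam N cl (upd G i z j)) x l) = some z ∧
          B.ow Lam N (upd G i z j) i (sg x) ≠ z)) ≤
      0.1 * Real.exp (- B.vb i z) / B.mu i *
        ∑ j ∈ range N, tw Lam N j * pr (B.c sg Lam N cl (upd G i z j)) x l +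
      ((Fintype.card K : ℝ) + 1) * (Lam / (N : ℝ))

/-- File A/Ct.lean, from `TwProp`, `TexCProp`, `FoAProp`. Cuts, one source (sites only). Let `J` be the
set of the `j < N` with `x` joined, `o` not joined at `j`. If `J` is empty the left side is `0`. Let `a` be
its least element. For `j ∈ J`: `η (j - a) ≤ 2 dp i x o` (`FoAProp` (3) for `a`, `j`), so `J` has at
most `2 dp/η + 1` elements, `tw j ≤ tw a`, `ex j ≤ ex a + θ (j - a) ≤ ex a + 2 dp/mu ≤ ex a + 1`. So
the left side is at most `(2 dp/η + 1) tw a (2 + ex a) ≤ 2 (2 dp/η + 1) tw a (1 + ex a)`. By `TexCProp`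
(2): `tw a (1 + ex a) ≤ θ (∑_{j ∈ Ico a N} tw j (1 + ex j) + 2 (Lam+1) exp (-Lam))` (`ex` monotone,
`ex a ≤ Lam`), and the `j ∈ Ico a N` are joined. `θ/η = 1/mu i`. -/
def CtProp : Prop :=
  ∀ (X : Type) [Fintype X] [DecidableEq X] [Nonempty X] (B : Blk X) (Lam : ℝ) (N : ℕ)
    (D : X → X → ℝ) (cl : X → List X), B.OK Lam N D cl → ∀ i, i ≤ B.h →
    ∀ G : ℕ → X → ℕ, ∀ (z x o : X), 2 * B.dp i x o ≤ B.mu i →
    ∑ j ∈ range N, tw Lam N j * ((1 + B.ex Lam N i z j) *
        ind (B.ow Lam N (upd G i z j) i x = z ∧ B.ow Lam N (upd G i z j) i o ≠ z)) ≤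
      2 * (2 * B.dp i x o / B.mu i + Lam / (N : ℝ)) *
        (∑ j ∈ range N, tw Lam N j * ((1 + B.ex Lam N i z j) *
          ind (B.ow Lam N (upd G i z j) i x = z)) + 2 * (Lam + 1) * Real.exp (-Lam))

/-- File A/Sf.lean, from `TwProp`, `TexAProp`, `EbProp`, `ErProp`, `FoAProp` (sites only). Field `i` has the
product law. `exc_i x = ∑_z ind (ow x = z) ex i z (G i z)`; resample the source `z`; joined implies
`D x z ≤ sr i ≤ nr i` (`OK.sure`, `OK.srnr`), so the expectation is at most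
`∑_z ind (D x z ≤ nr i) ∑_j tw j ex j ≤ 0.15 ∑_z ind (D x z ≤ nr i) exp (-vb i z) ≤ 0.15`. -/
def SfProp : Prop :=
  ∀ (X : Type) [Fintype X] [DecidableEq X] [Nonempty X] (B : Blk X) (Lam : ℝ) (N : ℕ)
    (D : X → X → ℝ) (cl : X → List X), B.OK Lam N D cl → ∀ i, i ≤ B.h → ∀ s : ℕ → Bool,
    s i = false → ∀ x, B.E Lam N s (fun G => B.exc Lam N G i x) ≤ 0.15

/-! ## The five statements of `Iface.lean`

`CrossProp` (file A/Cross.lean), from `TexCProp`, `EbProp`, `CnProp`, `PnProp`, `CrProp`, `FaProp`,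
`DeProp`. By `EbProp` (5) the left side is at most `2 E_{s'} (..)`, `s' = free sT i`; `CrProp` for `s'` with
`w G x = 1 + exc_k x` (it is between `1` and `Lam + 1`, `TexCProp` (4), and does not depend on field `i`
because `i ≠ k`): at most `(2/mu i) (E_{s'} psum (pr (1 + exc_k)) + P/20)`. Here
`psum pr = optv ≤ P`, and `E_{s'} psum (pr exc_k) ≤ 2 E_{free s' k} psum (pr exc_k)
≤ 2 (0.97 P + mu k (Lam+1) P/(4 Lam mu k)) ≤ 3 P` (`DeProp`, `FaProp`). Total `≤ 200/mu i * P`.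

`CrossProp0` (file A/Cross0.lean), from `EbProp`, `CnProp`, `PnProp`, `CrProp`: the same with `w = 1`.

`ArrProp` (file A/Arr.lean), from `TwProp`, `TexCProp`, `EbProp`, `ErProp`, `BoProp`, `CnProp`, `PnProp`,
`CrProp`, `FaProp`, `AoProp`. With `s' = free sT 0`: left side `≤ 2 E_{s'} (..)`, and
`arr ≤ ind (Crs 0) + ∑_z ex 0 z (G 0 z) I_z`, `I_z = ind (owT 0 y = some z ∧ ow 0 x ≠ z)`. First part:
`CrProp`, `w = 1`: `≤ 1.05 P/mu 0`. The `z` with `D x z ≤ nr 0`: resample `z`, `AoProp`, resample back: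
`≤ 0.1/mu 0 * E psum pr + m k (k+1) θ ≤ 0.2 P/mu 0` (`OK.count`, `P ≥ R er`, `R ≥ 2 mu 0 Lam`). The `z`
with `D x z > nr 0`: `ex ≤ Lam` and the sum over `z` of `I_z` is at most `ind (FarE 0)` (see `DeProp`): at
most `Lam P/(4 Lam mu 0)` (`FaProp`).

`CutProp` (file A/Cut.lean), from `TwProp`, `EbProp`, `ErProp`, `CtProp`, `SfProp`, `SizeProp`, `TexCProp`. If
`2 dp 0 x o > mu 0`: left side `≤ 3 ≤ 6 dp/mu 0` (`SizeProp`). Otherwise with `s' = free sT 0` left side
`≤ 2 E_{s'} ∑_z ind (ow x = z ∧ ow o ≠ z) (1 + ex 0 z (G 0 z))`; resample, `CtProp`, resample back: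
`≤ 4 (2 dp/mu 0 + θ) (E_{s'} (1 + exc_0 x) + 2 m (Lam+1) exp (-Lam)) ≤ 4 (2 dp/mu 0 + θ) (1.15 + 0.02)`.

`SizeProp` (file A/Size.lean), from `TexCProp`, `EbProp`, `SfProp`: `1 + 2 * 0.15 ≤ 3`.
-/

end Pool.Agent.AM
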