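import Pool.Agent.Lib.AM.SpecA
import Pool.Agent.Lib.AM.A.Mir

set_option autoImplicit false
set_option linter.all false

/-!
# AM, SpecB: one source (abstract), with proofs in words

`T` is any finite type (the servers with the dummies), `c j` the cost when the source has the value
`j` (grid), `δ j` the change of the field from `j` to `j + 1`, `cell j` the cell of the source.
Write `U j x l = prT (c j) x l`, `y j = srv (c j) x l`, `n j l = ∑ s ∈ used (c j) l, δ j s`
(`0 ≤ n j l ≤ eta * card T`), `V j l = optv (c j) l`.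
Convention: file `AM/B/Y.lean`, theorem `yP : …`, the used Props are hypotheses in the order given.
The Props `UsedProp`, `MonoProp`, `StepProp`, `OptBasicProp` are in `MP_a4c1f4_lc/Spec.lean` (proved
there; take them as hypotheses), `MirProp`, `NetProp` in `AM/A/Mir.lean`, `TwProp`, `TexAProp`,
`TexBProp`, `TexCProp`, `TabProp` and `exj` in `AM/SpecA.lean`.
-/

namespace Pool.Agent.AM

open Finset Pool.Agent.MP_a4c1f4_lc

/-- A family of costs depending on the value `j` of one source. -/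
structure Fam1 {T : Type} (c : ℕ → T → T → ℝ) (δ : ℕ → T → ℝ) (cell : ℕ → T → Prop)
    (eta : ℝ) (N : ℕ) : Prop where
  eta0 : 0 < eta
  step : ∀ j r s, c (j + 1) r s = c j r s + δ j r - δ j s
  d0 : ∀ j s, 0 ≤ δ j s
  d1 : ∀ j s, δ j s ≤ eta
  d2 : ∀ j s, δ j s ≤ δ (j + 1) s
  nn : ∀ j, j ≤ N → ∀ r s, 0 ≤ c j r s
  up : ∀ j s, cell j s → cell (j + 1) s
  ce : ∀ j s, cell j s → δ j s = eta
  co : ∀ j s, ¬ cell (j + 1) s → δ j s = 0
  lip : ∀ j k, j ≤ k → k ≤ N → ∀ r s, ∑ i ∈ Ico j k, (δ i r - δ i s) ≤ 2 * c j r s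

/-- Price of the request `x` after `l`. -/
noncomputable def prT {T : Type} (c : T → T → ℝ) (x : T) (l : List T) : ℝ :=
  optv c (x :: l) - optv c l

/-- Part of the cost of a matching at the requests near the source, doubled. -/
noncomputable def nearC {T : Type} (c : T → T → ℝ) (near : T → Prop) (l τ : List T) : ℝ :=
  (List.zipWith (fun x v => ind (near x) * (2 * c x v)) l τ).sum

/-- (PsB) Sums over the requests. File `B/Ps.lean`, `psP : UsedProp → PsB`. PROOF. Induction on `l`.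
(1), (2) clear. (3) `used c (x :: l) = insert (srv c x l) (used c l)` by definition (`srv` unfolds to
`pick`), `srv c x l ∉ used c l` by `UsedProp` (`l.length + 1 ≤ card T`), `Finset.sum_insert`.
(4) telescoping, `optv c [] = 0` (the only admissible `τ` is `[]`; `optv` is `sInf {0}`; compare
`MP_a4c1f4_lc/Used.lean`, `used_isOpt_nil`). (5) clear. (6) clear. -/
def PsB : Prop :=
  (∀ (S : Type) (f g : S → List S → ℝ) (l : List S), (∀ x l', f x l' ≤ g x l') →
    psum f l ≤ psum g l) ∧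
  (∀ (S : Type) (f : S → ℝ) (l : List S), psum (fun x _ => f x) l = (l.map f).sum) ∧
  (∀ (T : Type) [Fintype T] [DecidableEq T] [Nonempty T] (c : T → T → ℝ) (f : T → ℝ) (l : List T),
    l.length ≤ Fintype.card T → ∑ s ∈ used c l, f s = psum (fun x l' => f (srv c x l')) l) ∧
  (∀ (T : Type) [Fintype T] [DecidableEq T] (c : T → T → ℝ) (l : List T),
    psum (fun x l' => prT c x l') l = optv c l) ∧
  (∀ (S T : Type) (h : S → T) (f : T → List T → ℝ) (l : List S),
    psum (fun x l' => f (h x) (l'.map h)) l = psum f (l.map h)) ∧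
  (∀ (S : Type) (f g : S → List S → ℝ) (a : ℝ) (l : List S),
    psum (fun x l' => f x l' + a * g x l') l = psum f l + a * psum g l)

/-- (OneB) One request. File `B/One.lean`, `oneP : MonoProp → MirProp → OneB`. PROOF. `U k ≥ 0` for
`k ≤ N` (`MonoProp` (1)), `0 ≤ n k ≤ eta * card T` (`d0`, `d1`). Put `w k = U k - n k`. By `MirProp`
`w (k+1) ≤ w k + δ k x - δ k (y k)`. Let `J k` be `¬ cell k x ∧ cell (k+1) x` (true for at most one
`k`, since `cell` is increasing: `∑ k ∈ Ico a b, ind (J k) ≤ 1`, by induction or as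
`ind (J k) = ind (cell (k+1) x) - ind (cell k x)`, telescoping, `≤ 1`).
(a) Always `δ k x - δ k (y k) ≤ eta * ind (cell k x ∧ ¬ cell k (y k)) + eta * ind (J k)`: if
`cell k x`: `δ k x = eta` and `δ k (y k) = eta` if `cell k (y k)`, `≥ 0` otherwise; if `¬ cell k x`
and `cell (k+1) x`: `≤ eta`; if `¬ cell (k+1) x` (then `¬ cell k x`): `δ k x = 0`, `≤ 0`. Sum over
`Ico a b`: `w b ≤ w a + eta ∑ .. + eta`, and `U b ≤ w b + eta card T`, `w a ≤ U a`.
(b) Let `b'` be the number in `[a, b]` such that `¬ cell k x` for `a ≤ k < b'`, and `b' = b` or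
`cell b' x`. If `b' = a` the sum is `0`. The terms with `k ≥ b'` are `0`. For `k + 1 < b'`, `k ≥ a`:
`¬ cell (k+1) x`, `δ k x = 0`, so `eta * ind (cell k (y k)) ≤ δ k (y k) ≤ w k - w (k+1)`.
So `eta ∑_{k ∈ Ico a b'} ≤ eta + w a - w (b'-1) ≤ eta + U a + eta * card T`. -/
def OneB : Prop :=
  ∀ (T : Type) [Fintype T] [DecidableEq T] [Nonempty T] (c : ℕ → T → T → ℝ) (δ : ℕ → T → ℝ)
    (cell : ℕ → T → Prop) (eta : ℝ) (N : ℕ) (x : T) (l : List T) (a b : ℕ),
    Fam1 c δ cell eta N → l.length + 1 ≤ Fintype.card T → a ≤ b → b ≤ N →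
    prT (c b) x l ≤ prT (c a) x l + eta * (1 + Fintype.card T) +
      eta * ∑ k ∈ Ico a b, ind (cell k x ∧ ¬ cell k (srv (c k) x l)) ∧
    eta * ∑ k ∈ Ico a b, ind (¬ cell k x ∧ cell k (srv (c k) x l)) ≤
      prT (c a) x l + eta * (1 + Fintype.card T)

/-- (NetB) File `B/Net.lean`, `netBP : PsB → NetProp → NetB`. PROOF. `X k = psum (ind (cell k x)) l`,
`Y k = psum (ind (cell k (srv (c k) x l'))) l`, so the summand is `X k - Y k` (for every request
`ind (p ∧ ¬ q) - ind (¬ p ∧ q) = ind p - ind q`; `PsB` (6)). `0 ≤ X k ≤ l.length`, `0 ≤ Y k`.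
`eta X k ≤ (l.map (δ k)).sum` (`ce`, `d0`), and `δ k s ≤ eta * ind (cell (k+1) s)` (`co`, `d1`), so
`∑ s ∈ used (c (k+1)) l, δ k s ≤ eta Y (k+1)` (`PsB` (3)). With `NetProp`:
`eta (X k - Y (k+1)) ≤ V (k+1) - V k`. For `a < b`:
`∑_{k ∈ Ico a b} (X k - Y k) = X (b-1) - Y a + ∑_{k ∈ Ico a (b-1)} (X k - Y (k+1))` (induction on
`b`). -/
def NetB : Prop :=
  ∀ (T : Type) [Fintype T] [DecidableEq T] [Nonempty T] (c : ℕ → T → T → ℝ) (δ : ℕ → T → ℝ)
    (cell : ℕ → T → Prop) (eta : ℝ) (N : ℕ) (l : List T) (a b : ℕ),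
    Fam1 c δ cell eta N → l.length ≤ Fintype.card T → a < b → b ≤ N →
    eta * ∑ k ∈ Ico a b, psum (fun x l' => ind (cell k x ∧ ¬ cell k (srv (c k) x l')) -
      ind (¬ cell k x ∧ cell k (srv (c k) x l'))) l ≤
      optv (c (b - 1)) l - optv (c a) l + eta * l.length

/-- (MatB) File `B/Mat.lean`, `matP : OptBasicProp → MatB`. PROOF. `c b r s = c a r s +
∑_{i ∈ Ico a b} (δ i r - δ i s)` (induction). `V b ≤ acost (c b) l τ = acost (c a) l τ +
(zipWith (fun x v => ∑_{i ∈ Ico a b} (δ i x - δ i v)) l τ).sum`, and the summand is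
`≤ ind (near x) * (2 * c a x v)`: if `near x` this is `lip`; otherwise `¬ cell b x` and so
`¬ cell (i+1) x` for `i < b` (`up`), `δ i x = 0` (`co`), `δ i v ≥ 0`. -/
def MatB : Prop :=
  ∀ (T : Type) [Fintype T] [DecidableEq T] [Nonempty T] (c : ℕ → T → T → ℝ) (δ : ℕ → T → ℝ)
    (cell : ℕ → T → Prop) (eta : ℝ) (N : ℕ) (near : T → Prop) (l τ : List T) (a b : ℕ),
    Fam1 c δ cell eta N → a ≤ b → b ≤ N → (∀ x ∈ l, cell b x → near x) → Adm l τ →
    acost (c a) l τ = optv (c a) l → optv (c b) l - optv (c a) l ≤ nearC (c a) near l τ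

/-- (DecB) The deterministic one-source decorrelation. File `B/Dec.lean`,
`decP : MonoProp → PsB → OneB → NetB → MatB → DecB`. PROOF. For every request (a suffix `x :: l'` of
`l`; `l'.length + 1 ≤ card T`; prove it by induction on `l` or as `psum` of termwise inequalities on the
suffixes) `OneB` (a), times `ind (cell b x) ≤ ind (near x)`:
`ind (cell b x) U b ≤ ind (near x) U a + eta (1 + card T) + eta ∑_k ind (cell k x ∧ ¬ cell k y)`.
Sum over the requests; `∑ ind (cell ∧ ¬ cell) = ∑ ind (¬ cell ∧ cell) + ∑ (difference)`; the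
difference is `NetB`, and `V (b-1) - V a ≤ nearC (c a) near l τ` by `MatB` (with `b - 1`). The sum of
`ind (¬ cell k x ∧ cell k y)`: for `near x` by `OneB` (b), for `¬ near x` it is at most
`∑_k ind (¬ near x ∧ cell k y)`. Total error `eta l.length ((1 + card T) + 1 + (1 + card T))`. -/
def DecB : Prop :=
  ∀ (T : Type) [Fintype T] [DecidableEq T] [Nonempty T] (c : ℕ → T → T → ℝ) (δ : ℕ → T → ℝ)
    (cell : ℕ → T → Prop) (eta : ℝ) (N : ℕ) (near : T → Prop) (l τ : List T) (a b : ℕ),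
    Fam1 c δ cell eta N → l.length ≤ Fintype.card T → a < b → b ≤ N →
    (∀ k, k ≤ N → ∀ x ∈ l, cell k x → near x) → Adm l τ → acost (c a) l τ = optv (c a) l →
    psum (fun x l' => ind (cell b x) * prT (c b) x l') l ≤
      2 * psum (fun x l' => ind (near x) * prT (c a) x l') l + nearC (c a) near l τ +
      eta * ∑ k ∈ Ico a b, psum (fun x l' => ind (¬ near x ∧ cell k (srv (c k) x l'))) l +
      eta * l.length * (3 + 2 * Fintype.card T)

/-- (CroB) One request crosses. File `B/Cro.lean`, `croP : MonoProp → StepProp → TwProp → TabProp → CroB`.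
PROOF. Compare `MP_a4c1f4_lc/OneVar.lean`. If `cell j x` fails for all `j < N` the left side is `0`,
all the terms on the right are `≥ 0` (`U j ≥ 0` for `j ≤ N` by `MonoProp`, `tw ≥ 0`). Otherwise let
`θ < N` be the least `j` with `cell j x`; `cell j x` iff `θ ≤ j` (`up`). `TabProp` with `a = θ`,
`B = card T`, `M j = n j`, `far j = ind (¬ cell j (y j))`: `0 ≤ M j ≤ eta card T` (`d0`, `d1`), and by
`StepProp` for `θ ≤ j < N`: `(U + M) (j+1) - (U + M) j ≥ δ j x - δ j (y (j+1)) = eta - δ j (y (j+1))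
≥ eta * far (j+1)` (`ce` for `x`, `co` and `d1` for `y (j+1)`). -/
def CroB : Prop :=
  ∀ (T : Type) [Fintype T] [DecidableEq T] [Nonempty T] (c : ℕ → T → T → ℝ) (δ : ℕ → T → ℝ)
    (cell : ℕ → T → Prop) (mu Lam : ℝ) (N : ℕ) (x : T) (l : List T),
    24 ≤ Lam → Lam ^ 2 ≤ (N : ℝ) → 0 < mu → Fam1 c δ cell (mu * Lam / N) N →
    l.length + 1 ≤ Fintype.card T →
    ∑ j ∈ range N, tw Lam N j * ind (cell j x ∧ ¬ cell j (srv (c j) x l)) ≤
      1 / mu * (∑ j ∈ range N, tw Lam N j * (ind (cell j x) * prT (c j) x l) +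
        2 * Real.exp (- Lam) * prT (c N) x l) +
      2 * (Lam / N) * (1 + Fintype.card T)

/-- (ArB) One request arrives in the cell. File `B/Ar.lean`,
`arP : OneB → TwProp → TexAProp → TexCProp → ArB`. PROOF. The terms with `j ≤ a` vanish
(`Lam j/N ≤ Lam a/N ≤ 1`, so `exj = 0`). For the others `TexAProp` (2):
`tw j * exj j ≤ 0.06 (Lam/N) exp (-v)`, and `OneB` (b) for `Ico a N`: the sum is at most
`0.06 (Lam/N) exp (-v) (U a + eta (1 + card T))/eta`, `(Lam/N)/eta = 1/mu`. -/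
def ArB : Prop :=
  ∀ (T : Type) [Fintype T] [DecidableEq T] [Nonempty T] (c : ℕ → T → T → ℝ) (δ : ℕ → T → ℝ)
    (cell : ℕ → T → Prop) (mu Lam v : ℝ) (N a : ℕ) (x : T) (l : List T),
    24 ≤ Lam → Lam ^ 2 ≤ (N : ℝ) → 0 < mu → 0 ≤ v → Fam1 c δ cell (mu * Lam / N) N →
    l.length + 1 ≤ Fintype.card T → a < N → Lam * a / N ≤ 1 →
    ∑ j ∈ range N, tw Lam N j * (exj Lam N v j * ind (¬ cell j x ∧ cell j (srv (c j) x l))) ≤
      0.06 / mu * Real.exp (- v) * (prT (c a) x l + mu * Lam / N * (1 + Fintype.card T))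

/-- (ArB2) Averaged over `a`. File `B/Ar2.lean`, `ar2P : MonoProp → TwProp → TexCProp → ArB → ArB2`.
PROOF. Multiply `ArB` by `tw a * ind (Lam a/N ≤ 1)` and sum over `a < N` (`TexCProp` (1): the left side,
which is `≥ 0`, gets a factor `≥ 5/8`; the sum of the weights is `≤ 1`; `U a ≥ 0` by `MonoProp`, so the
indicator can be dropped on the right): `left ≤ (8/5)(0.06/mu) exp (-v) (∑ tw a U a + …)`. -/
def ArB2 : Prop :=
  ∀ (T : Type) [Fintype T] [DecidableEq T] [Nonempty T] (c : ℕ → T → T → ℝ) (δ : ℕ → T → ℝ)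
    (cell : ℕ → T → Prop) (mu Lam v : ℝ) (N : ℕ) (x : T) (l : List T),
    24 ≤ Lam → Lam ^ 2 ≤ (N : ℝ) → 0 < mu → 0 ≤ v → Fam1 c δ cell (mu * Lam / N) N →
    l.length + 1 ≤ Fintype.card T →
    ∑ j ∈ range N, tw Lam N j * (exj Lam N v j * ind (¬ cell j x ∧ cell j (srv (c j) x l))) ≤
      0.1 / mu * Real.exp (- v) *
        (∑ j ∈ range N, tw Lam N j * prT (c j) x l + mu * Lam / N * (1 + Fintype.card T))

/-- (DLB) The weighted one-source decorrelation. File `B/DL.lean`,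
`dlP : MonoProp → TwProp → TexAProp → TexBProp → TexCProp → DecB → DLB`. PROOF. Let
`eps = 0.15 exp (-v)`, so `∑_{j<N} tw j exj j ≤ eps ≤ 1` (`TexAProp` (1)). Let `a < N` with
`Lam a/N ≤ 1`. If `exj j ≠ 0` then `Lam j/N > 2` (`TexCProp` (5)), so `a < j`, and `DecB` gives
`∑_j tw j exj j psum (ind (cell j x) U j) ≤ eps (2 psum (ind near U a) + nearC (c a) near l (τ a)) +
eta ∑_{j<N} tw j exj j ∑_{k<j} far k + eps eta l.length (3 + 2 card T)`,
`far k = psum (ind (¬ near x ∧ cell k y))` (`Ico a j ⊆ range j`; all the terms are `≥ 0`: `U a ≥ 0` by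
`MonoProp`, `c a ≥ 0`). Exchange: `∑_{j<N} tw j exj j ∑_{k<j} far k =
∑_{k<N} far k ∑_{j ∈ Ico (k+1) N} tw j exj j ≤ ∑_{k<N} far k tw k (N/Lam)(exj k + 1)` (`TexBProp`),
`exj k + 1 ≤ Lam + 1`, `eta N/Lam = mu`. Multiply by `tw a ind (Lam a/N ≤ 1)`, sum over `a < N`, divide
by the sum `p ∈ [5/8, 1]` of these weights (`TexCProp` (1)): `1/p ≤ 8/5` in the first term, the other
terms do not depend on `a`. -/
def DLB : Prop :=
  ∀ (T : Type) [Fintype T] [DecidableEq T] [Nonempty T] (c : ℕ → T → T → ℝ) (δ : ℕ → T → ℝ)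
    (cell : ℕ → T → Prop) (mu Lam v : ℝ) (N : ℕ) (near : T → Prop) (l : List T)
    (τ : ℕ → List T), 24 ≤ Lam → Lam ^ 2 ≤ (N : ℝ) → 0 < mu → 0 ≤ v →
    Fam1 c δ cell (mu * Lam / N) N → l.length ≤ Fintype.card T →
    (∀ k, k ≤ N → ∀ x ∈ l, cell k x → near x) →
    (∀ j, j < N → Adm l (τ j) ∧ acost (c j) l (τ j) = optv (c j) l) →
    ∑ j ∈ range N, tw Lam N j *
        (exj Lam N v j * psum (fun x l' => ind (cell j x) * prT (c j) x l') l) ≤
      0.24 * Real.exp (- v) * (∑ j ∈ range N, tw Lam N j *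
        (2 * psum (fun x l' => ind (near x) * prT (c j) x l') l + nearC (c j) near l (τ j))) +
      mu * (Lam + 1) * ∑ j ∈ range N, tw Lam N j *
        psum (fun x l' => ind (¬ near x ∧ cell j (srv (c j) x l'))) l +
      mu * Lam / N * l.length * (3 + 2 * Fintype.card T)

/-- (CuB) A fixed pair is cut, one source. File `B/Cu.lean`,
`cuP : TwProp → TexAProp → TexCProp → CuB`. `Cx`, `Co` are the sets of the values `j` for which the
source owns `x`, resp. `o`; `K` a bound of the number of the values in `Cx` and not in `Co`. PROOF. If `Cx j`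
fails for all `j < N` the left side is `0`. Let `θ` be the least `j` with `Cx j`. All `j` in the sum are
`≥ θ`, `tw j ≤ tw θ` (`TwProp`), so the sum with weight `1` is at most
`K tw θ ≤ K (Lam/N)(∑_{Ico θ N} tw + 2 exp (-Lam))` (`TexCProp` (2)) and
`∑_{Ico θ N} tw = ∑ tw ind (Cx j)`. The sum with weight `exj` is `≤ K 0.06 (Lam/N) exp (-v)`
(`TexAProp` (2)). -/
def CuB : Prop :=
  ∀ (Cx Co : ℕ → Prop) (K Lam v : ℝ) (N : ℕ), 24 ≤ Lam → Lam ^ 2 ≤ (N : ℝ) → 0 ≤ v → 0 ≤ K →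
    (∀ j, Cx j → Cx (j + 1)) → ∑ j ∈ range N, ind (Cx j ∧ ¬ Co j) ≤ K →
    ∑ j ∈ range N, tw Lam N j * ((1 + exj Lam N v j) * ind (Cx j ∧ ¬ Co j)) ≤
      K * (Lam / N) * (∑ j ∈ range N, tw Lam N j * ind (Cx j) + 2 * Real.exp (- Lam)) +
      K * 0.06 * (Lam / N) * Real.exp (- v)

end Pool.Agent.AM
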