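import Pool.Agent.Lib.AM.Defs2
import Pool.Agent.Lib.MP_a4c1f4_lc.Euc.Spec

set_option linter.all false

/-!
# AM: the geometric data (`GeomProp`, proved in `SpecE`) and the composition of the blocks

`Geo` is what the geometric part provides for a metric `D` on the finite set `X` of the sites:
blocks `bk N c`, `c : ℤ` (`N` is the number of the grid points); the block `bk N c` has the levels
`c + 1, …, c + n` and the bottom level `c`. The composition uses, for an offset `r < n`, the blocks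
`bk N (c0 + r + n j)`, `j = J, …, 0`, from the top to the bottom.
-/

namespace Pool.Agent.AM

open Finset Pool.Agent.MP_a4c1f4_lc Pool.Agent.MP_a4c1f4_lc.Dbl Pool.Agent.MP_a4c1f4_lc.Euc

/-- `ln |X| + 3`. -/
noncomputable def LL (X : Type) [Fintype X] : ℝ := Real.log (Fintype.card X) + 3

/-- The geometric data for the metric `D`. Only the coverage events of `bk N c` depend on `N`. -/
structure Geo (X : Type) [Fintype X] [DecidableEq X] [Nonempty X] (D : X → X → ℝ) (C0 : ℝ)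
    (n : ℕ) (Lam : ℝ) (bk : ℕ → ℤ → Blk X) : Prop where
  n1 : 1 ≤ n
  Lam0 : 0 ≤ Lam
  h : ∀ N c, (bk N c).h = n
  dat : ∀ N c, (bk N c).dp = (bk 0 c).dp ∧ (bk N c).mu = (bk 0 c).mu ∧ (bk N c).R = (bk 0 c).R
  rr : ∀ N c, ∀ i ≤ n, (bk N c).rr i = (4 : ℝ) ^ (c + i)
  OK : ∀ (N : ℕ) (c : ℤ) (cl : X → List X), Lam ^ 2 ≤ N →
    (∀ x y, cl x = cl y → D x y ≤ (Lam + 1) * (4 : ℝ) ^ (c + n)) → (bk N c).OK Lam N D cl
  Mb : ∀ N c, (bk N c).Mb ≤ C0 * √(LL X)
  R : ∀ N c, (bk N (c - n)).R * (1 / (bk N c).mu 0 +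
    (2 + Real.log (Fintype.card X)) * (Lam + 1) / (bk N c).R) ≤ 1 / 20000
  sum : ∀ (N : ℕ) (S : Finset ℤ) (x o : X),
    ∑ c ∈ S, ind (D x o ≤ (Lam + 1) * (4 : ℝ) ^ (c + n)) * (bk N c).W x o ≤
      C0 * n * LL X * (1 + Real.log (LL X)) ^ 2 * D x o
  sr : ∀ ε : ℝ, 0 < ε → ∃ c0 : ℤ, ∀ N, ∀ c ≤ c0, (bk N c).sr 0 ≤ ε

/-- (E) The geometric part: the result of `SpecE`. -/
def GeomProp : Prop :=
  ∃ C0 : ℝ, 1 ≤ C0 ∧ ∀ (X : Type) [Fintype X] [DecidableEq X] [Nonempty X] (D : X → X → ℝ),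
    PM D → ∃ (n : ℕ) (Lam : ℝ) (bk : ℕ → ℤ → Blk X), Geo X D C0 n Lam bk

section
variable {X K : Type} [Fintype X] [DecidableEq X] [Nonempty X] [Fintype K] [DecidableEq K]
  [Nonempty K]

/-- Sum of `W` over the good tokens at distance at most `ρ`. -/
noncomputable def gs (sg : K → X) (D : X → X → ℝ) (ρ : ℝ) (W : X → X → ℝ)
    (tl : List (K × Option K)) : ℝ :=
  (tl.map (fun t => match t.2 with
    | none => 0
    | some o => ind (D (sg t.1) (sg o) ≤ ρ) * W (sg t.1) (sg o))).sum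

/-- The blocks `b 0` (lowest), …, `b J` (top) can be composed. -/
structure Chain (K : Type) [Fintype K] (D : X → X → ℝ) (Lam : ℝ) (N : ℕ) (δ M : ℝ)
    (b : ℕ → Blk X) (J : ℕ) : Prop where
  pm : PM D
  gap : ∀ x y, D x y = 0 ∨ δ ≤ D x y
  M0 : 0 ≤ M
  last : 2 * (b 0).sr 0 < δ
  OK : ∀ j ≤ J, ∀ cl : X → List X, (∀ x y, cl x = cl y → D x y ≤ (Lam + 1) * (b j).rr (b j).h) →
    (b j).OK Lam N D cl
  fine : ∀ j ≤ J, Fine (b j) K Lam N
  Mb : ∀ j ≤ J, 2000 * (b j).Mb ≤ 3 / 4 * M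
  link : ∀ j < J, (b j).rr (b j).h = (b (j + 1)).rr 0
  R : ∀ j < J, (b j).R * (1 / (b (j + 1)).mu 0 +
    (2 + Real.log (Fintype.card X)) * (Lam + 1) / (b (j + 1)).R) ≤ 1 / 20000

end

/-- (D1) File D/Rel.lean. Relabelling lemmas, each by induction on the list (latest request first).
(1) `chs (fun x l => A (np x l) (npl l)) l = chs A (npl l)`, since `npl (x :: l) = np x l :: npl l`.
(2) Cost: for the step `x` after `l`, by the triangle inequality,
`D (sg x) (sg (A (np x l) (npl l))) ≤ D (sg x) (sg (np x l)) + D (sg (np x l)) (sg (A ..))`.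
(3) `gs` of the new tokens is at most `gs` of the old ones: the token `t` followed by `tl` becomes
`nt t (tl.map fst)`; if its second component is `some o` then (definition of `nt`) `t.2 = some o`
and the first component is `t.1`, so the two terms are equal; otherwise the new term is `0` and the
old one is `≥ 0`.
(4) `chs (nv) l = nvl l`.
(5) Last block: `np z l` is `z` or `nv z l` by definition. If it is `nv z l` the two distances are
equal. If it is `z`, the hypothesis gives `D (sg z) (sg (nv z l)) ≤ D z z + 2 sr 0 < δ`, so this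
distance is `0`. Induction over the suffixes of the list `l0`. -/
def RelProp : Prop :=
  ∀ (X K : Type) [Fintype X] [DecidableEq X] [Nonempty X] [Fintype K] [DecidableEq K]
    [Nonempty K] (B : Blk X) (sg : K → X) (Lam : ℝ) (N : ℕ) (D : X → X → ℝ) (cl : X → List X)
    (G : ℕ → X → ℕ) (q : ℕ → Equiv.Perm X), PM D →
    (∀ (A : K → List K → K) (l : List K),
      chs (fun x l => A (B.np sg Lam N cl G q x l) (B.npl sg Lam N cl G q l)) l =
        chs A (B.npl sg Lam N cl G q l)) ∧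
    (∀ (A : K → List K → K) (l : List K),
      stp (fun x l => D (sg x)
        (sg (A (B.np sg Lam N cl G q x l) (B.npl sg Lam N cl G q l)))) l ≤
      B.bcost sg Lam N cl G q D l +
        stp (fun x l => D (sg x) (sg (A x l))) (B.npl sg Lam N cl G q l)) ∧
    (∀ (ρ : ℝ) (W : X → X → ℝ) (tl : List (K × Option K)), (∀ x y, 0 ≤ W x y) →
      gs sg D ρ W (B.ntl sg Lam N cl G q tl) ≤ gs sg D ρ W tl) ∧
    (∀ l : List K, chs (B.nv sg Lam N cl G q) l = B.nvl sg Lam N cl G q l) ∧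
    (∀ (δ : ℝ) (l0 : List K), (∀ x y, D x y = 0 ∨ δ ≤ D x y) → 2 * B.sr 0 < δ →
      (∀ (z : K) (l : List K), (∃ m : List K, m ++ z :: l = l0) →
        D (sg z) (sg (B.nv sg Lam N cl G q z l)) ≤
          D (sg z) (sg (B.np sg Lam N cl G q z l)) + 2 * B.sr 0) →
      stp (fun x l => D (sg x) (sg (B.nv sg Lam N cl G q x l))) l0 ≤
        B.bcost sg Lam N cl G q D l0)

/-- (D2) File D/Rec.lean, from `BlockCostProp`, `BlockPotProp`, `BlockInvProp`, `LawProp`, `RelProp`.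
Induction on `J` (for `J + 1` the chain `b 0, …, b J` satisfies `Chain` again).
Write `B = b J`; `cl x = cl y → D x y ≤ th x * rr h ≤ (Lam + 1) rr h` (`Th.le`; `rr h > 0` by
`Blk.OK.rr`, obtained from `Chain.OK`: if `rr h` could be negative the implication is needed first;
use `Th.one`, `Th.diam` at `x = y`: `0 = D x x ≤ th x * rr h` with `th x ≥ 1` gives `rr h ≥ 0`), so
`B.OK Lam N D cl`. `LawProp` gives `Ω, w, Gf, qf`; every `Gf ω` is in the support.
`J = 0`: `A ω = nv` for `Gf ω, qf ω`. No duplicates: `BlockInvProp`, `RelProp` (4). Cost: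
`RelProp` (5) with the last part of `BlockInvProp`, then `BlockCostProp` (as a sum over `ω`), at
most `2000 Mb Pi ≤ 3/4 M Pi ≤ M Pi` (`Pi ≥ 0`: `th ≥ 1`, `W ≥ 0` by `Blk.OK.pm`, `R > 0`).
Step `J + 1`: `B = b (J+1)`, `B' = b J`. For every `ω` the new labels `cl' = B.ncl .. (Gf ω)` and
`th' = B.nth .. (Gf ω)` satisfy `Th D cl' th' Lam (B.rr 0)` (`BlockInvProp`) and
`B.rr 0 = B'.rr B'.h` (`link`), so the induction hypothesis gives `Ω' ω, w' ω, A' ω`. Take
`(ω : Ω) × Ω' ω` with the weight `w ω * w' ω ω'` and the rule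
`x, l ↦ A' ω ω' (np x l) (npl l)`. For a list `tl` of tokens with `Inv sg cl tl`, `ntl tl` satisfies
`Inv sg cl' (ntl tl)` and its positions are `npl (tl.map fst)` (`BlockInvProp`). No duplicates:
`RelProp` (1). Cost for `ω`: `RelProp` (2), then the induction hypothesis for `ntl tl`:
`bcost + M (PiT B'.W B'.R th' (ntl tl) + 9 ∑_{j < J} gs_j (ntl tl))`, `gs_j (ntl tl) ≤ gs_j tl`
(`RelProp` (3)). Sum over `ω` with `BlockCostProp` and `BlockPotProp` (with `W' = B'.W`,
`R' = B'.R > 0`, and `(Lam + 1) * B.rr 0 = (Lam + 1) * B'.rr B'.h`):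
`≤ 3/4 M Pi + M (Pi / 4 + 9 gs_J tl + 9 ∑_{j < J} gs_j tl)`. (`B'.W ≥ 0`: `B'.OK` for the labels
`cl'` of any `ω`; there is one since the weights have sum `1`, or from `Chain.OK` with labels that
are injective: `cl x = [x]`, where `D x x = 0 ≤ (Lam+1) rr h`.) -/
def RecProp : Prop :=
  ∀ (X K : Type) [Fintype X] [DecidableEq X] [Nonempty X] [Fintype K] [DecidableEq K]
    [Nonempty K] (sg : K → X) (D : X → X → ℝ) (Lam : ℝ) (N : ℕ) (δ M : ℝ) (b : ℕ → Blk X)
    (J : ℕ), Chain K D Lam N δ M b J → 0 ≤ Lam →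
    ∀ (cl : X → List X) (th : X → ℝ), Th D cl th Lam ((b J).rr (b J).h) →
    ∃ (Ω : Type) (_ : Fintype Ω) (w : Ω → ℝ) (A : Ω → K → List K → K),
      (∀ ω, 0 ≤ w ω) ∧ ∑ ω, w ω = 1 ∧
      ∀ tl : List (K × Option K), Inv sg cl tl →
        (∀ ω, (chs (A ω) (tl.map Prod.fst)).Nodup) ∧
        ∑ ω, w ω * stp (fun x l => D (sg x) (sg (A ω x l))) (tl.map Prod.fst) ≤
          M * (PiT sg (b J).W (b J).R th tl +
            9 * ∑ j ∈ range J, gs sg D ((Lam + 1) * (b j).rr (b j).h) (b j).W tl)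

/-- (D3) File D/Pick.lean. The parameters. `δ`: `X` is finite, take the least positive value of `D`
(or `1`); `D ≥ 0` by `PM.nonneg`. `Geo.sr` with `ε = δ / 4` gives `c1`; put `c0 = c1 - n`; then
`c0 + r + n * 0 ≤ c1` for `r < n`, so `2 sr 0 ≤ δ / 2 < δ`. `J`: `X` is finite and
`4 ^ (c0 + n J + n) → ∞` (`n ≥ 1`; `4 ^ (c0 + k) = 4 ^ c0 * 4 ^ k`). `N`: for every `c` of the
finite range and all `x`, `o` the conditions of `Fine (bk N c)` hold for all large `N` (and
`Lam ^ 2 ≤ N`): by `Geo.dat`, `Geo.h` the numbers `W x o ≥ 0`, `dp 0 x o ≥ 0`, `mu 0 > 0`, `R > 0`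
of `bk N c` are those of `bk 0 c` (the signs from `Geo.OK` with some `N` and the injective labels
`cl x = [x]`), while `er X K Lam N = const / N → 0` and `Lam / N → 0`; take the maximum
(or use `Filter.eventually_atTop` and `Filter.eventually_all_finset`). The other fields of
`Chain`: `OK`: `Geo.OK` with `Geo.h`, `Geo.rr` (`rr h = 4 ^ (c + n)`); `Mb`: `Geo.Mb`, with
`M = 8000 / 3 * C0 * √L`; `link`: `rr n` of `bk N c` is `4 ^ (c + n)`, and `rr 0` of `bk N (c + n)`
is `4 ^ (c + n)`; `R`: `Geo.R` for `c + n`. -/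
def PickProp : Prop :=
  ∀ (X K : Type) [Fintype X] [DecidableEq X] [Nonempty X] [Fintype K] [DecidableEq K]
    [Nonempty K] (D : X → X → ℝ) (C0 : ℝ) (n : ℕ) (Lam : ℝ) (bk : ℕ → ℤ → Blk X), PM D →
    1 ≤ C0 → Geo X D C0 n Lam bk →
    ∃ (N : ℕ) (δ : ℝ) (c0 : ℤ) (J : ℕ),
      (∀ x y, D x y ≤ (4 : ℝ) ^ (c0 + n * J + n)) ∧
      ∀ r < n, Chain K D Lam N δ (8000 / 3 * C0 * √(LL X)) (fun j => bk N (c0 + r + n * j)) J

/-- (D4) File D/Cmp.lean, from `RecProp` and `PickProp`. For every `r < n` apply `RecProp` with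
`b j = bk N (c0 + r + n j)`, one cluster `cl = fun _ => []`, `th = 1` (`Th`: `1 ≤ Lam + 1` and
`D x y ≤ 4 ^ (c0 + n J + n) ≤ rr h = 4 ^ (c0 + r + n J + n)`) and take the uniform mixture,
`Ω = (r : Fin n) × Ω r` with the weights `w / n`. For requests `l` of length at most `card K`, take
the tokens `(x, none)`: `Inv` holds (`fits`: `aC = univ`), so there are no duplicates. For
`Adm l τ` take the tokens `tl = List.zip l (τ.map some)` (`τ` has the same length, so
`tl.map Prod.fst = l`, `tl.filterMap Prod.snd = τ`). Then `PiT sg W R 1 tl = 3 * sum of W` and for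
the top block `ind (D ≤ (Lam + 1) rr h) = 1`, so `PiT = 3 gs_J ≤ 9 gs_J` and the bound of
`RecProp` is at most `9 M ∑_{j ≤ J} gs_j tl`. The average over `r` is
`9 M / n * ∑_r ∑_{j ≤ J} gs (bk N (c0 + r + n j))`; the integers `c0 + r + n j`, `r < n`, `j ≤ J`, are
distinct, so by `Geo.sum` (with the set `S` of these integers) for every token `(x, some o)` the
sum is at most `C0 n L (1 + ln L)^2 D (sg x) (sg o)`; the sum over the tokens is
`C0 n L (1 + ln L)^2 acost`. Total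
`9 * 8000/3 * C0 √L * C0 L (1 + ln L)^2 = 24000 C0^2 √L L (1 + ln L)^2`. -/
def CmpProp : Prop :=
  ∀ (X K : Type) [Fintype X] [DecidableEq X] [Nonempty X] [Fintype K] [DecidableEq K]
    [Nonempty K] (sg : K → X) (D : X → X → ℝ) (C0 : ℝ) (n : ℕ) (Lam : ℝ) (bk : ℕ → ℤ → Blk X),
    PM D → 1 ≤ C0 → Geo X D C0 n Lam bk →
    Cmp D sg (24000 * C0 ^ 2 * √(LL X) * LL X * (1 + Real.log (LL X)) ^ 2)

/-- (D5) File D/Top.lean, from `GeomProp` and `CmpProp`. If `T` is empty take `A = fun _ x _ => x`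
on one point. Otherwise with `L = ln m + 3`, `u = ln m ≥ 0`: `L ≤ 3 (1 + u)`, `√L ≤ √3 √(1 + u)`,
`1 + ln L ≤ 1 + ln 3 + ln (1 + u) ≤ 2.1 (1 + ln (1 + u))`; `D ≥ 0` and `acost ≥ 0`
(monotonicity of `Cmp` in the ratio: `cmp_mono` in `Euc/AsmC.lean`). -/
def AllProp : Prop :=
  ∃ C : ℝ, 1 ≤ C ∧ ∀ (m : ℕ), 0 < m → ∀ (T : Type) [Fintype T] [DecidableEq T] (σ : T → Fin m)
    (D : Fin m → Fin m → ℝ), PM D →
    Cmp D σ (C * √(1 + Real.log m) * (1 + Real.log m) *
      (1 + Real.log (1 + Real.log m)) ^ 2)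

end Pool.Agent.AM
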