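import Pool.Agent.Lib.AM.Iface
import Pool.Agent.Lib.AM.G.ChnD

set_option linter.all false

/-!
# AM, SPEC E (part 1): geometry of one field, the blocks `blk`, and `blk` satisfies `Blk.OK`

Paper proof: note 5251, (1), (2). Every docstring contains the complete proof. `x`, `y`, `z` are sites,
`D` the metric, `m` the number of the sites. Tools: `G/Chn.lean`, `G/Rad.lean` (helper74: chain metric `chn`
and the radius lemma `rad`), `MP_a4c1f4_lc/N0.lean` (`contract`), `MP_a4c1f4_lc/Defs.lean` (`nb`, `ind`, `PM`).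
-/

namespace Pool.Agent.AM.G

open Finset Pool.Agent.MP_a4c1f4_lc Pool.Agent.AM

/-! ### Parameters -/

/-- The parameters: `n` levels per block, `Lam` cap of the noises, `L` about `ln m`, `beta` price of a
dummy, `K` factor of the bottom field, `kap` factor of the chain metrics, `a`, `b1` constants of the growth
and of the coverage, `dl * r` small radius, `s` shift for the far displacements, `4 ^ js * r` large radius. -/
structure Prm where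
  n : ℕ
  Lam : ℝ
  L : ℝ
  beta : ℝ
  K : ℝ
  kap : ℝ
  a : ℝ
  b1 : ℝ
  dl : ℝ
  s : ℕ
  js : ℕ

/-- Numerical hypotheses for `m` sites. -/
structure Prm.OK (P : Prm) (m : ℕ) : Prop where
  m_pos : 0 < m
  hL : P.L = Real.log m + 3
  hLam : P.Lam = 8 * P.L
  hn : 1 ≤ P.n
  hbeta : 1 ≤ P.beta
  hbeta' : P.beta ≤ 8 * P.Lam
  hK : 1 ≤ P.K
  hb1 : 0 ≤ P.b1
  hb1' : 4 * P.L + 4 ≤ Real.exp P.b1
  ha : P.a = P.b1 + 5
  hkap : 4 * (1 + Real.log (1 + P.L + P.a)) ≤ P.kap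
  hdl : 0 < P.dl
  hdl' : P.kap * (P.L + P.a) * P.dl ≤ 1
  hs : 256 * P.K * P.Lam ^ 2 ≤ 4 ^ P.s
  hjs : 4 ^ P.s * (16 * P.Lam) ≤ 4 ^ P.js
  hnn : 4 * P.K * P.Lam ≤ 4 ^ P.n

/-- scale of field `i` of the block with bottom level `c` -/
noncomputable def rrc (c : ℤ) (i : ℕ) : ℝ := (4 : ℝ) ^ (c + (i : ℤ))

/-- mean of field `i` -/
noncomputable def mm (P : Prm) (c : ℤ) (i : ℕ) : ℝ :=
  if i = 0 then P.K * P.beta * rrc c 0
  else min 1 (P.beta / (8 * P.Lam) * 2 ^ (P.n - i)) * rrc c i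

section
variable {X : Type} [Fintype X] [DecidableEq X] [Nonempty X]

open Classical in
/-- Contraction of `D` at the scale `r`. -/
noncomputable def Dk (D : X → X → ℝ) (r : ℝ) : X → X → ℝ :=
  if h : ∃ D' : X → X → ℝ, PM D' ∧ (∀ x y, D' x y ≤ D x y) ∧ (∀ x y, D x y ≤ D' x y + r / 8) ∧
      (∀ x y, D x y ≤ r / (8 * (Fintype.card X : ℝ)) → D' x y = 0) then h.choose else D

/-- Local growth at the scale `r`. -/
noncomputable def Gk (P : Prm) (D : X → X → ℝ) (r : ℝ) (y : X) : ℝ :=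
  Real.log ((nb D (4 * (4 ^ P.js * r)) y : ℝ) / (nb D (P.dl * r) y : ℝ)) + P.a

/-- The pseudometric of a field with mean `mu` at the scale `r`. -/
noncomputable def dpl (P : Prm) (D : X → X → ℝ) (r mu : ℝ) (x y : X) : ℝ :=
  P.kap * (mu / r) * chn (Dk D r) (Gk P D r) x y

/-- The coverage event at the scale `r`. -/
def Cvr (P : Prm) (D : X → X → ℝ) (N : ℕ) (r : ℝ) (g : X → ℕ) : Prop :=
  ∀ y, ∃ z, D y z ≤ P.dl * r ∧ Real.log (nb D (P.dl * r) y) - P.b1 ≤ P.Lam * (g z : ℝ) / (N : ℝ)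

/-- `ln |B(z, 2 R)|` with the large radius `R = 4 ^ js * r` -/
noncomputable def vbk (P : Prm) (D : X → X → ℝ) (r : ℝ) (z : X) : ℝ :=
  Real.log (nb D (2 * (4 ^ P.js * r)) z)

/-- The block with bottom level `c`. Only the coverage event depends on `N`. -/
noncomputable def blk (P : Prm) (D : X → X → ℝ) (N : ℕ) (c : ℤ) : Blk X where
  h := P.n
  dp := fun i => dpl P D (rrc c i) (mm P c i)
  mu := mm P c
  sr := fun i => rrc c i * P.Lam
  nr := fun i => 4 ^ P.js * rrc c i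
  rr := rrc c
  vb := fun i => vbk P D (rrc c i)
  fl := fun i => i + P.s
  Cov := fun i => Cvr P D N (rrc c i)
  R := P.beta * rrc c P.n

end

/-! ### Geometry of one field -/

/-- (Dk) The contraction exists. Proof. `contract` (`MP_a4c1f4_lc/N0.lean`) with `θ = r / (8 m)`: `m θ = r / 8`; then
`dif_pos` in `Dk` and `Exists.choose_spec`. -/
def DkProp : Prop :=
  ∀ (X : Type) [Fintype X] [DecidableEq X] [Nonempty X] (D : X → X → ℝ) (r : ℝ), PM D → 0 < r →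
    PM (Dk D r) ∧ (∀ x y, Dk D r x y ≤ D x y) ∧ (∀ x y, D x y ≤ Dk D r x y + r / 8) ∧
      (∀ x y, D x y ≤ r / (8 * (Fintype.card X : ℝ)) → Dk D r x y = 0)

/-- (Gk) Bounds of the growth. Proof. `1 ≤ nb D δ y ≤ nb D (4R) y ≤ m` (`y` itself is in the ball, `dl ≤ 1 ≤ 4 * 4^js`: as
`kap ≥ 4`, `L + a ≥ 1`), so `0 ≤ log (quotient) ≤ log m ≤ L`. -/
def GkProp : Prop :=
  ∀ (X : Type) [Fintype X] [DecidableEq X] [Nonempty X] (D : X → X → ℝ) (P : Prm) (r : ℝ),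
    PM D → P.OK (Fintype.card X) → 0 < r → ∀ y, P.a ≤ Gk P D r y ∧ Gk P D r y ≤ P.L + P.a

/-- (Pm) `dpl` is a pseudometric, with the upper bounds. Uses: DkProp, GkProp. Proof. `chn_pm`, `chn_le_one` and `chn_zero` of
`G/Chn.lean` (or directly from the definition: `sInf` over all chains of a symmetric length; concatenation of chains;
reversal), `Gk ≥ a ≥ 1`, `max (G x) (G y) ≤ G x + G y`. The constant `kap * (mu / r)` is positive. -/
def PmProp : Prop :=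
  ∀ (X : Type) [Fintype X] [DecidableEq X] [Nonempty X] (D : X → X → ℝ) (P : Prm) (r mu : ℝ),
    PM D → P.OK (Fintype.card X) → 0 < r → 0 < mu →
    PM (dpl P D r mu) ∧
    (∀ x y, dpl P D r mu x y ≤ P.kap * (mu / r) * D x y * (Gk P D r x + Gk P D r y)) ∧
    (∀ x y, D x y ≤ r / (8 * (Fintype.card X : ℝ)) → dpl P D r mu x y = 0)

/-- (Sure) Sure radius of the cells. Uses: DkProp, GkProp. Proof. `Own dp eta g x z` gives (compare with the candidate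
`x` itself, `dp x x = 0`, in `Sel`): `0 ≤ eta g(x) ≤ eta g(z) - dp x z`, so `dp x z ≤ eta g(z) ≤ eta N = mu Lam`. And
`dp x z ≥ kap (mu/r) Dk x z` (`chn_ge` of `G/Chn.lean` with the constant 1: `Gk ≥ a ≥ 1`). So `Dk x z ≤ r Lam / kap ≤
r Lam / 4`, `D x z ≤ r Lam / 4 + r / 8 ≤ r Lam / 2` (`Lam ≥ 24`, `kap ≥ 4`). -/
def SureProp : Prop :=
  ∀ (X : Type) [Fintype X] [DecidableEq X] [Nonempty X] (D : X → X → ℝ) (P : Prm) (r mu : ℝ) (N : ℕ),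
    PM D → P.OK (Fintype.card X) → 0 < r → 0 < mu → 0 < N →
    ∀ g : X → ℕ, (∀ z, g z ≤ N) → ∀ x z, Own (dpl P D r mu) (mu * P.Lam / N) g x z →
      D x z ≤ r * P.Lam / 2 ∧ dpl P D r mu x z ≤ mu * P.Lam

/-- (Rad) Radius of the cells on the coverage event. Uses: DkProp, GkProp, SureProp. Proof. Put `E z = eta g(z)`,
`eta = mu Lam / N`, so `E z / mu = Lam g(z) / N`, `e = max 0 (E z / mu - vbk z - 2)`, `R = 4^js r`, `δ = dl r`. Apply
`rad` of `G/Rad.lean` to the metric `Dk`, the function `Gk`, the constant `c = kap (mu / r)`: `hz` is `Own` (weak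
inequality for all `z'`). `hcov`: let `c chn y z ≤ c chn x z + mu`. `c chn x z ≤ mu Lam` (SureProp), so
`kap (mu/r) Dk y z ≤ c chn y z ≤ mu (Lam + 1)`, `D y z ≤ r (Lam + 1)/4 + r/8 ≤ r Lam ≤ R` (`R ≥ 16 Lam r`). The coverage
gives `z'` with `D y z' ≤ δ`, `E z'/mu ≥ log (nb δ y) - b1`, and `c chn y z' ≤ kap (mu/r) δ max (G y) (G z') ≤
kap (mu/r) dl r (L + a) ≤ mu`. Finally `E z / mu ≤ log (nb (2R) z) + 2 + e ≤ log (nb (4R) y) + 2 + e` (the ball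
`B(z, 2R)` is contained in `B(y, 4R)` as `D y z ≤ R`), so `E z/mu - E z'/mu + 2 ≤ log (nb (4R) y) - log (nb δ y) + b1 +
4 + e ≤ Gk y + e` (`a = b1 + 5`). Result: `(kap / r) Dk x z ≤ e + 1 + log (Gk x) ≤ e + 1 + log (L + a)`, and
`kap ≥ 4 (1 + log (1 + L + a))`: `Dk x z ≤ (r/4)(1 + e)` (`1 + log (1 + L + a) ≥ 1`). So `D x z ≤ (r/4)(1 + e) + r/8 ≤
(r/2)(1 + e)`. -/
def RadProp : Prop :=
  ∀ (X : Type) [Fintype X] [DecidableEq X] [Nonempty X] (D : X → X → ℝ) (P : Prm) (r mu : ℝ) (N : ℕ),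
    PM D → P.OK (Fintype.card X) → 0 < r → 0 < mu → 0 < N →
    ∀ g : X → ℕ, (∀ z, g z ≤ N) → Cvr P D N r g → ∀ x z, Own (dpl P D r mu) (mu * P.Lam / N) g x z →
      D x z ≤ r / 2 * (1 + max 0 (P.Lam * (g z : ℝ) / (N : ℝ) - vbk P D r z - 2))

/-- (Count) The neighbourhoods are not crowded. Uses: nothing. Proof. `R = 4^js r`. If `D x z ≤ R` the ball `B(x, R)` is contained
in `B(z, 2R)`, so `exp (- vbk z) = 1 / nb (2R) z ≤ 1 / nb R x`; the number of the `z` with `D x z ≤ R` is `nb R x`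
(symmetry of `D`). `0 ≤ vbk` as `1 ≤ nb`. -/
def CountProp : Prop :=
  ∀ (X : Type) [Fintype X] [DecidableEq X] [Nonempty X] (D : X → X → ℝ) (P : Prm) (r : ℝ),
    PM D → 0 < r → (∀ z, 0 ≤ vbk P D r z) ∧
    ∀ x, ∑ z : X, ind (D x z ≤ 4 ^ P.js * r) * Real.exp (- vbk P D r z) ≤ 1

/-! ### Probability of the coverage event -/

/-- (Tail) The truncated geometric weights. Uses: nothing. Proof. `q = qN Lam N = 1 - x`, `x = Lam / N ≤ 1 / Lam ≤ 1/24`.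
`∑_(j<N) (1-q) q^j = 1 - q^N`, and `∑_(j0 ≤ j < N) (1-q) q^j = q^j0 - q^N` for `j0 ≤ N`; `0 < q < 1`, `q^N ≤ exp (-Lam)`.
For `0 ≤ t ≤ Lam / 8` let `j0` be the least natural number with `t ≤ Lam j0 / N`: `j0 ≤ t / x + 1 ≤ N`. The sum is
`(q^j0 - q^N) / (1 - q^N) ≥ q^j0 - q^N` (nonnegative), and `q^j0 ≥ exp (-(x + x^2) (t/x + 1)) = exp (- t - (x t + x + x^2))`
(`log (1 - x) ≥ -x - x^2` for `0 ≤ x ≤ 1/2`), `x t ≤ 1/8`, `x + x^2 ≤ 1/20`, and `exp (-1/5) ≥ 3/4`. -/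
def TailProp : Prop :=
  ∀ (Lam : ℝ) (N : ℕ), 24 ≤ Lam → Lam ^ 2 ≤ N →
    (∀ j, 0 ≤ tw Lam N j) ∧ (∑ j : Fin N, tw Lam N (j : ℕ) = 1) ∧
    ∀ t : ℝ, 0 ≤ t → t ≤ Lam / 8 →
      3 / 4 * Real.exp (-t) - Real.exp (-Lam) ≤
        ∑ j : Fin N, tw Lam N (j : ℕ) * ind (t ≤ Lam * ((j : ℕ) : ℝ) / (N : ℝ))

/-- (Ind) Independence. Uses: nothing. Proof. `∏_z w (g z) * ind (∀ z ∈ B, A (g z)) = ∏_z (w (g z) * (if z ∈ B then
ind (A (g z)) else 1))`, and the sum over all `g` of a product is the product of the sums (`Finset.prod_univ_sum`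
with `Fintype.piFinset_univ`, read backwards). The factor of `z ∉ B` is `∑ w = 1`. -/
def IndProp : Prop :=
  ∀ (X : Type) [Fintype X] [DecidableEq X] (N : ℕ) (w : Fin N → ℝ) (B : Finset X) (A : Fin N → Prop),
    ∑ j, w j = 1 →
    ∑ g : X → Fin N, (∏ z, w (g z)) * ind (∀ z ∈ B, A (g z)) = (∑ j, w j * ind (A j)) ^ B.card

/-- (Cov) The coverage event has probability at least 1/2. Uses: TailProp, IndProp. Proof. `δ = dl r`, `L = ln m + 3 ≥ 3`, `Lam = 8 L ≥ 24`.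
For a site `y` let `n_y = nb D δ y ≤ m`, `t_y = log n_y - b1`. If `t_y ≤ 0` the condition for `y` holds with `z = y` (`D y y = 0 ≤ δ`,
`Lam g(y)/N ≥ 0`). Otherwise `0 < t_y ≤ log m ≤ L = Lam / 8`. `p = P(t_y ≤ Lam g/N) ≥ (3/4) exp (b1) / n_y - exp (-Lam)` (TailProp),
`n_y p ≥ (3/4) (4 L + 4) - m exp (-Lam) ≥ 3 L` (`m exp (-8L) ≤ 1`). By IndProp with `B = {z : D y z ≤ δ}`, `card B = n_y` (symmetry),
`A j = (Lam j / N < t_y)`, `∑ w ind A = 1 - p`: the probability that the condition fails for `y` is `(1 - p)^(n_y) ≤ exp (- n_y p) ≤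
exp (-3 L)`. `ind (Cvr) ≥ 1 - ∑_y ind (fails for y)`, `∑_g lw = 1` (IndProp with `B = ∅`), so `Z ≥ 1 - m exp (-3L) ≥ 1/2`
(`m = exp (L - 3)`). -/
def CovProp : Prop :=
  ∀ (X : Type) [Fintype X] [DecidableEq X] [Nonempty X] (D : X → X → ℝ) (P : Prm) (r : ℝ) (N : ℕ),
    PM D → P.OK (Fintype.card X) → 0 < r → P.Lam ^ 2 ≤ N →
    1 / 2 ≤ ∑ g : X → Fin N, lw P.Lam g * ind (Cvr P D N r (fun z => (g z : ℕ)))

/-! ### The block -/

/-- (Noise) Sum of the means. Uses: nothing. Proof. `r = rrc c n = 4^(c+n)`. For `1 ≤ i ≤ n`: `mm i ≤ (beta/(8 Lam)) 2^(n-i) 4^(c+i) =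
(beta/(8 Lam)) r 2^(n-i) 4^(-(n-i)) = (beta / (8 Lam)) r (1/2)^(n-i)`, the sum over `i` is `≤ (beta/(4 Lam)) r`. `mm 0 = K beta 4^c =
K beta r / 4^n ≤ beta r / (4 Lam)` (`hnn`). Total times `Lam`: `≤ beta r / 2`. -/
def NoiseProp : Prop :=
  ∀ (P : Prm) (m : ℕ) (c : ℤ), P.OK m →
    (∀ i, 0 < mm P c i) ∧ (∑ i ∈ range (P.n + 1), mm P c i) * P.Lam ≤ P.beta * rrc c P.n / 2

/-- (FarN) The means at distance `s`. Uses: nothing. Proof. `2^s ≥ 16 Lam` (square: `4^s ≥ 256 K Lam^2`, `K ≥ 1`), `b_i = min 1 (beta/(8 Lam) 2^(n-i))`.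
For `1 ≤ i`: `b_(i+s) ≥ b_i / 2^s` (`2^(n-i-s) = 2^(n-i)/2^s`, `1 ≥ 1/2^s`), so `mm (i+s) ≥ b_i 2^(-s) 4^s 4^(c+i) = 2^s mm i ≥ 16 Lam mm i`.
For `i = 0` (`s ≥ 1` as `4^s > 1`): `b_s ≥ min 1 (beta/(8 Lam)) = beta/(8 Lam)` (`hbeta'` and `2^(n-s) ≥ 1`), `mm s ≥ (beta/(8 Lam)) 4^s 4^c ≥
(beta/(8 Lam)) 256 K Lam^2 4^c = 32 Lam K beta 4^c ≥ 16 Lam mm 0`. -/
def FarNProp : Prop :=
  ∀ (P : Prm) (m : ℕ) (c : ℤ), P.OK m → 1 ≤ P.s ∧
    ∀ i, i + P.s ≤ P.n → 16 * P.Lam * mm P c i ≤ mm P c (i + P.s)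

/-- (Far) The condition `far` of `Blk.OK`. Uses: FarNProp. Proof. If `i + s ≤ n`: second alternative: `4 sr (i+s) = 4 Lam 4^s rrc c i ≤
4^js rrc c i` (`hjs`), and FarNProp. Otherwise `i ≥ n - s + 1`: `nr i / 2 = 4^js 4^(c+i) / 2 ≥ 4^js 4^(c+n) 4 / (2 * 4^s) ≥ 32 Lam 4^(c+n) ≥
(Lam + 1) 4^(c+n) ≥ D x v`. -/
def FarProp : Prop :=
  ∀ (X : Type) [Fintype X] [DecidableEq X] [Nonempty X] (D : X → X → ℝ) (P : Prm) (N : ℕ) (c : ℤ)
    (cl : X → List X), P.OK (Fintype.card X) →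
    (∀ x y, cl x = cl y → D x y ≤ (P.Lam + 1) * rrc c P.n) → ∀ i ≤ P.n,
    (∀ x v, cl x = cl v → D x v ≤ (blk P D N c).nr i / 2) ∨
      (1 ≤ (blk P D N c).fl i ∧ (blk P D N c).fl i ≤ P.n ∧ (blk P D N c).fl i ≠ i ∧
        4 * (blk P D N c).sr ((blk P D N c).fl i) ≤ (blk P D N c).nr i ∧
        16 * P.Lam * (blk P D N c).mu i ≤ (blk P D N c).mu ((blk P D N c).fl i))

/-- (OK) The block satisfies `Blk.OK`. Uses: PmProp, SureProp, RadProp, CountProp, CovProp, NoiseProp, FarProp. Proof. Field by field: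
`hLam`: `Lam = 8 L ≥ 24` (`log m ≥ 0`). `hLamm`: `m (Lam + 1) exp (-Lam) = exp (L - 3) (8L + 1) exp (-8L) ≤ exp (-3) (8 L + 1) exp (-7L) ≤ 1/100`
(`exp (7L) ≥ (1 + L)^7`-type bounds, `exp (7L) ≥ 1 + 7L + (7L)^2/2 ≥ ...`, `L ≥ 3`). `rad`: `Blk.ex` of `blk` is the maximum in RadProp. `srnr`:
`8 Lam ≤ 4^js` from `hjs` (`4^s ≥ 1`); `sure`: `r Lam / 2 ≤ r Lam`. `Z`: CovProp. The others are clear. -/
def BlkProp : Prop :=
  ∀ (X : Type) [Fintype X] [DecidableEq X] [Nonempty X] (D : X → X → ℝ) (P : Prm) (N : ℕ) (c : ℤ)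
    (cl : X → List X), PM D → P.OK (Fintype.card X) → P.Lam ^ 2 ≤ N →
    (∀ x y, cl x = cl y → D x y ≤ (P.Lam + 1) * rrc c P.n) → (blk P D N c).OK P.Lam N D cl

end Pool.Agent.AM.G
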